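import Pool.Agent.Lib.MP_d4c0ca_ag.T.Chart

/-! Compatible families of submodules on the charts are the saturated graded submodules. -/

namespace Pool.Agent.Lib.MP_d4c0ca_ag.T

open CategoryTheory AlgebraicGeometry MvPolynomial
open Pool.Agent.Lib.MP_cd184e_ag.B

theorem ss_loc {Y : Scheme.{0}} {M : Y.Modules} {U W : Y.Opens} (hU : IsAffineOpen U)
    (hM : LocAt M U) (h : Γ(Y, U)) (hW : W ≤ U) (e : W = Y.basicOpen h)
    (P : Submodule Γ(Y, U) Γ(M, U)) {t : Γ(M, U)}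
    (ht : mres M hW t ∈ Submodule.span Γ(Y, W) (mres M hW '' (P : Set Γ(M, U)))) :
    ∃ N : ℕ, h ^ N • t ∈ P := by
  have key : ∀ y ∈ Submodule.span Γ(Y, W) (mres M hW '' (P : Set Γ(M, U))),
      ∃ N : ℕ, ∃ p ∈ P, mres M hW p = rres hW h ^ N • y := by
    intro y hy
    induction hy using Submodule.span_induction with
    | mem y hy =>
      obtain ⟨p, hp, rfl⟩ := hy
      exact ⟨0, p, hp, by rw [pow_zero, one_smul]⟩
    | zero => exact ⟨0, 0, zero_mem _, by rw [map_zero, smul_zero]⟩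
    | add y z _ _ hy hz =>
      obtain ⟨N, p, hp, e1⟩ := hy
      obtain ⟨N', p', hp', e2⟩ := hz
      refine ⟨N + N', h ^ N' • p + h ^ N • p', add_mem (P.smul_mem _ hp) (P.smul_mem _ hp'), ?_⟩
      rw [map_add, mres_smul, mres_smul, e1, e2, map_pow, map_pow, smul_add, ← mul_smul,
        ← mul_smul, ← pow_add, ← pow_add, add_comm N' N]
    | smul r y _ hy =>
      obtain ⟨N, p, hp, e1⟩ := hy
      subst e
      have loc := hU.isLocalization_basicOpen h
      obtain ⟨⟨r', ⟨_, n, rfl⟩⟩, hr⟩ := IsLocalization.surj (Submonoid.powers h) r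
      have hr' : r * rres hW (h ^ n) = rres hW r' := hr
      refine ⟨n + N, r' • p, P.smul_mem _ hp, ?_⟩
      rw [mres_smul, e1, ← hr', map_pow, ← mul_smul, ← mul_smul, pow_add]
      congr 1
      ring
  obtain ⟨N, p, hp, e1⟩ := key _ ht
  obtain ⟨m, hm⟩ := hM.un h W hW e (h ^ N • t - p) (by
    rw [map_sub, mres_smul, e1, map_pow, sub_self])
  refine ⟨m + N, ?_⟩
  rw [smul_sub, sub_eq_zero, ← mul_smul, ← pow_add] at hm
  rw [hm]
  exact P.smul_mem _ hp

theorem ss_down {σ ι : Type} [Fintype σ] {K : Sub σ ι}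
    (hK : ∀ f, (∀ s : σ, (X s : MvPolynomial σ ℂ) • f ∈ K) → f ∈ K) (n : ℕ) :
    ∀ (N : σ → ℕ) (f : ι → MvPolynomial σ ℂ), ∑ s, N s = n →
      (∀ s, (X s : MvPolynomial σ ℂ) ^ N s • f ∈ K) → f ∈ K := by
  classical
  induction n using Nat.strong_induction_on with
  | _ n ih =>
    intro N f hn h
    refine hK f fun s => ?_
    rcases hs : N s with _ | k
    · have := h s
      rw [hs, pow_zero, one_smul] at this
      exact K.smul_mem _ this
    · refine ih _ ?_ (Function.update N s k) _ rfl fun j => ?_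
      · rw [← hn]
        refine Finset.sum_lt_sum (fun j _ => ?_) ⟨s, Finset.mem_univ _, ?_⟩
        · by_cases e : j = s
          · subst e
            rw [Function.update_self]; omega
          · rw [Function.update_of_ne e]
        · rw [Function.update_self]; omega
      · by_cases e : j = s
        · subst e
          rw [Function.update_self, ← mul_smul, ← pow_succ, ← hs]
          exact h j
        · rw [Function.update_of_ne e, smul_comm]
          exact K.smul_mem _ (h j)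

variable {S σ ι : Type} [CommRing S] [Algebra ℂ S] {𝒜 : ℕ → Submodule ℂ S} [GradedAlgebra 𝒜]
  {x : σ → S} {hx : ∀ l, x l ∈ 𝒜 1} {G : CohCat (Proj 𝒜)} [Fintype ι] [Fintype σ]

/-- The section on a chart given by a vector of polynomials. -/
noncomputable def Gens.ev (γ : Gens hx G ι) (j : σ) :
    (ι → MvPolynomial σ ℂ) →+ Γ(G.obj, Proj.basicOpen 𝒜 (x j)) where
  toFun f := ∑ i, dehom hx j (f i) • γ.g i j
  map_zero' := by simp
  map_add' f g := by simp [add_smul, Finset.sum_add_distrib]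

omit [Fintype σ] in
theorem Gens.ev_def (γ : Gens hx G ι) (j : σ) (f : ι → MvPolynomial σ ℂ) :
    γ.ev j f = ∑ i, dehom hx j (f i) • γ.g i j := rfl

omit [Fintype σ] in
theorem Gens.ev_smul (γ : Gens hx G ι) (j : σ) (p : MvPolynomial σ ℂ)
    (f : ι → MvPolynomial σ ℂ) : γ.ev j (p • f) = dehom hx j p • γ.ev j f := by
  simp only [γ.ev_def, Pi.smul_apply, smul_eq_mul, map_mul, mul_smul, Finset.smul_sum]

theorem Gens.ev_pow (γ : Gens hx G ι) (j : σ) (n : ℕ) (f : ι → MvPolynomial σ ℂ) :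
    γ.ev j ((X j : MvPolynomial σ ℂ) ^ n • f) = γ.ev j f := by
  rw [γ.ev_smul, map_pow, dehom_self, one_pow, one_smul]

theorem Gens.ev_surj (hgen : Algebra.adjoin ℂ (Set.range x) = ⊤) (γ : Gens hx G ι) (j : σ) :
    Function.Surjective (γ.ev j) := fun s => by
  have hs : s ∈ Submodule.span Γ(Proj 𝒜, Proj.basicOpen 𝒜 (x j))
      (Set.range fun i => γ.g i j) := by rw [γ.span j]; trivial
  obtain ⟨c, rfl⟩ := (Submodule.mem_span_range_iff_exists_fun _).1 hs
  choose f hf using fun i => dehom_surj (hx := hx) hgen j (c i)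
  exact ⟨f, by simp only [γ.ev_def, hf]⟩

theorem Gens.ev_trans (γ : Gens hx G ι) {d : ℕ} {f : ι → MvPolynomial σ ℂ} (hf : f ∈ V σ ι d)
    (j l : σ) {U : (Proj 𝒜).Opens} (hj : U ≤ Proj.basicOpen 𝒜 (x j))
    (hl : U ≤ Proj.basicOpen 𝒜 (x l)) : mres G.obj hj (γ.ev j f) =
      rres hj (dehom hx j (X l ^ (d + γ.a))) • mres G.obj hl (γ.ev l f) := by
  simp only [γ.ev_def, map_sum, mres_smul, Finset.smul_sum]
  refine Finset.sum_congr rfl fun i _ => ?_
  rw [dehom_trans (mem_V.1 hf i) j l hj hl, γ.compat i j l U hj hl, ← mul_smul, ← mul_smul]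
  congr 1
  simp only [map_pow]
  ring

theorem Gens.ev_homog (γ : Gens hx G ι) (j : σ) {K : Sub σ ι} (hK : Graded K)
    {k : ι → MvPolynomial σ ℂ} (hk : k ∈ K) :
    ∃ D, ∀ e, D ≤ e → ∃ g ∈ V σ ι e, g ∈ K ∧ γ.ev j g = γ.ev j k := by
  obtain ⟨D, -, h2⟩ := sum_hc k
  refine ⟨D, fun d hd => ⟨∑ e ∈ Finset.range D, (X j : MvPolynomial σ ℂ) ^ (d - e) • hc e k,
    sum_mem fun e he => ?_, sum_mem fun e _ => K.smul_mem _ (hK k hk e), ?_⟩⟩
  · have := smul_mem_V ((isHomogeneous_X ℂ j).pow (d - e)) (hc_mem e k)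
    rwa [one_mul, Nat.sub_add_cancel (by simp at he; omega)] at this
  · conv_rhs => rw [← h2]
    simp only [map_sum, γ.ev_pow]

/-- The vectors mapped into a family of submodules. -/
def Gens.pre (γ : Gens hx G ι)
    (P : ∀ j, Submodule Γ(Proj 𝒜, Proj.basicOpen 𝒜 (x j)) Γ(G.obj, Proj.basicOpen 𝒜 (x j))) :
    Sub σ ι where
  carrier := {f | ∀ j, γ.ev j f ∈ P j}
  zero_mem' j := by rw [map_zero]; exact zero_mem _
  add_mem' h h' j := by rw [map_add]; exact add_mem (h j) (h' j)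
  smul_mem' p f h j := by rw [γ.ev_smul]; exact (P j).smul_mem _ (h j)

theorem Gens.pow_mem_pre (γ : Gens hx G ι) (P : CSub G fun j => Proj.basicOpen 𝒜 (x j)) {d : ℕ}
    {f : ι → MvPolynomial σ ℂ} (hf : f ∈ V σ ι d) (j : σ) (h : γ.ev j f ∈ P.1 j) :
    ∃ N : ℕ, (X j : MvPolynomial σ ℂ) ^ N • f ∈ γ.pre P.1 := by
  have key : ∀ l, ∃ N : ℕ, dehom hx l (X j) ^ N • γ.ev l f ∈ P.1 l := fun l => by
    obtain ⟨q, -⟩ := G.property.exists_quasicoherentData
    have : G.obj.IsQuasicoherent := q.isQuasicoherent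
    refine ss_loc (chart_aff hx l) (locAt_of_qcoh _ (chart_aff hx l)) (dehom hx l (X j))
      (inf_le_right : Proj.basicOpen 𝒜 (x j) ⊓ Proj.basicOpen 𝒜 (x l) ≤ _)
      ((inf_comm _ _).trans (chart_inf l j)) _ ?_
    rw [γ.ev_trans hf l j inf_le_right inf_le_left]
    exact Submodule.smul_mem _ _ (P.2 j l _ h)
  choose N hN using key
  refine ⟨∑ l, N l, fun l => ?_⟩
  obtain ⟨m, hm⟩ := Nat.exists_eq_add_of_le'
    (Finset.single_le_sum (f := N) (fun _ _ => Nat.zero_le _) (Finset.mem_univ l))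
  rw [γ.ev_smul, map_pow, hm, pow_add, mul_smul]
  exact (P.1 l).smul_mem _ (hN l)

/-- The image of a submodule on a chart. -/
def Gens.img (hgen : Algebra.adjoin ℂ (Set.range x) = ⊤) (γ : Gens hx G ι) (K : Sub σ ι) (j : σ) :
    Submodule Γ(Proj 𝒜, Proj.basicOpen 𝒜 (x j)) Γ(G.obj, Proj.basicOpen 𝒜 (x j)) where
  carrier := {s | ∃ k ∈ K, γ.ev j k = s}
  zero_mem' := ⟨0, zero_mem _, map_zero _⟩
  add_mem' := by
    rintro _ _ ⟨k, hk, rfl⟩ ⟨k', hk', rfl⟩
    exact ⟨k + k', add_mem hk hk', map_add _ _ _⟩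
  smul_mem' := by
    rintro r _ ⟨k, hk, rfl⟩
    obtain ⟨p, rfl⟩ := dehom_surj (hx := hx) hgen j r
    exact ⟨p • k, K.smul_mem _ hk, γ.ev_smul _ _ _⟩

theorem Gens.exists_sat (hgen : Algebra.adjoin ℂ (Set.range x) = ⊤) (γ : Gens hx G ι) :
    ∃ Θ : CSub G (fun j => Proj.basicOpen 𝒜 (x j)) ≃o SatSub (hom γ.ker), ∀ P d,
      ∀ f ∈ V σ ι d, f ∈ (Θ P).1 ↔ ∀ j, ∑ i, dehom hx j (f i) • γ.g i j ∈ P.1 j := by
  let Θ : CSub G (fun j => Proj.basicOpen 𝒜 (x j)) → SatSub (hom γ.ker) := fun P =>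
    ⟨hom (γ.pre P.1), fun f hf d j => by
      rw [γ.ev_def, hf d j]
      exact zero_mem _, hom_graded _, fun f hf d j => by
      have := hf j (1 + d) j
      rwa [hc_smul_add (isHomogeneous_X ℂ j), ← pow_one (X j), γ.ev_pow] at this⟩
  let Ψ : SatSub (hom γ.ker) → CSub G (fun j => Proj.basicOpen 𝒜 (x j)) := fun K =>
    ⟨γ.img hgen K.1, by
      rintro j l _ ⟨k, hk, rfl⟩
      obtain ⟨D, -, h2⟩ := sum_hc k
      rw [← h2, map_sum, map_sum]
      refine sum_mem fun e _ => ?_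
      rw [γ.ev_trans (hc_mem e k) j l inf_le_left inf_le_right]
      exact Submodule.smul_mem _ _
        (Submodule.subset_span ⟨_, ⟨_, K.2.2.1 k hk e, rfl⟩, rfl⟩)⟩
  have h1 : Function.LeftInverse Ψ Θ := fun P => by
    refine Subtype.ext (funext fun j => Submodule.ext fun s => ⟨?_, fun hs => ?_⟩)
    · rintro ⟨k, hk, rfl⟩
      exact hom_le _ hk j
    · obtain ⟨k, rfl⟩ := γ.ev_surj hgen j s
      obtain ⟨D, hD⟩ := γ.ev_homog j (K := ⊤) (fun _ _ _ => trivial) (k := k) trivial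
      obtain ⟨g, hg, -, e⟩ := hD D le_rfl
      obtain ⟨N, hN⟩ := γ.pow_mem_pre P hg j (e ▸ hs)
      exact ⟨_, (mem_hom_V (smul_mem_V ((isHomogeneous_X ℂ j).pow N) hg)).2 hN,
        (γ.ev_pow j N g).trans e⟩
  have h2 : Function.RightInverse Ψ Θ := fun K => by
    refine Subtype.ext (le_antisymm (fun f hf => mem_of_hc' fun d => ?_)
      (K.2.2.1.le_hom fun k hk j => ⟨k, hk, rfl⟩))
    have key : ∀ j, ∃ N : ℕ, (X j : MvPolynomial σ ℂ) ^ N • hc d f ∈ K.1 := fun j => by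
      obtain ⟨k, hk, e⟩ := hf d j
      obtain ⟨D, hD⟩ := γ.ev_homog j K.2.2.1 hk
      obtain ⟨g, hg, hgK, e'⟩ := hD (1 * D + d) (by omega)
      have hV := sub_mem (smul_mem_V ((isHomogeneous_X ℂ j).pow D) (hc_mem d f)) hg
      obtain ⟨N, hN⟩ := γ.pow_mem_pre ⟨fun _ => ⊥, fun j l s hs => by
        rw [(Submodule.mem_bot _).1 hs, map_zero]
        exact zero_mem _⟩ hV j (by
          rw [map_sub, γ.ev_pow, e', e, sub_self]
          exact zero_mem _)
      have hm := K.2.1 ((mem_hom_V (L := γ.ker)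
        (smul_mem_V ((isHomogeneous_X ℂ j).pow N) hV)).2 fun l => (Submodule.mem_bot _).1 (hN l))
      refine ⟨N + D, ?_⟩
      rw [smul_sub, ← mul_smul, ← pow_add] at hm
      exact (K.1.sub_mem_iff_left (K.1.smul_mem _ hgK)).1 hm
    choose N hN using key
    exact ss_down K.2.2.2 _ N _ rfl hN
  refine ⟨Equiv.toOrderIso ⟨Θ, Ψ, h1, h2⟩ (fun P P' h f hf d j => h j (hf d j))
    (fun K K' h j s hs => ?_), fun P d f hf => mem_hom_V hf⟩
  obtain ⟨k, hk, e⟩ := hs
  exact ⟨k, h hk, e⟩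

end Pool.Agent.Lib.MP_d4c0ca_ag.T
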