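import Pool.Agent.Lib.MP_d4c0ca_ag.T.Chart

/-! Every coherent sheaf on `Proj` is generated, on the standard charts, by finitely many
sections of a twist. -/

namespace Pool.Agent.Lib.MP_d4c0ca_ag.T

open CategoryTheory AlgebraicGeometry MvPolynomial
open Pool.Agent.Lib.MP_cd184e_ag.B

section abstract

variable {Y : Scheme.{0}} {σ : Type} [Fintype σ] {U : σ → Y.Opens} (u : ∀ j, σ → Γ(Y, U j))
  (M : Y.Modules) [M.IsQuasicoherent]

/-- A section on one chart extends to every chart after multiplication by a power. -/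
theorem gn_ext1 (aff : ∀ j, IsAffineOpen (U j)) (hinf : ∀ j l, U j ⊓ U l = Y.basicOpen (u j l))
    (j : σ) (s : Γ(M, U j)) : ∃ (n : ℕ) (t : ∀ l, Γ(M, U l)), ∀ l (W : Y.Opens) (hl : W ≤ U l)
      (hj : W ≤ U j), mres M hl (t l) = rres hl (u l j) ^ n • mres M hj s := by
  have h := fun l => (locAt_of_qcoh M (aff l)).ex (u l j) (U l ⊓ U j) inf_le_left (hinf l j)
    (mres M inf_le_right s)
  choose n t ht using h
  refine ⟨Finset.univ.sup n, fun l => u l j ^ (Finset.univ.sup n - n l) • t l, fun l W hl hj => ?_⟩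
  have e := congrArg (mres M (le_inf hl hj)) (ht l)
  rw [mres_mres, mres_smul, map_pow, rres_rres, mres_mres] at e
  rw [mres_smul, map_pow, e, ← mul_smul, ← pow_add,
    Nat.sub_add_cancel (Finset.le_sup (f := n) (Finset.mem_univ l))]

/-- A section on one chart extends to a compatible family on all charts. -/
theorem gn_ext (aff : ∀ j, IsAffineOpen (U j)) (h1 : ∀ j, u j j = 1)
    (hinf : ∀ j l, U j ⊓ U l = Y.basicOpen (u j l))
    (htr : ∀ j l m (W : Y.Opens) (hj : W ≤ U j) (hl : W ≤ U l),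
      rres hj (u j m) = rres hj (u j l) * rres hl (u l m))
    (j : σ) (s : Γ(M, U j)) : ∃ b : ℕ, ∀ a, b ≤ a → ∃ g : ∀ l, Γ(M, U l), g j = s ∧
      ∀ l m (W : Y.Opens) (hl : W ≤ U l) (hm : W ≤ U m),
        mres M hl (g l) = rres hl (u l m) ^ a • mres M hm (g m) := by
  obtain ⟨n, t, ht⟩ := gn_ext1 u M aff hinf j s
  have h : ∀ p : σ × σ, ∃ k : ℕ, rres (inf_le_left : U p.1 ⊓ U p.2 ≤ U p.1) (u p.1 j) ^ k •
      (mres M inf_le_left (t p.1) - rres (inf_le_left : U p.1 ⊓ U p.2 ≤ U p.1) (u p.1 p.2) ^ n •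
        mres M (inf_le_right : U p.1 ⊓ U p.2 ≤ U p.2) (t p.2)) = 0 := by
    rintro ⟨l, m⟩
    have ha : IsAffineOpen (U l ⊓ U m) := hinf l m ▸ (aff l).basicOpen _
    have hb := Y.basicOpen_le (rres (inf_le_left : U l ⊓ U m ≤ U l) (u l j))
    refine (locAt_of_qcoh M ha).un _ _ hb rfl _ ?_
    have hj : Y.basicOpen (rres (inf_le_left : U l ⊓ U m ≤ U l) (u l j)) ≤ U j := by
      rw [rres_def, Scheme.basicOpen_res, ← hinf]
      exact inf_le_right.trans inf_le_right
    rw [map_sub, mres_smul, map_pow, rres_rres, mres_mres, mres_mres, ht l _ _ hj, ht m _ _ hj,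
      ← mul_smul, ← mul_pow, ← htr, sub_self]
  choose k hk using h
  refine ⟨n + Finset.univ.sup k, fun a ha => ⟨fun l => u l j ^ (a - n) • t l, ?_, ?_⟩⟩
  · have e := ht j _ le_rfl le_rfl
    rw [mres_self, mres_self, rres_self, h1, one_pow, one_smul] at e
    simp only [h1, one_pow, one_smul, e]
  · intro l m W hl hm
    have e := congrArg (mres M (le_inf hl hm)) (hk (l, m))
    rw [mres_smul, map_sub, mres_smul, map_pow, map_pow, rres_rres, rres_rres, mres_mres,
      mres_mres, map_zero, smul_sub, sub_eq_zero] at e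
    have hk' : k (l, m) ≤ Finset.univ.sup k := Finset.le_sup (f := k) (Finset.mem_univ _)
    obtain ⟨c, rfl⟩ : ∃ c, a = n + (c + k (l, m)) := ⟨a - n - k (l, m), by omega⟩
    rw [Nat.add_sub_cancel_left, mres_smul, mres_smul, map_pow, map_pow, pow_add, mul_smul]
    dsimp only at e
    rw [e, htr l m j W hl hm, smul_smul, smul_smul, smul_smul]
    congr 1
    ring

/-- Finitely many compatible families that generate on every chart. -/
theorem gn_gens (aff : ∀ j, IsAffineOpen (U j)) (h1 : ∀ j, u j j = 1)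
    (hinf : ∀ j l, U j ⊓ U l = Y.basicOpen (u j l))
    (htr : ∀ j l m (W : Y.Opens) (hj : W ≤ U j) (hl : W ≤ U l),
      rres hj (u j m) = rres hj (u j l) * rres hl (u l m))
    (fin : ∀ j, Module.Finite Γ(Y, U j) Γ(M, U j)) :
    ∃ (r a : ℕ) (g : Fin r → ∀ l, Γ(M, U l)), (∀ i l m (W : Y.Opens) (hl : W ≤ U l)
      (hm : W ≤ U m), mres M hl (g i l) = rres hl (u l m) ^ a • mres M hm (g i m)) ∧
      ∀ j, Submodule.span Γ(Y, U j) (Set.range fun i => g i j) = ⊤ := by
  classical
  have h := fun j => Module.Finite.exists_fin (R := Γ(Y, U j)) (M := Γ(M, U j))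
  choose r s hs using h
  have h := fun p : Σ j, Fin (r j) => gn_ext u M aff h1 hinf htr p.1 (s p.1 p.2)
  choose b hb using h
  have h := fun p => hb p (Finset.univ.sup b) (Finset.le_sup (f := b) (Finset.mem_univ p))
  choose g hg hc using h
  let e := Fintype.equivFin (Σ j, Fin (r j))
  refine ⟨_, _, fun i => g (e.symm i), fun i => hc _, fun j => ?_⟩
  rw [eq_top_iff, ← hs j]
  refine Submodule.span_mono ?_
  rintro _ ⟨i, rfl⟩
  exact ⟨e ⟨j, i⟩, by simp only [Equiv.symm_apply_apply]; exact hg ⟨j, i⟩⟩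

end abstract

variable {S σ : Type} [CommRing S] [Algebra ℂ S] {𝒜 : ℕ → Submodule ℂ S} [GradedAlgebra 𝒜]
  {x : σ → S} [Fintype σ]

theorem exists_gens (hx : ∀ l, x l ∈ 𝒜 1) (G : CohCat (Proj 𝒜)) :
    ∃ r, Nonempty (Gens hx G (Fin r)) := by
  have hp : G.obj.IsFinitePresentation := G.property
  obtain ⟨q, -⟩ := SheafOfModules.IsFinitePresentation.exists_quasicoherentData G.obj
  have hq : G.obj.IsQuasicoherent := q.isQuasicoherent
  obtain ⟨r, a, g, hc, hs⟩ := gn_gens (U := fun j => Proj.basicOpen 𝒜 (x j))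
    (fun j l => dehom hx j (X l)) G.obj (chart_aff hx) (fun j => dehom_self j)
    (fun j l => chart_inf j l)
    (fun j l m W hj hl => by simpa using dehom_trans (isHomogeneous_X ℂ m) j l hj hl)
    (fun j => finite_of_fp G.obj (chart_aff hx j))
  exact ⟨r, ⟨⟨a, g, fun i j l W hj hl => by rw [map_pow, map_pow]; exact hc i j l W hj hl, hs⟩⟩⟩

end Pool.Agent.Lib.MP_d4c0ca_ag.T
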