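import Pool.Agent.Lib.MP_d4c0ca_ag.Grad

/-! Linear growth of the degree filtration in dimension at most one. -/

namespace Pool.Agent.Lib.MP_d4c0ca_ag.T

open MvPolynomial

theorem gw_dim (R S : Type) [CommRing R] [CommRing S] [Algebra R S] [Algebra.IsIntegral R S]
    [FaithfulSMul R S] : ringKrullDim R ≤ ringKrullDim S := by
  refine iSup_le fun l => ?_
  obtain ⟨P, hP, hl⟩ := Ideal.nonempty_primesOver (S := S) l.head.asIdeal
  obtain ⟨L, e, -⟩ := Ideal.exists_ltSeries_of_hasGoingUp l P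
  rw [← e]
  exact Order.LTSeries.length_le_krullDim L

/-- an algebra of dimension at most one is finite over one element -/
theorem gw_gen (B : Type) [CommRing B] [Algebra ℂ B] [Algebra.FiniteType ℂ B]
    (h : ringKrullDim B ≤ 1) : ∃ (t : B) (m : ℕ) (b : Fin m → B), ∀ y : B,
      ∃ q : Fin m → Polynomial ℂ, y = ∑ l, Polynomial.aeval t (q l) * b l := by
  rcases subsingleton_or_nontrivial B with hB | hB
  · exact ⟨0, 0, Fin.elim0, fun y => ⟨Fin.elim0, Subsingleton.elim _ _⟩⟩
  obtain ⟨s, g, inj, fin⟩ := exists_finite_inj_algHom_of_fg ℂ B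
  let _ : Algebra (MvPolynomial (Fin s) ℂ) B := g.toRingHom.toAlgebra
  have : Module.Finite (MvPolynomial (Fin s) ℂ) B := fin
  have : FaithfulSMul (MvPolynomial (Fin s) ℂ) B :=
    (faithfulSMul_iff_algebraMap_injective _ _).2 inj
  have hs : s ≤ 1 := by
    have := (gw_dim (MvPolynomial (Fin s) ℂ) B).trans h
    rw [MvPolynomial.ringKrullDim_of_isNoetherianRing, ringKrullDim_eq_zero_of_field] at this
    simp only [Nat.card_eq_fintype_card, Fintype.card_fin, zero_add] at this
    exact_mod_cast this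
  obtain ⟨m, b, hb⟩ := Module.Finite.exists_fin (R := MvPolynomial (Fin s) ℂ) (M := B)
  obtain ⟨t, ht⟩ : ∃ t : B, ∀ i, g (X i) = t := by
    by_cases h0 : 0 < s
    · exact ⟨g (X ⟨0, h0⟩), fun i => by rw [show i = ⟨0, h0⟩ from Fin.ext (by omega)]⟩
    · exact ⟨0, fun i => absurd i.pos h0⟩
  have key : ∀ p, ∃ q : Polynomial ℂ, g p = Polynomial.aeval t q := fun p => by
    induction p using MvPolynomial.induction_on with
    | C c => exact ⟨Polynomial.C c, by rw [Polynomial.aeval_C]; exact g.commutes c⟩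
    | add p p' hp hp' =>
      obtain ⟨q, e⟩ := hp
      obtain ⟨q', e'⟩ := hp'
      exact ⟨q + q', by rw [map_add, map_add, e, e']⟩
    | mul_X p i hp =>
      obtain ⟨q, e⟩ := hp
      exact ⟨q * Polynomial.X, by rw [map_mul, map_mul, e, ht, Polynomial.aeval_X]⟩
  choose q hq using key
  refine ⟨t, m, b, fun y => ?_⟩
  obtain ⟨c, hc⟩ := (Submodule.mem_span_range_iff_exists_fun _).1 (hb ▸ Submodule.mem_top (x := y))
  exact ⟨fun l => q (c l), hc.symm.trans (Finset.sum_congr rfl fun l _ => by rw [← hq]; rfl)⟩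

theorem gw_lin {σ : Type} [Fintype σ] (J : Ideal (MvPolynomial σ ℂ))
    (h : ringKrullDim (MvPolynomial σ ℂ ⧸ J) ≤ 1) :
    ∃ C : ℕ, ∀ d, ∃ W : Submodule ℂ (MvPolynomial σ ℂ ⧸ J), Module.Finite ℂ W ∧
      Module.finrank ℂ W ≤ C * (d + 1) ∧
      ∀ f : MvPolynomial σ ℂ, f.IsHomogeneous d → Ideal.Quotient.mk J f ∈ W := by
  classical
  obtain ⟨t, m, b, hb⟩ := gw_gen _ h
  let W : ℕ → Submodule ℂ (MvPolynomial σ ℂ ⧸ J) := fun k =>
    Submodule.span ℂ (Set.range fun p : Fin (k + 1) × Fin m => t ^ (p.1 : ℕ) * b p.2)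
  have lev : ∀ y, ∃ N, ∀ i k, i + N ≤ k → t ^ i * y ∈ W k := by
    have one : ∀ (q : Polynomial ℂ) (l : Fin m), ∀ i k, i + q.natDegree ≤ k →
        t ^ i * (Polynomial.aeval t q * b l) ∈ W k := fun q l i k hk => by
      rw [Polynomial.aeval_eq_sum_range, Finset.sum_mul, Finset.mul_sum]
      refine Submodule.sum_mem _ fun e he => ?_
      rw [smul_mul_assoc, mul_smul_comm, ← mul_assoc, ← pow_add]
      have := Finset.mem_range.1 he
      exact Submodule.smul_mem _ _ (Submodule.subset_span ⟨(⟨i + e, by omega⟩, l), rfl⟩)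
    intro y
    obtain ⟨q, rfl⟩ := hb y
    refine ⟨Finset.univ.sup fun l => (q l).natDegree, fun i k hk => ?_⟩
    rw [Finset.mul_sum]
    exact Submodule.sum_mem _ fun l _ => one _ l i k (le_trans (Nat.add_le_add_left
      (Finset.le_sup (f := fun l => (q l).natDegree) (Finset.mem_univ l)) i) hk)
  choose N hN using lev
  let M : ℕ := N 1 + Finset.univ.sup fun p : σ × Fin m => N (Ideal.Quotient.mk J (X p.1) * b p.2)
  have step : ∀ (s : σ) (k : ℕ), ∀ w ∈ W k, Ideal.Quotient.mk J (X s) * w ∈ W (k + M) := by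
    intro s k w hw
    induction hw using Submodule.span_induction with
    | mem x hx =>
      obtain ⟨p, rfl⟩ := hx
      have h1 := Finset.le_sup (f := fun p : σ × Fin m =>
        N (Ideal.Quotient.mk J (X p.1) * b p.2)) (Finset.mem_univ (s, p.2))
      have h2 := p.1.isLt
      rw [mul_left_comm]
      exact hN _ _ _ (by simp only [M] at h1 ⊢; omega)
    | zero => rw [mul_zero]; exact zero_mem _
    | add x y _ _ hx hy => rw [mul_add]; exact add_mem hx hy
    | smul c x _ hx => rw [mul_smul_comm]; exact Submodule.smul_mem _ _ hx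
  refine ⟨m * (M + 1), fun d => ⟨W (M * (d + 1)), Module.Finite.span_of_finite _
    (Set.finite_range _), (finrank_range_le_card _).trans ?_, ?_⟩⟩
  · simp only [Fintype.card_prod, Fintype.card_fin]
    nlinarith [Nat.zero_le (m * d)]
  · induction d with
    | zero =>
      intro f hf
      rw [← totalDegree_zero_iff_isHomogeneous, totalDegree_eq_zero_iff_eq_C] at hf
      have : Ideal.Quotient.mk J f = coeff 0 f • (t ^ 0 * 1) := by
        rw [pow_zero, mul_one, ← Algebra.algebraMap_eq_smul_one]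
        exact congrArg _ hf
      rw [this]
      exact Submodule.smul_mem _ _ (hN 1 0 _ (by simp only [M]; omega))
    | succ d ih =>
      intro f hf
      obtain ⟨u, hu, e⟩ := V_succ (ι := Unit) (f := fun _ => f) (mem_V.2 fun _ => hf)
      have e' : f = ∑ s, X s * u s () := by simpa using congrFun e ()
      rw [e', map_sum, Nat.mul_succ]
      exact Submodule.sum_mem _ fun s _ => by
        rw [map_mul]; exact step s _ _ (ih _ (mem_V.1 (hu s) ()))

theorem gw_rank {V A B : Type} [AddCommGroup V] [AddCommGroup A] [AddCommGroup B] [Module ℂ V]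
    [Module ℂ A] [Module ℂ B] (W : Submodule ℂ V) [Module.Finite ℂ W] (f : V →ₗ[ℂ] A)
    (g : W →ₗ[ℂ] B) [Module.Finite ℂ B] (h : ∀ v : W, g v = 0 → f v = 0) :
    Module.finrank ℂ (W.map f) ≤ Module.finrank ℂ B := by
  have h1 := LinearMap.finrank_range_add_finrank_ker (f.domRestrict W)
  have h2 := LinearMap.finrank_range_add_finrank_ker g
  have h3 : Module.finrank ℂ (LinearMap.ker g) ≤
      Module.finrank ℂ (LinearMap.ker (f.domRestrict W)) := Submodule.finrank_mono h
  have h4 := Submodule.finrank_le (LinearMap.range g)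
  rw [LinearMap.range_domRestrict] at h1
  omega

/-- the Hilbert function of a module killed chart by chart by ideals of dimension at most one -/
theorem gw_hilb {σ ι κ : Type} [Fintype σ] [Fintype ι] [Fintype κ]
    (J : κ → Ideal (MvPolynomial σ ℂ)) (h : ∀ j, ringKrullDim (MvPolynomial σ ℂ ⧸ J j) ≤ 1)
    (L : Sub σ ι) (hL : ∀ f : ι → MvPolynomial σ ℂ, (∀ j i, f i ∈ J j) → f ∈ L) :
    ∃ C : ℕ, ∀ d, hilb (hom L) d ≤ C * (d + 1) := by
  choose C hC using fun j => gw_lin (J j) (h j)
  refine ⟨∑ j, Fintype.card ι * C j, fun d => ?_⟩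
  choose W fW rW mW using fun j => hC j d
  let g : V σ ι d →ₗ[ℂ] (∀ j, ι → W j) := LinearMap.pi fun j => LinearMap.pi fun i =>
    LinearMap.codRestrict (W j) ((Ideal.Quotient.mkₐ ℂ (J j)).toLinearMap ∘ₗ
      LinearMap.proj i ∘ₗ (V σ ι d).subtype) fun v => mW j _ (mem_V.1 v.2 i)
  refine (gw_rank (B := ∀ j, ι → W j) (V σ ι d) ((hom L).restrictScalars ℂ).mkQ g
    fun v hv => ?_).trans ?_
  · refine (Submodule.Quotient.mk_eq_zero _).2 ((mem_hom_V v.2).2 (hL _ fun j i => ?_))
    exact Ideal.Quotient.eq_zero_iff_mem.1 (congrArg Subtype.val (congrFun (congrFun hv j) i))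
  · have := fun j => Module.Free.of_divisionRing ℂ (ι → W j)
    have := fun j => Module.Free.of_divisionRing ℂ (W j)
    rw [Module.finrank_pi_fintype, Finset.sum_mul]
    refine Finset.sum_le_sum fun j _ => ?_
    rw [Module.finrank_pi_fintype, Finset.sum_const, Finset.card_univ, smul_eq_mul, mul_assoc]
    exact Nat.mul_le_mul_left _ (rW j)

end Pool.Agent.Lib.MP_d4c0ca_ag.T
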