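import Pool.Agent.Lib.MP_d4c0ca_ag.T.Chart
import Pool.Agent.Lib.MP_d4c0ca_ag.T.GrowA

/-! A coherent sheaf with support of dimension at most one has a linearly bounded Hilbert
function. -/

namespace Pool.Agent.Lib.MP_d4c0ca_ag.T

open CategoryTheory AlgebraicGeometry MvPolynomial
open Pool.Agent.Lib.MP_cd184e_ag.B

variable {S σ ι : Type} [CommRing S] [Algebra ℂ S] {𝒜 : ℕ → Submodule ℂ S} [GradedAlgebra 𝒜]
  {x : σ → S} {hx : ∀ l, x l ∈ 𝒜 1} {G : CohCat (Proj 𝒜)} [Fintype ι] [Fintype σ]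

theorem gw_comap {P R : Type} [CommRing P] [CommRing R] (f : P →+* R) (hf : Function.Surjective f)
    (I : Ideal R) : ringKrullDim (P ⧸ I.comap f) = ringKrullDim (R ⧸ I) :=
  ringKrullDim_eq_of_ringEquiv (RingEquiv.ofBijective (Ideal.quotientMap I f le_rfl)
    ⟨Ideal.quotientMap_injective, Ideal.quotientMap_surjective hf⟩)

theorem Gens.hilb_le (hgen : Algebra.adjoin ℂ (Set.range x) = ⊤) (γ : Gens hx G ι)
    (h : ∀ j, ringKrullDim (Γ(Proj 𝒜, Proj.basicOpen 𝒜 (x j)) ⧸ Module.annihilator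
      Γ(Proj 𝒜, Proj.basicOpen 𝒜 (x j)) Γ(G.obj, Proj.basicOpen 𝒜 (x j))) ≤ 1) :
    ∃ C : ℕ, ∀ d, hilb (hom γ.ker) d ≤ C * (d + 1) :=
  gw_hilb _ (fun j => (gw_comap (dehom hx j) (dehom_surj hgen j) _).trans_le (h j)) _
    fun _ hf j => Finset.sum_eq_zero fun i _ => Module.mem_annihilator.1 (hf j i) _

end Pool.Agent.Lib.MP_d4c0ca_ag.T
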