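import Pool.Agent.Lib.MP_d4c0ca_ag.T.Sub

/-! The length of a quotient is the constant value of its Hilbert function. -/

namespace Pool.Agent.Lib.MP_d4c0ca_ag.T

open MvPolynomial Module

theorem len_simple {A N : Type} [CommRing A] [Algebra ℂ A] [Algebra.FiniteType ℂ A]
    [AddCommGroup N] [Module A N] [Module ℂ N] [IsScalarTower ℂ A N] [IsSimpleModule A N] :
    Module.length ℂ N = 1 := by
  obtain ⟨I, hI, ⟨e⟩⟩ := isSimpleModule_iff_quot_maximal.1 ‹IsSimpleModule A N›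
  let := Ideal.Quotient.field I
  have := finite_of_finite_type_of_isJacobsonRing ℂ (A ⧸ I)
  have h : Function.Bijective (algebraMap ℂ (A ⧸ I)) :=
    IsAlgClosed.algebraMap_bijective_of_isIntegral
  rw [(e.restrictScalars ℂ).length_eq, Module.length_eq_of_surjective (R := A ⧸ I) h.2]
  exact Module.length_eq_one _ _

theorem len_eq {A : Type} [CommRing A] [Algebra ℂ A] [Algebra.FiniteType ℂ A] {N : Type}
    [AddCommGroup N] [Module A N] (h : IsFiniteLength A N) :
    ∀ [Module ℂ N] [IsScalarTower ℂ A N], Module.length ℂ N = Module.length A N := by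
  induction h with
  | of_subsingleton => intros; simp
  | @of_simple_quotient N _ _ P _ _ ih =>
    intro _ _
    rw [Module.length_eq_add_of_exact P.subtype P.mkQ P.subtype_injective P.mkQ_surjective
      (LinearMap.exact_subtype_mkQ P), Module.length_eq_add_of_exact (P.subtype.restrictScalars ℂ)
      (P.mkQ.restrictScalars ℂ) P.subtype_injective P.mkQ_surjective
      (LinearMap.exact_subtype_mkQ P), ih, len_simple (A := A), Module.length_eq_one A (N ⧸ P)]

variable {σ ι : Type} [Fintype ι] [Fintype σ] {M : Sub σ ι}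

omit [Fintype ι] in
theorem len_Q {L : Sub σ ι} (h : Order.coheight L ≠ ⊤) :
    Module.Finite ℂ (Q L) ∧ (finrank ℂ (Q L) : ℕ∞) = Order.coheight L := by
  rw [← Module.length_quotient] at h ⊢
  have h1 := (Submodule.Quotient.restrictScalarsEquiv ℂ L).length_eq.trans
    (len_eq (Module.length_ne_top_iff.1 h))
  have := (isFiniteLength_iff_isNoetherian_isArtinian.1
    (Module.length_ne_top_iff.1 (h1 ▸ h : Module.length ℂ (Q L) ≠ ⊤))).1
  exact ⟨inferInstance, by rw [← h1, Module.length_eq_finrank]⟩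

theorem len_sat {L : Sub σ ι} {ℓ : MvPolynomial σ ℂ} (h : Aff ℓ L) (hℓ : ℓ.IsHomogeneous 1) (f)
    (hf : ∀ s : σ, (X s : MvPolynomial σ ℂ) • f ∈ hom L) : f ∈ hom L := by
  refine nzd_hom hℓ (fun f => h.iff.1) f ?_
  obtain ⟨c, rfl⟩ := lin_eq hℓ
  rw [Finset.sum_smul]
  exact sum_mem fun s _ => smul_assoc (c s) (X s : MvPolynomial σ ℂ) f ▸ csmul_mem _ _ (hf s)

theorem len_lower (K : SatSub M) {L : Sub σ ι} {ℓ : MvPolynomial σ ℂ} (h : Aff ℓ L)
    (hℓ : ℓ.IsHomogeneous 1) (e : hom L = K.1) : Order.coheight L ≤ Order.coheight K := by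
  refine Order.coheight_le fun p hp => ?_
  have h1 : ∀ i, L ≤ p i := fun i => hp ▸ p.head_le i
  have h2 : ∀ i, Aff ℓ (p i) := fun i f => h1 i (h f)
  have h3 : ∀ {A B : Sub σ ι}, A ≤ B → hom A ≤ hom B := fun h _ hf d => h (hf d)
  let q : LTSeries (SatSub M) :=
    { length := p.length
      toFun := fun i => ⟨hom (p i), (K.2.1.trans e.ge).trans (h3 (h1 i)), hom_graded _,
        len_sat (h2 i) hℓ⟩
      step := fun i => lt_of_le_not_ge (h3 (p.step i).le) fun h' =>
        (p.step i).not_ge (Aff.eq_of_hom (h2 _) (h2 _) hℓ h') }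
  exact Order.length_le_coheight (p := q) (e.ge.trans (h3 (h1 0)))

theorem len_lt {K K' : SatSub M} {n : ℕ} (h : K.1 ∈ QuotPts M n) (hl : K < K') :
    ∃ m < n, K'.1 ∈ QuotPts M m := by
  obtain ⟨ℓ, hℓ, h1⟩ := exists_nzd (fun _ : Unit => K'.1) fun _ => K'.2.2.2
  obtain ⟨L', a1, a2⟩ := exists_aff K'.2.2.1 hℓ (h1 ())
  obtain ⟨ℓ0, L, b0, b1, b2⟩ := exists_AQ' h
  -- the affine quotient of `K'` is finite dimensional
  have hb : ∀ d, finrank ℂ ((V σ ι (n + d)).map (cl L')) ≤ n := fun d => by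
    have c1 := hilb_anti (show K.1 ≤ K'.1 from hl.le) (n + d)
    rw [← a2, ← b2, hilb_congr fun f hf => mem_hom_V hf, hilb_congr fun f hf => mem_hom_V (L := L) hf,
      hilb, hilb, b1.top b0 (Nat.le_add_right n d), finrank_top, b1.2.2.2] at c1
    exact c1
  obtain ⟨d, hd⟩ : ∃ d, ∀ e, finrank ℂ ((V σ ι (n + e)).map (cl L')) ≤
      finrank ℂ ((V σ ι (n + d)).map (cl L')) := by
    obtain ⟨_, ⟨d, rfl⟩, hd⟩ := Set.Finite.exists_maximal
      ((Set.finite_Iic n).subset (t := Set.range fun d => finrank ℂ ((V σ ι (n + d)).map (cl L')))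
        (by rintro _ ⟨d, rfl⟩; exact hb d)) ⟨_, 0, rfl⟩
    exact ⟨d, fun e => (le_total _ _).elim id fun h => hd ⟨e, rfl⟩ h⟩
  have a3 := W_top a1 hℓ (d := n + d) fun k hk => by
    obtain ⟨k, rfl⟩ := Nat.exists_eq_add_of_le ((Nat.le_add_right n d).trans hk)
    exact (Submodule.eq_of_le_of_finrank_le (W_mono a1 hℓ hk) (hd k)).ge
  have a4 : Module.Finite ℂ (Q L') :=
    Module.finite_def.2 (a3 ▸ (Module.Finite.iff_fg.1 (V_finite (n + d))).map _)
  have a5 : AQ K'.1 ℓ (finrank ℂ (Q L')) L' := ⟨a2.ge.trans (hom_le _), a1, a4, rfl⟩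
  have a6 := a5.quot hℓ K'.2.2.1
  rw [a2] at a6
  have a7 : finrank ℂ (Q L') ≤ n := by
    have := hb d
    rwa [a3, finrank_top] at this
  have a8 : K'.1 ∈ QuotPts M (finrank ℂ (Q L')) := ⟨K'.2.1, a6.2⟩
  refine ⟨_, a7.lt_of_ne fun e => hl.ne (Subtype.ext ?_), a8⟩
  rw [e] at a8 a5
  refine quot_ext h a8 fun f hf => ⟨fun h => hl.le h, fun hf' => ?_⟩
  -- the two quotients have the same dimension in degree `n + 1`
  let φ := Submodule.factor (show K.1.restrictScalars ℂ ≤ K'.1.restrictScalars ℂ from hl.le)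
  have c1 := LinearMap.finrank_range_add_finrank_ker
    (φ.domRestrict ((V σ ι (n + 1)).map (cl K.1)))
  rw [LinearMap.range_domRestrict, ← Submodule.map_comp, Submodule.factor_comp_mk] at c1
  have c2 : hilb K.1 (n + 1) = n := by
    rw [← b2, hilb_congr fun f hf => mem_hom_V hf, hilb, b1.top b0 n.le_succ, finrank_top, b1.2.2.2]
  have c3 : hilb K'.1 (n + 1) = n := by
    rw [← a2, hilb_congr fun f hf => mem_hom_V hf, hilb, a5.top hℓ n.le_succ, finrank_top, e]
  unfold hilb at c2 c3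
  rw [c2, c3] at c1
  have c4 := Submodule.finrank_eq_zero.1 (Nat.add_eq_left.1 c1)
  have c5 := (Submodule.eq_bot_iff _).1 c4 ⟨cl K.1 f, f, hf, rfl⟩ (cl_zero.2 hf')
  exact cl_zero.1 (congrArg Subtype.val c5)

theorem len_upper (n : ℕ) : ∀ K : SatSub M, K.1 ∈ QuotPts M n → Order.coheight K ≤ n := by
  induction n using Nat.strong_induction_on with
  | _ n ih =>
    refine fun K h => Order.coheight_le_coe_iff.2 fun K' hl => ?_
    obtain ⟨m, h1, h2⟩ := len_lt h hl
    exact (ih m h1 K' h2).trans_lt (by exact_mod_cast h1)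

theorem coheight_iff {M : Sub σ ι} (K : SatSub M) (n : ℕ) :
    Order.coheight K = n ↔ K.1 ∈ QuotPts M n := by
  constructor
  · intro h
    obtain ⟨ℓ, hℓ, h1⟩ := exists_nzd (fun _ : Unit => K.1) fun _ => K.2.2.2
    obtain ⟨L, a1, a2⟩ := exists_aff K.2.2.1 hℓ (h1 ())
    have a3 := (len_lower K a1 hℓ a2).trans h.le
    obtain ⟨a4, a5⟩ := len_Q (ne_top_of_le_ne_top (ENat.natCast_ne_top n) a3)
    have a6 := AQ.quot ⟨a2.ge.trans (hom_le _), a1, a4, rfl⟩ hℓ K.2.2.1
    rw [a2] at a6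
    have a7 : K.1 ∈ QuotPts M (finrank ℂ (Q L)) := ⟨K.2.1, a6.2⟩
    have a8 := h.ge.trans (len_upper _ K a7)
    rwa [le_antisymm (by exact_mod_cast a8) (by exact_mod_cast a5.le.trans a3 : finrank ℂ (Q L) ≤ n)]
  · intro h
    obtain ⟨ℓ, L, hℓ, h1, e⟩ := exists_AQ' h
    have a1 := len_upper n K h
    have a2 := len_lower K h1.2.1 hℓ e
    have a3 := (len_Q (ne_top_of_le_ne_top (ENat.natCast_ne_top n) (a2.trans a1))).2
    rw [h1.2.2.2] at a3
    exact le_antisymm a1 (a3.le.trans a2)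

end Pool.Agent.Lib.MP_d4c0ca_ag.T
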