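import Mathlib

/-! The first Ext module of a torsion free module into a regular domain is supported in
codimension two. -/

namespace Pool.Agent.Lib.MP_d4c0ca_ag.T

open CategoryTheory Abelian

variable {R : Type} [CommRing R] {F : Type} [AddCommGroup F] [Module R F]

theorem ext_kill_of_factor {k : ℕ} (a : F →ₗ[R] (Fin k → R)) (b : (Fin k → R) →ₗ[R] F) {u : R}
    (h : b ∘ₗ a = u • LinearMap.id) (N : ModuleCat.{0} R) (e : Ext (ModuleCat.of R F) N 1) :
    u • e = 0 := by
  have h1 : (ModuleCat.ofHom a ≫ ModuleCat.ofHom b : ModuleCat.of R F ⟶ ModuleCat.of R F) =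
      u • 𝟙 _ := ModuleCat.hom_ext (by simpa using h)
  have h2 : (Ext.mk₀ (ModuleCat.ofHom b)).comp e (zero_add 1) = 0 := Ext.eq_zero_of_projective _
  calc u • e = (Ext.mk₀ (u • 𝟙 _)).comp e (zero_add 1) := by
        rw [Ext.mk₀_smul, Ext.smul_comp, Ext.mk₀_id_comp]
    _ = (Ext.mk₀ (ModuleCat.ofHom a)).comp ((Ext.mk₀ (ModuleCat.ofHom b)).comp e (zero_add 1))
        (zero_add 1) := by rw [← h1, Ext.mk₀_comp_mk₀_assoc]
    _ = 0 := by rw [h2, Ext.comp_zero]

theorem exists_factor [Module.FinitePresentation R F] (S : Submonoid R)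
    [Module.Projective (Localization S) (LocalizedModule S F)] :
    ∃ (k : ℕ) (a : F →ₗ[R] (Fin k → R)) (b : (Fin k → R) →ₗ[R] F) (u : S),
      b ∘ₗ a = (u : R) • LinearMap.id := by
  obtain ⟨k, b, hb⟩ := Module.Finite.exists_fin' R F
  obtain ⟨s, hs⟩ := Module.projective_lifting_property (LocalizedModule.map S b) LinearMap.id
    (LocalizedModule.map_surjective S b hb)
  obtain ⟨a, t, ha⟩ := Module.FinitePresentation.exists_lift_of_isLocalizedModule S
    (LocalizedModule.mkLinearMap S (Fin k → R))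
    (s.restrictScalars R ∘ₗ LocalizedModule.mkLinearMap S F)
  obtain ⟨v, hv⟩ := Module.Finite.exists_smul_of_comp_eq_of_isLocalizedModule S
    (LocalizedModule.mkLinearMap S F) (b ∘ₗ a) ((t : R) • LinearMap.id) (LinearMap.ext fun x => by
      have h1 : LocalizedModule.mk (a x) 1 = (t : R) • s (LocalizedModule.mk x 1) :=
        LinearMap.congr_fun ha x
      have h2 : LocalizedModule.map S b (s (LocalizedModule.mk x 1)) = LocalizedModule.mk x 1 :=
        LinearMap.congr_fun hs _
      show LocalizedModule.mk (b (a x)) 1 = LocalizedModule.mkLinearMap S F ((t : R) • x)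
      rw [← LocalizedModule.map_mk, h1, LinearMap.map_smul_of_tower, h2, map_smul]
      rfl)
  refine ⟨k, (v : R) • a, b, v * t, ?_⟩
  rw [LinearMap.comp_smul, Submonoid.coe_mul, mul_smul]
  exact hv

theorem pid_of_height [IsDomain R] [IsRegularRing R] (p : Ideal R) [p.IsPrime]
    (hp : p.height ≤ 1) : IsPrincipalIdealRing (Localization.AtPrime p) := by
  refine ((tfae_of_isNoetherianRing_of_isLocalRing_of_isDomain
    (Localization.AtPrime p)).out 0 5).2 ?_
  have := (IsRegularLocalRing.iff_finrank_cotangentSpace (Localization.AtPrime p)).1 inferInstance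
  rw [IsLocalization.AtPrime.ringKrullDim_eq_height p] at this
  have h : ((Module.finrank (IsLocalRing.ResidueField (Localization.AtPrime p))
      (IsLocalRing.CotangentSpace (Localization.AtPrime p)) : ℕ) : ℕ∞) ≤ 1 :=
    (WithBot.coe_injective this).trans_le hp
  exact_mod_cast h

theorem ext_kill [IsDomain R] [IsRegularRing R] [Module.Finite R F] [Module.IsTorsionFree R F]
    (p : Ideal R) [p.IsPrime] (hp : p.height ≤ 1) (N : ModuleCat.{0} R) :
    ∃ u ∉ p, ∀ e : Ext (ModuleCat.of R F) N 1, u • e = 0 := by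
  have := pid_of_height p hp
  have := Module.finitePresentation_of_finite R F
  obtain ⟨k, a, b, u, h⟩ := exists_factor (F := F) p.primeCompl
  exact ⟨u, u.2, ext_kill_of_factor a b h N⟩

/-- no chain of three primes contains the annihilator -/
theorem ext_chain [IsDomain R] [IsRegularRing R] [Module.Finite R F] [Module.IsTorsionFree R F]
    (hR : ringKrullDim R ≤ 3) (N : ModuleCat.{0} R) {p q r : Ideal R} [p.IsPrime] [q.IsPrime]
    [r.IsPrime] (h1 : p < q) (h2 : q < r) :
    ∃ u ∉ p, ∀ e : Ext (ModuleCat.of R F) N 1, u • e = 0 := by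
  refine ext_kill p ?_ N
  have a1 := Ideal.height_add_one_le_of_lt_of_isPrime h1
  have a2 := Ideal.height_add_one_le_of_lt_of_isPrime h2
  have a3 : r.height ≤ 3 := by
    have := (Ideal.height_le_ringKrullDim_of_ne_top (Ideal.IsPrime.ne_top ‹r.IsPrime›)).trans hR
    exact WithBot.coe_le_coe.1 this
  have a4 : p.height + 1 + 1 ≤ 1 + 1 + 1 :=
    ((add_le_add_left a1 1).trans a2).trans (a3.trans (by norm_num))
  rwa [ENat.add_le_add_iff_right (by simp), ENat.add_le_add_iff_right (by simp)] at a4

end Pool.Agent.Lib.MP_d4c0ca_ag.T
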