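import Pool.Agent.Lib.MP_d4c0ca_ag.T.Sub
import Pool.Agent.Lib.MP_d4c0ca_ag.T.ExtK

/-! The first Ext sheaf of a torsion free sheaf on a smooth threefold has support of dimension
at most one. -/

namespace Pool.Agent.Lib.MP_d4c0ca_ag.T

open CategoryTheory AlgebraicGeometry IsLocalRing
open Pool.Agent.Lib.MP_cd184e_ag.B

theorem supp_etale {P B : Type} [CommRing P] [CommRing B] [IsRegularRing P] [Algebra P B]
    [Algebra.Etale P B] (q : Ideal B) [q.IsPrime] :
    IsRegularLocalRing (Localization.AtPrime q) ∧ (q.height : WithBot ℕ∞) ≤ ringKrullDim P := by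
  have := Algebra.FiniteType.isNoetherianRing P B
  let p := q.under P
  let := Localization.AtPrime.algebraOfLiesOver p q
  have h1 := ((Algebra.isUnramifiedAt_iff_map_eq P p q).1 inferInstance).2
  have h2 : (maximalIdeal (Localization.AtPrime p)).map
      (algebraMap _ (Localization.AtPrime q)) = maximalIdeal _ := by
    rw [← Localization.AtPrime.map_eq_maximalIdeal, Ideal.map_map, ← IsScalarTower.algebraMap_eq, h1]
  have h3 := Ideal.spanFinrank_map_le_of_fg (algebraMap _ (Localization.AtPrime q))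
    (IsNoetherian.noetherian (maximalIdeal (Localization.AtPrime p)))
  have h4 := (isRegularLocalRing_iff (Localization.AtPrime p)).1 inferInstance
  rw [IsLocalization.AtPrime.ringKrullDim_eq_height p] at h4
  have h5 : (((maximalIdeal (Localization.AtPrime q)).spanFinrank : ℕ) : WithBot ℕ∞) ≤ p.height := by
    rw [← h4, ← h2]; exact_mod_cast h3
  have h6 : p.height ≤ q.height :=
    (Ideal.height_eq_height_add_of_liesOver_of_hasGoingDown p q).symm ▸ le_self_add
  refine ⟨.of_spanFinrank_maximalIdeal_le _ ?_, ?_⟩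
  · rw [IsLocalization.AtPrime.ringKrullDim_eq_height q]
    exact h5.trans (WithBot.coe_le_coe.2 h6)
  · rw [← IsLocalization.AtPrime.ringKrullDim_eq_height q (Localization.AtPrime q)]
    exact ((ringKrullDim_le_spanFinrank_maximalIdeal _).trans h5).trans
      (Ideal.height_le_ringKrullDim_of_ne_top (Ideal.IsPrime.ne_top inferInstance))

theorem supp_loc {k A : Type} [CommRing k] (hk : IsField k) [CommRing A] {φ : k →+* A} {n : ℕ}
    (h : RingHom.Locally (RingHom.IsStandardSmoothOfRelativeDimension n) φ) (q : Ideal A)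
    [q.IsPrime] :
    IsRegularLocalRing (Localization.AtPrime q) ∧ (q.height : WithBot ℕ∞) ≤ n := by
  let := hk.toField
  obtain ⟨s, h1, h2⟩ := h
  obtain ⟨t, ht, hq⟩ : ∃ t ∈ s, t ∉ q := by
    by_contra! H
    exact Ideal.IsPrime.ne_top ‹_› (top_le_iff.1 (h1 ▸ Ideal.span_le.2 H))
  obtain ⟨g, -, hg⟩ := (h2 t ht).exists_etale_mvPolynomial
  algebraize [g]
  have hd : Disjoint (Submonoid.powers t : Set A) q :=
    (Ideal.disjoint_powers_iff_notMem_of_isPrime t).2 hq
  have := IsLocalization.isPrime_of_isPrime_disjoint (Submonoid.powers t) (Localization.Away t) q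
    ‹_› hd
  have e := IsLocalization.under_map_of_isPrime_disjoint (Submonoid.powers t) (Localization.Away t)
    ‹q.IsPrime› hd
  obtain ⟨a1, a2⟩ := supp_etale (P := MvPolynomial (Fin n) k)
    (q.map (algebraMap A (Localization.Away t)))
  have a3 := IsLocalization.isLocalization_isLocalization_atPrime_isLocalization
    (Submonoid.powers t) (Localization.AtPrime (q.map (algebraMap A (Localization.Away t))))
    (q.map (algebraMap A (Localization.Away t)))
  have a4 : IsLocalization.AtPrime
      (Localization.AtPrime (q.map (algebraMap A (Localization.Away t)))) q := by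
    convert a3 using 2; exact e.symm
  refine ⟨.of_ringEquiv (IsLocalization.algEquiv q.primeCompl
    (Localization.AtPrime (q.map (algebraMap A (Localization.Away t)))) _).toRingEquiv, ?_⟩
  rw [← IsLocalization.AtPrime.ringKrullDim_eq_height q
    (Localization.AtPrime (q.map (algebraMap A (Localization.Away t)))),
    IsLocalization.AtPrime.ringKrullDim_eq_height (q.map (algebraMap A (Localization.Away t)))]
  simpa [MvPolynomial.ringKrullDim_of_isNoetherianRing, ringKrullDim_eq_zero_of_field] using a2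

theorem supp_reg {Y : Scheme.{0}} (f : Y ⟶ Spec (.of ℂ)) {n : ℕ} [SmoothOfRelativeDimension n f]
    {U : Y.Opens} (hU : IsAffineOpen U) : IsRegularRing Γ(Y, U) ∧ ringKrullDim Γ(Y, U) ≤ n := by
  have hk : IsField Γ(Spec (.of ℂ), ⊤) :=
    (Scheme.ΓSpecIso (.of ℂ)).commRingCatIsoToRingEquiv.toMulEquiv.isField (Field.toIsField ℂ)
  have h := HasRingHomProperty.appLE (@SmoothOfRelativeDimension n) f ‹_›
    ⟨⊤, isAffineOpen_top _⟩ ⟨U, hU⟩ le_top
  have := SmoothOfRelativeDimension.smooth n f
  have h' := HasRingHomProperty.appLE (@LocallyOfFiniteType) f inferInstance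
    ⟨⊤, isAffineOpen_top _⟩ ⟨U, hU⟩ le_top
  have : IsNoetherianRing Γ(Y, U) := by
    let := hk.toField
    let := (f.appLE ⊤ U le_top).hom.toAlgebra
    exact @Algebra.FiniteType.isNoetherianRing Γ(Spec (.of ℂ), ⊤) _ _ _ _ h' _
  refine ⟨isRegularRing_iff.2 fun q _ => (supp_loc hk h q).1, ?_⟩
  exact (ringKrullDim_le_iff_height_le _).2 fun q _ => (supp_loc hk h q).2

theorem supp_le {Y : Scheme.{0}} (f : Y ⟶ Spec (.of ℂ)) [SmoothOfRelativeDimension 3 f]
    {F G : CohCat Y} (hF : TorsionFree F) (hG : IsExt1 F G) {U : Y.Opens} (hU : IsAffineOpen U)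
    [IsDomain Γ(Y, U)] :
    ringKrullDim (Γ(Y, U) ⧸ Module.annihilator Γ(Y, U) Γ(G.obj, U)) ≤ 1 := by
  obtain ⟨h1, h2⟩ := supp_reg f (n := 3) hU
  have := F.property
  have := finite_of_fp F.obj hU
  have : Module.IsTorsionFree Γ(Y, U) Γ(F.obj, U) :=
    .of_smul_eq_zero fun a s h => hF U a s h
  obtain ⟨e⟩ := hG U hU
  rw [ringKrullDim_quotient, Order.krullDim_le_one_iff]
  intro q
  by_contra! H
  obtain ⟨p, hp⟩ := not_isMin_iff.1 H.1
  obtain ⟨r, hr⟩ := not_isMax_iff.1 H.2
  obtain ⟨u, a1, a2⟩ := ext_chain (F := Γ(F.obj, U)) h2 (ModuleCat.of _ Γ(Y, U))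
    (p := p.1.asIdeal) (q := q.1.asIdeal) (r := r.1.asIdeal) hp hr
  exact a1 (p.2 (Module.mem_annihilator.2 fun s => e.injective (by rw [map_smul, a2, map_zero])))

end Pool.Agent.Lib.MP_d4c0ca_ag.T
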