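import Pool.Agent.Lib.MP_d4c0ca_ag.T.EI
import Pool.Agent.Lib.MP_d4c0ca_ag.Main

/-! Every Euler integral restricts to the iterated complex Euler integral. -/

namespace Pool.Agent.Lib.MP_d4c0ca_ag.T

open Set

section
variable {X : Type} [NormedAddCommGroup X] [NormedSpace ℝ X]

theorem cmp_tc [Str X] [NoR X]
    (hX : ∀ g ∈ (Str.C : Set (X → ℂ)), (fun x => (g x).re) ∈ PF X ∧ (fun x => (g x).im) ∈ PF X)
    {c : X → ℂ} (hc : TC c) : (fun x => (c x).re) ∈ PF X ∧ (fun x => (c x).im) ∈ PF X := by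
  induction hc with
  | gen hf => exact hX _ hf
  | @ac f hf =>
    simp only [fun x => hf.const' x 0]
    exact ⟨PF.const _, PF.const _⟩
  | const c => exact ⟨PF.const _, PF.const _⟩
  | add _ _ h1 h2 => exact ⟨add_mem h1.1 h2.1, add_mem h1.2 h2.2⟩
  | mul _ _ h1 h2 =>
    simp only [Complex.mul_re, Complex.mul_im]
    exact ⟨sub_mem (mul_mem h1.1 h2.1) (mul_mem h1.2 h2.2),
      add_mem (mul_mem h1.1 h2.2) (mul_mem h1.2 h2.1)⟩

theorem cmp_def [Str X] [NoR X] [NoZ X]
    (hX : ∀ g ∈ (Str.C : Set (X → ℂ)), (fun x => (g x).re) ∈ PF X ∧ (fun x => (g x).im) ∈ PF X)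
    {P : X → Prop} (hP : Def P) : RC P := by
  obtain ⟨ι, _, z, c, hz, hc, h⟩ := hP.fam
  obtain ⟨Q, h1, h2⟩ := RC.pi fun i => RC.bin And (RC.zero (cmp_tc hX (tm_C.1 (hc i))).1)
    (RC.zero (cmp_tc hX (tm_C.1 (hc i))).2)
  have key : ∀ x y, (∀ q ∈ Q, q x = 0 ↔ q y = 0) → P x → P y := fun x y e =>
    h x y (fun i => by rw [(tm_Z.1 (hz i)).const' x y]) fun i => by
      simpa only [Complex.ext_iff, Complex.zero_re, Complex.zero_im, eq_iff_iff] using
        congrFun (h2 x y e) i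
  exact ⟨Q, h1, fun x y e => propext ⟨key x y e, key y x fun q hq => (e q hq).symm⟩⟩

theorem cmp_cf [Str X] [NoR X] [NoZ X] [Proj X]
    (hX : ∀ g ∈ (Str.C : Set (X → ℂ)), (fun x => (g x).re) ∈ PF X ∧ (fun x => (g x).im) ∈ PF X)
    {φ : X → ℚ} (h : CF φ) : RC φ := by
  refine CF.sep (X := Unit) (motive := fun φ => RC fun x : X => φ ((), x)) ?_ ?_ ?_
    (h.comp Tm.snd')
  · intro B ψ hB _
    exact (cmp_def hX (hB.comp (h := fun x : X => ((), x)) (by fun_prop))).map
      fun p => ind p * ψ ()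
  · exact fun _ _ _ _ a b => RC.bin (· + ·) a b
  · exact fun c _ _ a => a.map (c * ·)

/-- Constructible functions on complex affine space are determined by real vanishing patterns. -/
theorem CF.rc {κ : Type} [Fintype κ] {φ : (κ → ℂ) → ℚ} (h : CF φ) : RC φ := by
  refine cmp_cf ?_ h
  rintro _ ⟨i, _, rfl, rfl⟩
  let L : (κ → ℂ) →L[ℝ] ℂ := ContinuousLinearMap.proj i
  exact ⟨PF.lin (Complex.reCLM.comp L), PF.lin (Complex.imCLM.comp L)⟩

variable [FiniteDimensional ℝ X]

theorem RC.eq_pt (a : X) : RC fun x : X => x = a := by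
  let b := Module.finBasis ℝ X
  have := (RC.pi fun i => RC.zero (PF.aff (ContinuousLinearMap.id ℝ X) (-a)
    (LinearMap.toContinuousLinearMap (b.coord i)))).map fun f => ∀ i, f i
  convert this using 2 with x
  simp [b.ext_elem_iff, add_neg_eq_zero]

variable (J : EInt)

theorem EInt.zero : J.I X (fun _ => 0) = 0 := by
  simpa using J.add X (fun _ => 0) (fun _ => 0) 1 (RC.const _) (RC.const _)

theorem EInt.smul (c : ℚ) {ψ : X → ℚ} (h : RC ψ) : J.I X (fun x => c * ψ x) = c * J.I X ψ := by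
  simpa [J.zero] using J.add X (fun _ => 0) ψ c (RC.const _) h

end

/-- The Euler integral of a point mass. -/
theorem EInt.pt (J : EInt) (X : Type) [NormedAddCommGroup X] [NormedSpace ℝ X]
    [FiniteDimensional ℝ X] (a : X) : J.I X (fun x => ind (x = a)) = 1 := by
  have := FiniteDimensional.proper ℝ X
  obtain ⟨c, h1, h2⟩ := J.top X {a} isClosed_singleton.isLocallyClosed (RC.eq_pt a)
  rw [h1.uniq (Chi.point a)] at h2
  exact h2

theorem chi_real : Chi (univ : Set ℝ) (-1) := by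
  have h1 : Chi (Ici (0 : ℝ)) 0 := .of_ex isClosed_Ici.isLocallyClosed (ex0_Ici 0)
  have h2 : Chi (Iic (0 : ℝ)) 0 :=
    .of_ex isClosed_Iic.isLocallyClosed (MP_741c07_al.AS.ex0_Iic 0)
  have h3 := h1.sub (F := Iic 0) isClosed_Iic (b := 1)
    (by rw [Ici_inter_Iic, Icc_self]; exact Chi.point 0)
  refine Chi.add (a := 0) (b := 0 - 1) isClosed_univ.isLocallyClosed isClosed_Iic
    (by rwa [univ_inter]) ?_
  convert h3 using 1
  ext x
  simp only [mem_sdiff, mem_univ, mem_Iic, mem_Ici, not_le, true_and]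
  exact ⟨fun h => ⟨h.le, h⟩, fun h => h.2⟩

theorem EInt.real (J : EInt) (c : ℚ) : J.I ℝ (fun _ => c) = -c := by
  obtain ⟨d, h1, h2⟩ := J.top ℝ univ isClosed_univ.isLocallyClosed (RC.const True)
  rw [h1.uniq chi_real] at h2
  have := J.smul c (RC.const (X := ℝ) (1 : ℚ))
  simp only [mem_univ, ind_true] at h2
  simpa [h2] using this

theorem EInt.complex (J : EInt) (c : ℚ) : J.I ℂ (fun _ => c) = c := by
  rw [J.lin ℂ (ℝ × ℝ) Complex.equivRealProdCLM (fun _ => c) (RC.const _),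
    J.fub ℝ ℝ _ (RC.const _) (RC.const _), J.real, J.real, neg_neg]

theorem EInt.cof (J : EInt) {ψ : ℂ → ℚ} (h : Cof ψ) : RC ψ ∧ J.I ℂ ψ = int1 ψ := by
  classical
  obtain ⟨c, E, h⟩ := h
  have key : ∀ S : Finset ℂ, RC (fun x => c + ∑ w ∈ S, (ψ w - c) * ind (x = w)) ∧
      J.I ℂ (fun x => c + ∑ w ∈ S, (ψ w - c) * ind (x = w)) = c + ∑ w ∈ S, (ψ w - c) := by
    intro S
    induction S using Finset.induction_on with
    | empty => simpa using ⟨RC.const c, J.complex c⟩
    | insert a S ha ih =>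
      have r := (RC.eq_pt a).map ind
      simp only [Finset.sum_insert ha, add_comm ((ψ a - c) * _), ← add_assoc]
      refine ⟨RC.bin (fun u v => u + (ψ a - c) * v) ih.1 r, ?_⟩
      rw [J.add ℂ _ _ _ ih.1 r, ih.2, J.pt]
      ring
  have e : ψ = fun x => c + ∑ w ∈ E, (ψ w - c) * ind (x = w) := funext fun x => by
    by_cases hx : x ∈ E
    · rw [Finset.sum_eq_single_of_mem x hx fun w _ hw => by rw [ind_neg hw.symm, mul_zero]]
      simp
    · rw [Finset.sum_eq_zero fun w hw => by rw [ind_neg fun e : x = w => hx (e ▸ hw), mul_zero], h x hx,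
        add_zero]
  rw [int1_eq h]
  have := key E
  rwa [← e] at this

theorem EInt.eq_euler (J : EInt) (k : ℕ) {φ : (Fin k → ℂ) → ℚ} (h : CF φ) :
    J.I (Fin k → ℂ) φ = euler k φ := by
  induction k with
  | zero =>
    have e : φ = fun x => φ Fin.elim0 * ind (x = Fin.elim0) := funext fun x => by
      rw [Subsingleton.elim x Fin.elim0, ind_pos rfl, mul_one]
    rw [e, J.smul _ ((RC.eq_pt _).map ind), J.pt, ← e, mul_one]
    rfl
  | succ k ih =>
    let e : ((Fin k → ℂ) × ℂ) ≃L[ℝ] (Fin (k + 1) → ℂ) :=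
      (ContinuousLinearEquiv.prodComm ℝ _ _).trans (Fin.consEquivL ℝ fun _ => ℂ)
    have h1 : (fun w => J.I (Fin k → ℂ) fun y => φ (e (y, w))) =
        fun w => euler k fun y => φ (Fin.cons w y) := funext fun w => ih (h.cons.1 w)
    have h2 := J.cof h.cons.2.cof
    rw [← J.lin _ _ e φ (CF.rc h), J.fub _ _ (fun x => φ (e x))
      ((CF.rc h).lin e.toContinuousLinearMap) (h1 ▸ h2.1), h1, h2.2]
    rfl

/-- On constructible subsets of complex affine space the integral is the Euler characteristic. -/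
theorem EInt.eq_chi (J : EInt) {k : ℕ} {A : Set (Fin k → ℂ)} (hA : Constructible A) :
    J.I (Fin k → ℂ) (fun x => ind (x ∈ A)) = chi A := by
  rw [J.eq_euler k (CF.ind (hA.def (h := fun x => x) fun i => Tm.apply i)), chi, euler_cast]
  congr 1
  funext x
  by_cases e : x ∈ A <;> simp [e]

end Pool.Agent.Lib.MP_d4c0ca_ag.T
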