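import Pool.Agent.Lib.MP_d4c0ca_ag.T.Defs
import Pool.Agent.Lib.MP_d4c0ca_ag.Main

/-! The points of the Quot scheme form a compact subset of the Grassmannian. -/

namespace Pool.Agent.Lib.MP_d4c0ca_ag.T

open Set MvPolynomial Module Filter Topology

variable {σ ι : Type} [Fintype σ] [DecidableEq σ] [Fintype ι] {M : Sub σ ι} {n d : ℕ}

theorem mon_deg (α : Mon σ d) : α.1.degree = d :=
  (Finsupp.degree_eq_sum _).trans (Finset.mem_finsuppAntidiag.1 α.2).1

theorem mon_mem {α : σ →₀ ℕ} (h : α.degree = d) :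
    α ∈ (Finset.univ.finsuppAntidiag d : Finset (σ →₀ ℕ)) :=
  Finset.mem_finsuppAntidiag.2 ⟨by rw [← h, Finsupp.degree_eq_sum], Finset.subset_univ _⟩

omit [Fintype ι] in
theorem coeff_toPoly (v : E σ ι d) (i : ι) (α : Mon σ d) :
    coeff α.1 (toPoly d v i) = v (i, α) := by
  show coeff α.1 (∑ β : Mon σ d, monomial β.1 (v (i, β))) = _
  rw [coeff_sum, Finset.sum_eq_single α]
  · simp
  · intro β _ h
    rw [coeff_monomial, if_neg fun e => h (Subtype.ext e)]
  · simp

omit [Fintype ι] in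
theorem toPoly_mem (v : E σ ι d) : toPoly d v ∈ V σ ι d :=
  mem_V.2 fun _ => (homogeneousSubmodule σ ℂ d).sum_mem fun α _ =>
    isHomogeneous_monomial _ (mon_deg α)

omit [Fintype ι] in
theorem toPoly_inj : Function.Injective (toPoly (σ := σ) (ι := ι) d) := fun v w h => by
  ext ⟨i, α⟩
  rw [← coeff_toPoly, ← coeff_toPoly, h]

omit [Fintype ι] in
theorem toPoly_surj {f : ι → MvPolynomial σ ℂ} (hf : f ∈ V σ ι d) :
    ∃ v : E σ ι d, toPoly d v = f := by
  refine ⟨WithLp.toLp 2 fun p => coeff p.2.1 (f p.1), funext fun i => MvPolynomial.ext _ _ fun α => ?_⟩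
  by_cases h : α.degree = d
  · exact coeff_toPoly _ i ⟨α, mon_mem h⟩
  · rw [(mem_V.1 hf i).coeff_eq_zero h, (mem_V.1 (toPoly_mem _) i).coeff_eq_zero h]

omit [Fintype ι] in
theorem range_toPoly : LinearMap.range (toPoly (σ := σ) (ι := ι) d) = V σ ι d :=
  le_antisymm (by rintro _ ⟨v, rfl⟩; exact toPoly_mem v) fun _ hf => toPoly_surj hf

omit [Fintype ι] in
theorem mem_piece {K : Sub σ ι} {v : E σ ι d} : v ∈ piece K d ↔ toPoly d v ∈ K := Iff.rfl

theorem proj_eq_self {K : Sub σ ι} {v : E σ ι d} : proj K d v = v ↔ toPoly d v ∈ K :=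
  Submodule.starProjection_eq_self_iff

theorem proj_mem (K : Sub σ ι) (v : E σ ι d) : toPoly d (proj K d v) ∈ K :=
  Submodule.starProjection_apply_mem (piece K d) v

theorem piece_add_hilb (K : Sub σ ι) (d : ℕ) :
    hilb K d + finrank ℂ (piece K d) = finrank ℂ (E σ ι d) := by
  have := LinearMap.finrank_range_add_finrank_ker (cl K ∘ₗ toPoly (σ := σ) (ι := ι) d)
  rwa [LinearMap.range_comp, range_toPoly, LinearMap.ker_comp, Submodule.ker_mkQ] at this

omit [DecidableEq σ] in
theorem hilb_quot {K : Sub σ ι} (h : K ∈ QuotPts M n) (hd : n ≤ d) : hilb K d = n := by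
  obtain ⟨ℓ, L, hℓ, h1, rfl⟩ := exists_AQ' h
  rw [hilb_congr fun f hf => mem_hom_V hf, hilb, h1.top hℓ hd, finrank_top, h1.2.2.2]

theorem trace_proj (K : Sub σ ι) (d : ℕ) :
    LinearMap.trace ℂ _ (proj K d : E σ ι d →ₗ[ℂ] E σ ι d) = finrank ℂ (piece K d) :=
  LinearMap.IsProj.trace ⟨fun v => Submodule.starProjection_apply_mem (piece K d) v,
    fun _ hv => Submodule.starProjection_eq_self_iff.2 hv⟩

omit [DecidableEq σ] [Fintype σ] [Fintype ι] in
theorem sat_down {K K' : Sub σ ι}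
    (h' : ∀ f, (∀ s : σ, (X s : MvPolynomial σ ℂ) • f ∈ K') → f ∈ K') (k e : ℕ)
    (h : ∀ f ∈ V σ ι (e + k), f ∈ K → f ∈ K') : ∀ f ∈ V σ ι e, f ∈ K → f ∈ K' := by
  induction k with
  | zero => exact h
  | succ k ih =>
    refine ih fun f hf hK => h' f fun s => h _ ?_ (K.smul_mem _ hK)
    have := smul_mem_V (isHomogeneous_X ℂ s) hf
    rwa [add_comm 1] at this

theorem proj_inj (hd : n < d) : InjOn (fun K : Sub σ ι => proj K d) (QuotPts M n) := by
  intro K hK K' hK' e
  obtain ⟨k, rfl⟩ := Nat.exists_eq_add_of_le (Nat.succ_le_of_lt hd)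
  have e' : proj K (n + 1 + k) = proj K' (n + 1 + k) := e
  have h : ∀ f ∈ V σ ι (n + 1 + k), f ∈ K ↔ f ∈ K' := fun f hf => by
    obtain ⟨v, rfl⟩ := toPoly_surj hf
    rw [← proj_eq_self, ← proj_eq_self, e']
  exact quot_ext hK hK' fun f hf =>
    ⟨sat_down hK'.2.2.1 k _ (fun f hf => (h f hf).1) f hf,
      sat_down hK.2.2.1 k _ (fun f hf => (h f hf).2) f hf⟩

omit [DecidableEq σ] in
theorem exists_satur {N : Sub σ ι} (hN : Graded N) : ∃ K : Sub σ ι, N ≤ K ∧ Graded K ∧
    (∀ f, (∀ s : σ, (X s : MvPolynomial σ ℂ) • f ∈ K) → f ∈ K) ∧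
    ∃ b, ∀ e, b ≤ e → ∀ f ∈ V σ ι e, f ∈ K → f ∈ N := by
  classical
  let c : ℕ → Sub σ ι := fun k => Nat.rec N
    (fun _ N => ⨅ s, N.comap ((X s : MvPolynomial σ ℂ) • LinearMap.id)) k
  have h0 : ∀ k f, f ∈ c (k + 1) ↔ ∀ s, (X s : MvPolynomial σ ℂ) • f ∈ c k := fun k f => by
    simp [c]
  have hm : Monotone c := monotone_nat_of_le_succ fun k f hf =>
    (h0 k f).2 fun s => (c k).smul_mem _ hf
  obtain ⟨k, hk⟩ := monotone_stabilizes_iff_noetherian.2 inferInstance ⟨c, hm⟩
  have hg : ∀ k, Graded (c k) := fun k => by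
    induction k with
    | zero => exact hN
    | succ k ih =>
      exact graded_iff.2 fun f hf d => (h0 k _).2 fun s =>
        hc_smul_add (isHomogeneous_X ℂ s) f d ▸ ih _ ((h0 k f).1 hf s) _
  let T : ℕ → Sub σ ι := fun b =>
    { carrier := {f | ∀ e j, b ≤ e + j → hc e f ∈ c j}
      add_mem' := fun h1 h2 e j h => by rw [map_add]; exact add_mem (h1 e j h) (h2 e j h)
      zero_mem' := fun e j _ => by simp
      smul_mem' := fun g f hf => by
        induction g using MvPolynomial.induction_on generalizing f with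
        | C a =>
          exact fun e j h => by
            rw [← algebraMap_eq, algebraMap_smul, map_smul]; exact csmul_mem _ _ (hf e j h)
        | add p q hp hq =>
          exact fun e j h => by
            rw [add_smul, map_add]; exact add_mem (hp f hf e j h) (hq f hf e j h)
        | mul_X p s hp =>
          rw [mul_smul]
          refine hp _ fun e j h => ?_
          rw [hc_smul (isHomogeneous_X ℂ s)]
          split_ifs with h1
          exacts [(h0 j _).1 (hf (e - 1) (j + 1) (by omega)) s, zero_mem _] }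
  have hT : Monotone T := fun a b h f hf e j h' => hf e j (h.trans h')
  obtain ⟨b, hb⟩ := monotone_stabilizes_iff_noetherian.2 inferInstance ⟨T, hT⟩
  refine ⟨c k, hm k.zero_le, hg k, fun f hf => (hk (k + 1) k.le_succ).ge ((h0 k f).2 hf), b,
    fun e he f hf hK => ?_⟩
  have h1 : f ∈ T (b + (e + k)) := fun e' j h => by
    rw [hc_of_mem hf]
    split_ifs with h2
    exacts [hm (by omega) hK, zero_mem _]
  have h2 := (hb _ (Nat.le_add_right _ _)).ge h1 e 0 he
  rwa [hc_of_mem hf, if_pos rfl] at h2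

omit [Fintype ι] in
theorem exists_mulX (s : σ) (e : ℕ) : ∃ m : E σ ι e →ₗ[ℂ] E σ ι (e + 1),
    ∀ v, toPoly (e + 1) (m v) = (X s : MvPolynomial σ ℂ) • toPoly e v := by
  have h : ∀ v : E σ ι e, ∃ w : E σ ι (e + 1),
      toPoly (e + 1) w = (X s : MvPolynomial σ ℂ) • toPoly e v := fun v =>
    toPoly_surj (by have := smul_mem_V (isHomogeneous_X ℂ s) (toPoly_mem v); rwa [add_comm 1] at this)
  choose m hm using h
  exact ⟨⟨⟨m, fun v w => toPoly_inj (by simp only [map_add, hm, smul_add])⟩,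
    fun a v => toPoly_inj (by simp only [map_smul, hm, RingHom.id_apply]; rw [smul_comm])⟩, hm⟩

theorem lim_fix {α E1 E2 : Type} [NormedAddCommGroup E1] [NormedSpace ℂ E1]
    [FiniteDimensional ℂ E1] [NormedAddCommGroup E2] [NormedSpace ℂ E2] {U : Filter α} [U.NeBot]
    {A : α → E1 →L[ℂ] E1} {B : α → E2 →L[ℂ] E2} {A0 B0} (hA : Tendsto A U (𝓝 A0))
    (hB : Tendsto B U (𝓝 B0)) (φ : E1 →ₗ[ℂ] E2) (v : E1)
    (h : ∀ a, B a (φ (A a v)) = φ (A a v)) : B0 (φ (A0 v)) = φ (A0 v) := by
  have h1 : Tendsto (fun a => φ (A a v)) U (𝓝 (φ (A0 v))) :=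
    (φ.continuous_of_finiteDimensional.tendsto _).comp
      (((ContinuousLinearMap.apply ℂ E1 v).continuous.tendsto _).comp hA)
  have h2 : Tendsto (fun a => B a (φ (A a v))) U (𝓝 (B0 (φ (A0 v)))) :=
    (isBoundedBilinearMap_apply.continuous.tendsto (B0, φ (A0 v))).comp (hB.prodMk_nhds h1)
  simp only [h] at h2
  exact tendsto_nhds_unique h2 h1

theorem exists_limit {α : Type} (U : Ultrafilter α) (g : α → Sub σ ι) : ∃ N : Sub σ ι, Graded N ∧
    ∀ e, Tendsto (fun a => proj (g a) e) U (𝓝 (proj N e)) := by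
  have h0 : ∀ e, ∃ Q, Tendsto (fun a => proj (g a) e) U (𝓝 Q) := fun e => by
    obtain ⟨Q, -, hQ⟩ := (isCompact_closedBall (0 : E σ ι e →L[ℂ] E σ ι e) 1).ultrafilter_le_nhds
      (U.map fun a => proj (g a) e) (by
        rw [Ultrafilter.coe_map, le_principal_iff, mem_map]
        exact univ_mem' fun a => mem_closedBall_zero_iff.2 (Submodule.starProjection_norm_le _))
    exact ⟨Q, hQ⟩
  choose Q hQ using h0
  have h1 : ∀ e v, Q e (Q e v) = Q e v := fun e v =>
    lim_fix (hQ e) (hQ e) LinearMap.id v fun a => proj_eq_self.2 (proj_mem _ _)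
  have ht : ∀ e v, Tendsto (fun a => proj (g a) e v) U (𝓝 (Q e v)) := fun e v =>
    ((ContinuousLinearMap.apply ℂ _ v).continuous.tendsto _).comp (hQ e)
  have h2 : ∀ e v w, inner ℂ (Q e v) w = inner ℂ v (Q e w) := fun e v w =>
    tendsto_nhds_unique ((ht e v).inner tendsto_const_nhds) (by
      simpa only [proj, Submodule.inner_starProjection_left_eq_right] using
        (tendsto_const_nhds (x := v)).inner (𝕜 := ℂ) (ht e w))
  let N : Sub σ ι :=
    { carrier := {f | ∀ e, ∃ v, Q e v = v ∧ toPoly e v = hc e f}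
      add_mem' := fun h1 h2 e => by
        obtain ⟨v, a1, a2⟩ := h1 e
        obtain ⟨w, b1, b2⟩ := h2 e
        exact ⟨v + w, by rw [map_add, a1, b1], by rw [map_add, map_add, a2, b2]⟩
      zero_mem' := fun e => ⟨0, by simp, by simp⟩
      smul_mem' := fun p f hf => by
        induction p using MvPolynomial.induction_on generalizing f with
        | C a =>
          intro e
          obtain ⟨v, a1, a2⟩ := hf e
          exact ⟨a • v, by rw [map_smul, a1], by
            rw [← algebraMap_eq, algebraMap_smul, map_smul, map_smul, a2]⟩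
        | add p q hp hq =>
          intro e
          obtain ⟨v, a1, a2⟩ := hp f hf e
          obtain ⟨w, b1, b2⟩ := hq f hf e
          exact ⟨v + w, by rw [map_add, a1, b1], by rw [add_smul, map_add, map_add, a2, b2]⟩
        | mul_X p s hp =>
          rw [mul_smul]
          refine hp _ fun e => ?_
          rw [hc_smul (isHomogeneous_X ℂ s)]
          rcases e with _ | e
          · exact ⟨0, by simp, by simp⟩
          · obtain ⟨v, a1, a2⟩ := hf e
            obtain ⟨m, hm⟩ := exists_mulX (ι := ι) s e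
            refine ⟨m v, ?_, by rw [hm, a2, if_pos (by omega), Nat.add_sub_cancel]⟩
            have := lim_fix (hQ e) (hQ (e + 1)) m v fun a => proj_eq_self.2 (by
              rw [hm]; exact (g a).smul_mem _ (proj_mem _ _))
            rwa [a1] at this }
  have h3 : ∀ e (v : E σ ι e), toPoly e v ∈ N ↔ Q e v = v := fun e v =>
    ⟨fun h => by
      obtain ⟨w, a1, a2⟩ := h e
      rw [hc_of_mem (toPoly_mem v), if_pos rfl] at a2
      exact toPoly_inj a2 ▸ a1, fun h e' => by
      rw [hc_of_mem (toPoly_mem v)]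
      split_ifs with h4
      · subst h4; exact ⟨v, h, rfl⟩
      · exact ⟨0, by simp, by simp⟩⟩
  refine ⟨N, graded_iff.2 fun f hf e => ?_, fun e => ?_⟩
  · obtain ⟨v, a1, a2⟩ := hf e
    exact a2 ▸ (h3 e v).2 a1
  · have : proj N e = Q e := ContinuousLinearMap.ext fun v =>
      Submodule.eq_starProjection_of_mem_of_inner_eq_zero ((h3 e _).2 (h1 e v)) fun w hw => by
        rw [← (h3 e w).1 hw, ← h2, map_sub, h1, sub_self, inner_zero_left]
    exact this ▸ hQ e

theorem proj_compact (hM : Graded M) (hd : n ≤ d) :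
    IsCompact ((fun K : Sub σ ι => proj K d) '' QuotPts M n) := by
  classical
  refine isCompact_iff_ultrafilter_le_nhds.2 fun U hU => ?_
  have h0 : ∀ P : E σ ι d →L[ℂ] E σ ι d, ∃ K : Sub σ ι,
      P ∈ (fun K : Sub σ ι => proj K d) '' QuotPts M n → K ∈ QuotPts M n ∧ proj K d = P := fun P => by
    by_cases h : P ∈ (fun K : Sub σ ι => proj K d) '' QuotPts M n
    · obtain ⟨K, h1, h2⟩ := h
      exact ⟨K, fun _ => ⟨h1, h2⟩⟩
    · exact ⟨⊤, fun h' => (h h').elim⟩
  choose g hg using h0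
  have h1 : ∀ᶠ P in (U : Filter _), g P ∈ QuotPts M n ∧ proj (g P) d = P :=
    mem_of_superset (le_principal_iff.1 hU) fun P hP => hg P hP
  obtain ⟨N, hN, h2⟩ := exists_limit U g
  have h3 : M ≤ N := fun f hf => mem_of_hc' fun e => by
    obtain ⟨v, hv⟩ := toPoly_surj (hc_mem e f)
    rw [← hv, ← proj_eq_self]
    refine tendsto_nhds_unique
      (((ContinuousLinearMap.apply ℂ _ v).continuous.tendsto _).comp (h2 e))
      (tendsto_const_nhds.congr' (h1.mono fun P hP => ?_))
    exact (proj_eq_self.2 (hv ▸ hP.1.1 (graded_iff.1 hM f hf e))).symm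
  have h4 : ∀ e, n ≤ e → hilb N e = n := fun e he => by
    have a1 := ((LinearMap.trace ℂ (E σ ι e) ∘ₗ
      ContinuousLinearMap.coeLM ℂ).continuous_of_finiteDimensional.tendsto _).comp (h2 e)
    have a2 : ((finrank ℂ (piece N e) : ℕ) : ℂ) = (finrank ℂ (E σ ι e) : ℂ) - n := by
      rw [← trace_proj]
      refine tendsto_nhds_unique a1 (tendsto_const_nhds.congr' (h1.mono fun P hP => ?_))
      have := piece_add_hilb (g P) e
      rw [hilb_quot hP.1 he] at this
      show _ = LinearMap.trace ℂ _ (proj (g P) e : E σ ι e →ₗ[ℂ] E σ ι e)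
      rw [trace_proj, ← this]; push_cast; ring
    rw [← piece_add_hilb N e] at a2
    push_cast at a2
    exact_mod_cast (show (hilb N e : ℂ) = n by linear_combination -a2)
  obtain ⟨K, b1, b2, b3, b, b4⟩ := exists_satur hN
  have h5 : K ∈ QuotPts M n := ⟨h3.trans b1, b2, b3, n + b, fun e he => by
    rw [hilb_congr fun f hf => ⟨b4 e (by omega) f hf, fun h => b1 h⟩, h4 e (by omega)]⟩
  have h6 : piece N d = piece K d := Submodule.eq_of_le_of_finrank_eq (fun v hv => b1 hv) (by
    have a1 := piece_add_hilb N d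
    have a2 := piece_add_hilb K d
    rw [h4 d hd] at a1
    rw [hilb_quot h5 hd] at a2
    omega)
  have h7 : proj N d = proj K d := by unfold proj; congr 1
  refine ⟨proj K d, ⟨K, h5, rfl⟩, ?_⟩
  rw [← h7]
  exact (tendsto_id'.1 ((h2 d).congr' (h1.mono fun P hP => hP.2)))

end Pool.Agent.Lib.MP_d4c0ca_ag.T
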