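import Mathlib

/-! Polynomial functions on real vector spaces and functions determined by vanishing patterns. -/

namespace Pool.Agent.Lib.MP_d4c0ca_ag.T

open Set

variable {X Y α : Type}

/-- Each function of `Q` vanishes everywhere or nowhere on `C`. -/
def Inv (Q : Finset (X → ℝ)) (C : Set X) : Prop := ∀ q ∈ Q, ∀ x ∈ C, ∀ y ∈ C, q x = 0 → q y = 0

/-- `ψ` depends only on which functions of `Q` vanish. -/
def Sat (Q : Finset (X → ℝ)) (ψ : X → α) : Prop :=
  ∀ x y, (∀ q ∈ Q, q x = 0 ↔ q y = 0) → ψ x = ψ y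

/-- Polynomials in one variable with coefficients in `A`, as functions. -/
def ext1 (A : Subalgebra ℝ (X → ℝ)) : Subalgebra ℝ (ℝ × X → ℝ) :=
  Algebra.adjoin ℝ (insert Prod.fst ((fun f => f ∘ Prod.snd) '' (A : Set (X → ℝ))))

theorem Sat.mono {Q Q' : Finset (X → ℝ)} {ψ : X → α} (h : Sat Q ψ) (e : Q ⊆ Q') : Sat Q' ψ :=
  fun x y h' => h x y fun q hq => h' q (e hq)

theorem Inv.mono {Q Q' : Finset (X → ℝ)} {C : Set X} (h : Inv Q' C) (e : Q ⊆ Q') : Inv Q C :=
  fun q hq => h q (e hq)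

theorem Sat.of_inv {Q : Finset (X → ℝ)} {ψ : X → α} (h : Sat Q ψ) {C : Set X} (hC : Inv Q C)
    {x y : X} (hx : x ∈ C) (hy : y ∈ C) : ψ x = ψ y :=
  h x y fun q hq => ⟨hC q hq x hx y hy, hC q hq y hy x hx⟩

variable [NormedAddCommGroup X] [NormedSpace ℝ X] [NormedAddCommGroup Y] [NormedSpace ℝ Y]

/-- Real polynomial functions. -/
def PF (X : Type) [NormedAddCommGroup X] [NormedSpace ℝ X] : Subalgebra ℝ (X → ℝ) :=
  Algebra.adjoin ℝ (range fun l : X →L[ℝ] ℝ => (l : X → ℝ))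

theorem PF.lin (l : X →L[ℝ] ℝ) : (l : X → ℝ) ∈ PF X := Algebra.subset_adjoin ⟨l, rfl⟩

theorem PF.const (c : ℝ) : (fun _ => c) ∈ PF X := (PF X).algebraMap_mem c

theorem PF.cont {f : X → ℝ} (h : f ∈ PF X) : Continuous f := by
  induction h using Algebra.adjoin_induction with
  | mem f hf => obtain ⟨l, rfl⟩ := hf; exact l.continuous
  | algebraMap c => exact continuous_const
  | add _ _ _ _ a b => exact a.add b
  | mul _ _ _ _ a b => exact a.mul b

/-- Composition with a map whose linear coordinates are polynomial. -/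
theorem PF.comp' {f : Y → ℝ} (h : f ∈ PF Y) {g : X → Y}
    (hg : ∀ l : Y →L[ℝ] ℝ, (fun x => l (g x)) ∈ PF X) : (fun x => f (g x)) ∈ PF X := by
  induction h using Algebra.adjoin_induction with
  | mem f hf => obtain ⟨l, rfl⟩ := hf; exact hg l
  | algebraMap c => exact PF.const c
  | add _ _ _ _ a b => exact add_mem a b
  | mul _ _ _ _ a b => exact mul_mem a b

theorem PF.aff (L : X →L[ℝ] Y) (c : Y) (l : Y →L[ℝ] ℝ) : (fun x => l (L x + c)) ∈ PF X := by
  simp only [map_add]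
  exact add_mem (PF.lin (l.comp L)) (PF.const _)

/-- Functions determined by the vanishing pattern of finitely many real polynomial functions. -/
def RC (ψ : X → α) : Prop := ∃ Q : Finset (X → ℝ), (∀ q ∈ Q, q ∈ PF X) ∧ Sat Q ψ

theorem RC.comp' {ψ : Y → α} (h : RC ψ) {g : X → Y}
    (hg : ∀ l : Y →L[ℝ] ℝ, (fun x => l (g x)) ∈ PF X) : RC fun x => ψ (g x) := by
  classical
  obtain ⟨Q, h1, h2⟩ := h
  refine ⟨Q.image fun q x => q (g x), fun q hq => ?_, fun x y e =>
    h2 _ _ fun q hq => e _ (Finset.mem_image_of_mem _ hq)⟩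
  obtain ⟨r, hr, rfl⟩ := Finset.mem_image.1 hq
  exact PF.comp' (h1 r hr) hg

theorem RC.aff {ψ : Y → α} (h : RC ψ) (L : X →L[ℝ] Y) (c : Y) : RC fun x => ψ (L x + c) :=
  h.comp' (PF.aff L c)

theorem RC.lin {ψ : Y → α} (h : RC ψ) (L : X →L[ℝ] Y) : RC fun x => ψ (L x) := by
  simpa using h.aff L 0

theorem RC.const (a : α) : RC fun _ : X => a := ⟨∅, by simp, fun _ _ _ => rfl⟩

theorem RC.bin {β γ : Type} (op : α → β → γ) {ψ : X → α} {φ : X → β} (h : RC ψ) (h' : RC φ) :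
    RC fun x => op (ψ x) (φ x) := by
  classical
  obtain ⟨Q, h1, h2⟩ := h
  obtain ⟨Q', h3, h4⟩ := h'
  refine ⟨Q ∪ Q', fun q hq => (Finset.mem_union.1 hq).elim (h1 q) (h3 q), fun x y e => ?_⟩
  exact congrArg₂ op (h2.mono Finset.subset_union_left x y e)
    (h4.mono Finset.subset_union_right x y e)

theorem RC.map {β : Type} (f : α → β) {ψ : X → α} (h : RC ψ) : RC fun x => f (ψ x) :=
  RC.bin (fun a _ => f a) h h

theorem RC.zero {q : X → ℝ} (h : q ∈ PF X) : RC fun x => q x = 0 :=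
  ⟨{q}, by simpa, fun _ _ e => propext (e q (by simp))⟩

theorem RC.pi {ι : Type} [Finite ι] {ψ : ι → X → α} (h : ∀ i, RC (ψ i)) :
    RC fun x i => ψ i x := by
  classical
  have := Fintype.ofFinite ι
  choose Q h1 h2 using h
  refine ⟨Finset.univ.biUnion Q, fun q hq => ?_, fun x y e => funext fun i =>
    (h2 i).mono (Finset.subset_biUnion_of_mem Q (Finset.mem_univ i)) x y e⟩
  obtain ⟨i, -, hi⟩ := Finset.mem_biUnion.1 hq
  exact h1 i q hi

end Pool.Agent.Lib.MP_d4c0ca_ag.T
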