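import Pool.Agent.Lib.MP_d4c0ca_ag.T.Defs
import Pool.Agent.Lib.MP_d4c0ca_ag.T.Sat
import Pool.Agent.Lib.MP_d4c0ca_ag.Main

/-! The graph and the image of a constructible family of projections are determined by real
vanishing patterns. -/

namespace Pool.Agent.Lib.MP_d4c0ca_ag.T

open Set MvPolynomial
open scoped ComplexConjugate

section
variable {X : Type} [NormedAddCommGroup X] [NormedSpace ℝ X]

theorem gr_eval {κ : Type} {h : X → κ → ℂ} (h1 : ∀ i, (fun x => (h x i).re) ∈ PF X)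
    (h2 : ∀ i, (fun x => (h x i).im) ∈ PF X) (p : MvPolynomial κ ℂ) :
    (fun x => (eval (h x) p).re) ∈ PF X ∧ (fun x => (eval (h x) p).im) ∈ PF X := by
  induction p using MvPolynomial.induction_on with
  | C c => simpa using ⟨PF.const _, PF.const _⟩
  | add p q hp hq =>
    simp only [map_add, Complex.add_re, Complex.add_im]
    exact ⟨add_mem hp.1 hq.1, add_mem hp.2 hq.2⟩
  | mul_X p s hp =>
    simp only [map_mul, eval_X, Complex.mul_re, Complex.mul_im]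
    exact ⟨sub_mem (mul_mem hp.1 (h1 s)) (mul_mem hp.2 (h2 s)),
      add_mem (mul_mem hp.1 (h2 s)) (mul_mem hp.2 (h1 s))⟩

end

theorem Constructible.rc {X κ : Type} [NormedAddCommGroup X] [NormedSpace ℝ X] {A : Set (κ → ℂ)}
    (hA : Constructible A) {h : X → κ → ℂ} (h1 : ∀ i, (fun x => (h x i).re) ∈ PF X)
    (h2 : ∀ i, (fun x => (h x i).im) ∈ PF X) : RC fun x => h x ∈ A := by
  obtain ⟨T, hT⟩ := hA
  obtain ⟨Q, a1, a2⟩ := RC.pi fun p : T => RC.bin And (RC.zero (gr_eval h1 h2 p.1).1)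
    (RC.zero (gr_eval h1 h2 p.1).2)
  have key : ∀ x y, (∀ q ∈ Q, q x = 0 ↔ q y = 0) → h x ∈ A → h y ∈ A := fun x y e =>
    hT _ _ fun p hp => by
      simpa only [Complex.ext_iff, Complex.zero_re, Complex.zero_im, eq_iff_iff] using
        congrFun (a2 x y e) ⟨p, hp⟩
  exact ⟨Q, a1, fun x y e => propext ⟨key x y e, key y x fun q hq => (e q hq).symm⟩⟩

section
variable {X : Type} [NormedAddCommGroup X] [NormedSpace ℝ X]

theorem gr_def {Z : Type} [Str Z] [NoR Z] [NoZ Z] {P : Z → Prop} (hP : Def P) {g : X → Z}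
    (hg : ∀ c ∈ (Str.C : Set (Z → ℂ)),
      (fun x => (c (g x)).re) ∈ PF X ∧ (fun x => (c (g x)).im) ∈ PF X) : RC fun x => P (g x) := by
  obtain ⟨B, b1, b2⟩ := hP.constructible (κ := (Str.C : Set (Z → ℂ))) (h := fun z c => c.1 z)
    fun c hc => ⟨⟨c, hc⟩, rfl⟩
  simp only [b2]
  exact Constructible.rc b1 (fun c => (hg c.1 c.2).1) fun c => (hg c.1 c.2).2

theorem gr_lin {f : X → ℂ} (ha : ∀ x y, f (x + y) = f x + f y)
    (hs : ∀ (c : ℝ) x, f (c • x) = c • f x) (hc : Continuous f) :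
    (fun x => (f x).re) ∈ PF X ∧ (fun x => (f x).im) ∈ PF X :=
  let L : X →L[ℝ] ℂ := ⟨⟨⟨f, ha⟩, hs⟩, hc⟩
  ⟨PF.lin (Complex.reCLM.comp L), PF.lin (Complex.imCLM.comp L)⟩

end

section
variable {I : Type} [Fintype I] [DecidableEq I]

/-- The matrix of an operator. -/
noncomputable def mat (P : EuclideanSpace ℂ I →L[ℂ] EuclideanSpace ℂ I) (i j : I) : ℂ :=
  P (EuclideanSpace.single j 1) i

theorem mat_apply (P : EuclideanSpace ℂ I →L[ℂ] EuclideanSpace ℂ I) (v : EuclideanSpace ℂ I)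
    (i : I) : P v i = ∑ j, mat P i j * v j := by
  have e : v = ∑ j, v j • EuclideanSpace.single j (1 : ℂ) := by
    ext k
    simp [Pi.single_apply]
  conv_lhs => rw [e]
  simp [mat, mul_comm]

theorem mat_pf (i j : I) :
    (fun P : EuclideanSpace ℂ I →L[ℂ] EuclideanSpace ℂ I => (mat P i j).re) ∈ PF _ ∧
      (fun P : EuclideanSpace ℂ I →L[ℂ] EuclideanSpace ℂ I => (mat P i j).im) ∈ PF _ :=
  gr_lin (fun _ _ => rfl) (fun _ _ => rfl) (by unfold mat; fun_prop)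

/-- Hermitian matrices. -/
def Her (P : EuclideanSpace ℂ I →L[ℂ] EuclideanSpace ℂ I) : Prop :=
  ∀ i j, mat P i j = conj (mat P j i)

theorem her_rc : RC (Her (I := I)) := by
  have := (RC.pi fun p : I × I => RC.bin And
    (RC.zero (sub_mem (mat_pf p.1 p.2).1 (mat_pf p.2 p.1).1))
    (RC.zero (add_mem (mat_pf p.1 p.2).2 (mat_pf p.2 p.1).2))).map fun f => ∀ p, f p
  convert this using 2 with P
  simp [Her, Complex.ext_iff, sub_eq_zero, add_eq_zero_iff_eq_neg]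

theorem her_iff (P : EuclideanSpace ℂ I →L[ℂ] EuclideanSpace ℂ I) :
    Her P ↔ ∀ v w, inner ℂ (P v) w = inner ℂ v (P w) := by
  refine ⟨fun h v w => ?_, fun h i j => ?_⟩
  · simp only [PiLp.inner_apply, RCLike.inner_apply, mat_apply, map_sum, map_mul, Finset.mul_sum,
      Finset.sum_mul]
    rw [Finset.sum_comm]
    refine Finset.sum_congr rfl fun i _ => Finset.sum_congr rfl fun j _ => ?_
    rw [h i j]
    ring
  · have := h (EuclideanSpace.single i 1) (EuclideanSpace.single j 1)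
    simpa [mat, EuclideanSpace.inner_single_left, EuclideanSpace.inner_single_right] using this.symm

theorem eq_proj_iff (P : EuclideanSpace ℂ I →L[ℂ] EuclideanSpace ℂ I)
    (S : Submodule ℂ (EuclideanSpace ℂ I)) :
    P = S.starProjection ↔ Her P ∧ (∀ v, P v ∈ S) ∧ ∀ v ∈ S, P v = v := by
  rw [her_iff]
  refine ⟨?_, fun ⟨h1, h2, h3⟩ => ?_⟩
  · rintro rfl
    exact ⟨fun v w => S.inner_starProjection_left_eq_right v w, fun v => S.starProjection_apply_mem v,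
      fun v hv => Submodule.starProjection_eq_self_iff.2 hv⟩
  · ext1 v
    refine (Submodule.eq_starProjection_of_mem_of_inner_eq_zero (h2 v) fun w hw => ?_).symm
    rw [inner_sub_left, h1, h3 w hw, sub_self]

end

variable {σ ι : Type} [Fintype σ] [DecidableEq σ] [Fintype ι] {M : Sub σ ι} {n d : ℕ}

omit [Fintype ι] in
theorem gr_toPoly_mem (v : E σ ι d) : toPoly d v ∈ V σ ι d := fun i _ =>
  Submodule.sum_mem _ fun α _ => isHomogeneous_monomial _ (by
    have := (Finset.mem_finsuppAntidiag.1 α.2).1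
    rw [Finsupp.degree_eq_sum]
    exact this)

omit [Fintype ι] in
theorem gr_coeff_toPoly (v : E σ ι d) (i : ι) (γ : σ →₀ ℕ) :
    coeff γ (toPoly d v i) = ∑ α : Mon σ d, if α.1 = γ then v (i, α) else 0 := by
  change coeff γ (∑ α : Mon σ d, monomial α.1 (v (i, α))) = _
  simp only [coeff_sum, coeff_monomial]

open Classical in
theorem exists_G {k : ℕ} {A : Set (Fin k → ℂ)} {β : (Fin k → ℂ) → Sub σ ι} (h : Param M n A β) :
    ∃ G : (Fin k → ℂ) × (ι × Mon σ d → ι × Mon σ d → ℂ) → Prop, Def G ∧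
      ∀ a (P : E σ ι d →L[ℂ] E σ ι d),
        (a ∈ A ∧ P = proj (β a) d) ↔ Her P ∧ G (a, mat P) := by
  obtain ⟨hA, -, hZ⟩ := h
  obtain ⟨Z, z1, z2⟩ := hZ d
  let W : (Fin k → ℂ) × (ι × Mon σ d → ℂ) → Prop := fun q =>
    Sum.elim q.1 (fun p : ι × (σ →₀ ℕ) => ∑ α : Mon σ d, if α.1 = p.2 then q.2 (p.1, α) else 0) ∈ Z
  have hW : Def W := z1.def (by
    rintro (i | p)
    · exact Tm.fst'.app i
    · exact Tm.sumC _ fun α => Tm.ite _ (Tm.snd'.app _) (Tm.const _))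
  have eW : ∀ a ∈ A, ∀ v : E σ ι d, v ∈ piece (β a) d ↔ W (a, fun i => v i) := fun a ha v => by
    have := z2 a ha _ (gr_toPoly_mem v)
    simp only [gr_coeff_toPoly] at this
    exact this
  refine ⟨fun q => q.1 ∈ A ∧ (∀ u : ι × Mon σ d → ℂ, W (q.1, fun i => ∑ j, q.2 i j * u j)) ∧
    ∀ u : ι × Mon σ d → ℂ, W (q.1, u) → ∀ i, ∑ j, q.2 i j * u j = u i, ?_, fun a P => ?_⟩
  · refine (hA.def fun i => Tm.fst'.app i).and ((Def.all (hW.comp ?_)).and
      (Def.all ((hW.comp (h := fun p : (_ × _) × _ => (p.1.1, p.2)) (by fun_prop)).imp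
        (Def.allF fun i => Def.eqC ?_ (Tm.snd'.app i)))))
    · exact Tm.fst'.fst.prodMk (Tm.pi fun i => Tm.sumC _ fun j =>
        ((Tm.fst'.snd.app i).app j).mulC (Tm.snd'.app j))
    · exact Tm.sumC _ fun j => ((Tm.fst'.snd.app i).app j).mulC (Tm.snd'.app j)
  · rw [proj, eq_proj_iff]
    refine ⟨fun ⟨ha, h1, h2, h3⟩ => ⟨h1, ha, fun u => ?_, fun u hu i => ?_⟩,
      fun ⟨h1, ha, h2, h3⟩ => ⟨ha, h1, fun v => ?_, fun v hv => ?_⟩⟩
    · simpa only [mat_apply] using (eW a ha _).1 (h2 (WithLp.toLp 2 u))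
    · have := h3 (WithLp.toLp 2 u) ((eW a ha _).2 hu)
      rw [← mat_apply P (WithLp.toLp 2 u) i, this]
    · rw [eW a ha]
      simpa only [mat_apply] using h2 fun i => v i
    · ext i
      rw [mat_apply]
      exact h3 (fun i => v i) ((eW a ha v).1 hv) i

open Classical in
theorem graph_rc {k : ℕ} {A : Set (Fin k → ℂ)} {β : (Fin k → ℂ) → Sub σ ι} (h : Param M n A β) :
    RC fun w : (Fin k → ℂ) × (E σ ι d →L[ℂ] E σ ι d) => w.1 ∈ A ∧ w.2 = proj (β w.1) d := by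
  obtain ⟨G, g1, g2⟩ := exists_G (d := d) h
  simp only [g2]
  refine RC.bin And ((her_rc (I := ι × Mon σ d)).lin
    (ContinuousLinearMap.snd ℝ (Fin k → ℂ) (E σ ι d →L[ℂ] E σ ι d)))
    (gr_def g1 (g := fun w : (Fin k → ℂ) × (E σ ι d →L[ℂ] E σ ι d) => (w.1, mat w.2)) ?_)
  rintro _ (⟨_, ⟨i, _, rfl, rfl⟩, rfl⟩ | ⟨_, ⟨i, _, ⟨j, _, rfl, rfl⟩, rfl⟩, rfl⟩)
  · exact gr_lin (f := fun w : (Fin k → ℂ) × (E σ ι d →L[ℂ] E σ ι d) => w.1 i) (fun _ _ => rfl)
      (fun _ _ => rfl) (by fun_prop)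
  · exact gr_lin (f := fun w : (Fin k → ℂ) × (E σ ι d →L[ℂ] E σ ι d) => mat w.2 i j)
      (fun _ _ => rfl) (fun _ _ => rfl) (by unfold mat; fun_prop)

open Classical in
theorem image_rc {k : ℕ} {A : Set (Fin k → ℂ)} {β : (Fin k → ℂ) → Sub σ ι} (h : Param M n A β) :
    RC fun P : E σ ι d →L[ℂ] E σ ι d => ∃ a ∈ A, P = proj (β a) d := by
  obtain ⟨G, g1, g2⟩ := exists_G (d := d) h
  simp only [g2, exists_and_left]
  have g3 : Def fun m : ι × Mon σ d → ι × Mon σ d → ℂ => ∃ a : Fin k → ℂ, G (a, m) :=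
    Def.ex (g1.comp (h := fun p : _ × _ => (p.2, p.1)) (by fun_prop))
  refine RC.bin And her_rc (gr_def g3 (g := fun P : E σ ι d →L[ℂ] E σ ι d => mat P) ?_)
  rintro _ ⟨i, _, ⟨j, _, rfl, rfl⟩, rfl⟩
  exact mat_pf i j

end Pool.Agent.Lib.MP_d4c0ca_ag.T
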