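import Pool.Agent.Lib.MP_d4c0ca_ag.T.Rk
import Pool.Agent.Lib.MP_741c07_al.AS4

/-! The compactly supported Euler characteristic of locally closed sets. -/

namespace Pool.Agent.Lib.MP_d4c0ca_ag.T

open Set Filter Topology Pool.Agent.Lib.MP_741c07_al AS

variable {X X' : Type} [TopologicalSpace X] [TopologicalSpace X'] {Y F S : Set X} {Y' : Set X'}
  {φ : List X → ℚ} {i : ℤ} {a b : ℤ}

/-- Cochains with zero germ in `Y` along `S`. -/
def nul (Y S : Set X) : Submodule ℚ (List X → ℚ) := ⨅ x ∈ S, zs Y x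

theorem mem_nul : φ ∈ nul Y S ↔ ∀ x ∈ S, φ ∈ zs Y x := by simp only [nul, Submodule.mem_iInf]

/-- Dimension of compactly supported cohomology. -/
noncomputable def hc (Y : Set X) : ℤ → Cardinal := hh d (nul Y Y) (gr Y)

theorem bd_iff : φ ∈ Bd d (nul Y S) (gr Y) i ↔ Exa Y S i φ := by
  simp only [mem_Bd, mem_nul, Exa]

theorem zc_iff : φ ∈ Zc d (nul Y S) (gr Y) i ↔ φ ∈ gr Y i ∧ Clo Y S φ := by
  simp only [mem_Zc, mem_nul, Clo]

theorem hc_zero (h : Ex0 ℚ Y i) : hc Y i = 0 :=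
  rk_eq_zero fun φ hφ => bd_iff.2 (h φ (zc_iff.1 hφ).1 (zc_iff.1 hφ).2)

theorem hc_homeo {j : X → X'} {r : X' → X} (j1 : MapsTo j Y Y') (j2 : ContinuousOn j Y)
    (r1 : MapsTo r Y' Y) (r2 : ContinuousOn r Y') (hrj : ∀ y ∈ Y, r (j y) = y)
    (hjr : ∀ y ∈ Y', j (r y) = y) : hc Y' = hc Y := by
  have pj := Prp.of_inv j1 j2 r1 r2 hrj
  have pr := Prp.of_inv r1 r2 j1 j2 hjr
  refine funext fun i => rk_congr (pb j) (fun φ h => zc_iff.2 ⟨pb_gr pj (zc_iff.1 h).1,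
    (zc_iff.1 h).2.pb j1 j2 subset_rfl j1⟩) (fun φ _ => ⟨fun e => bd_iff.2 ((bd_iff.1 e).pb pj),
      fun e => bd_iff.2 (((bd_iff.1 e).pb pr).congr fun x _ => zs_of_van ?_ x)⟩) fun φ h =>
    ⟨pb r φ, zc_iff.2 ⟨pb_gr pr (zc_iff.1 h).1, (zc_iff.1 h).2.pb r1 r2 subset_rfl r1⟩,
      bd_iff.2 (Exa.of_zs fun x _ => zs_of_van ?_ x)⟩
  · rw [pb_pb]
    have := pb_congr (f := fun y => y) (fun y hy => (hjr y hy).symm) φ
    rwa [pb_id] at this
  · rw [pb_pb]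
    have := pb_congr (g := fun y => y) hrj φ
    rwa [pb_id] at this

theorem Gen.hc {η : List X → ℚ} (h : Gen Y i η) : hc Y i = 1 := by
  have := rk_congr (LinearMap.toSpanSingleton ℚ _ η) (B := ⊥) (Z := ⊤)
    (B' := Bd d (nul Y Y) (gr Y) i) (Z' := Zc d (nul Y Y) (gr Y) i)
    (fun c _ => Submodule.smul_mem _ c (zc_iff.2 ⟨h.mem, h.clo⟩))
    (fun c _ => ⟨fun e => by rw [show c = 0 from e, map_zero]; exact zero_mem _,
      fun e => h.uniq (bd_iff.1 e)⟩) fun φ hφ => by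
      obtain ⟨c, hc⟩ := h.span φ (zc_iff.1 hφ).1 (zc_iff.1 hφ).2
      exact ⟨c, trivial, bd_iff.2 (by simpa using hc.neg)⟩
  rw [rk_bot, rank_top, Module.rank_self] at this
  exact this.symm

/-- `Y` is locally closed, of finite type, with compactly supported Euler characteristic `c`. -/
def Chi (Y : Set X) (c : ℤ) : Prop := IsLocallyClosed Y ∧ Eu (hc Y) c

theorem Chi.uniq (h : Chi Y a) (h' : Chi Y b) : a = b := h.2.2.symm.trans h'.2.2

theorem Chi.of_ex (hY : IsLocallyClosed Y) (h : ∀ i, Ex0 ℚ Y i) : Chi Y 0 :=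
  ⟨hY, by rw [show hc Y = 0 from funext fun i => hc_zero (h i)]; exact eu_zero⟩

theorem Chi.empty : Chi (∅ : Set X) 0 := .of_ex isClosed_empty.isLocallyClosed fun _ => ex_empty

theorem Chi.homeo {j : X → X'} {r : X' → X} (hY : IsLocallyClosed Y) (j1 : MapsTo j Y Y')
    (j2 : ContinuousOn j Y) (r1 : MapsTo r Y' Y) (r2 : ContinuousOn r Y')
    (hrj : ∀ y ∈ Y, r (j y) = y) (hjr : ∀ y ∈ Y', j (r y) = y) (h : Chi Y' a) : Chi Y a :=
  ⟨hY, hc_homeo j1 j2 r1 r2 hrj hjr ▸ h.2⟩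

theorem Chi.preimage (e : X ≃ₜ X') (h : Chi Y' a) : Chi (e ⁻¹' Y') a :=
  h.homeo (j := e) (r := e.symm) (h.1.preimage e.continuous) (fun _ h => h)
    e.continuous.continuousOn
    (fun y h => show e (e.symm y) ∈ Y' by rwa [e.apply_symm_apply])
    e.symm.continuous.continuousOn    (fun _ _ => by simp) fun _ _ => by simp

variable [T2Space X] [LocallyCompactSpace X]

theorem Chi.point (x : X) : Chi {x} 1 := by
  have hx : IsLocallyClosed {x} := isClosed_singleton.isLocallyClosed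
  obtain ⟨η, h⟩ := gen_point (k := ℚ) x
  refine ⟨hx, eu_one (Gen.hc h) fun i hi => hc_zero fun φ h1 h2 => ?_⟩
  obtain ⟨C, -, -, h3, h4⟩ := loc_exact hx rfl h1.1 (Or.inl hi) (h2 x rfl) isOpen_univ trivial
  exact ⟨_, h3, by rintro _ rfl; exact h4⟩

theorem hc_open (hY : IsLocallyClosed Y) (hF : IsClosed F) :
    hh d (nul Y Y) (fun i => gr Y i ⊓ nul Y (Y ∩ F)) = hc (Y \ F) := by
  refine funext fun i => rk_congr LinearMap.id (fun φ h => zc_iff.2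
    ⟨res_open h.1.1 (mem_nul.1 h.1.2), fun x hx => zs_mono sdiff_subset (mem_nul.1 h.2 x hx.1)⟩)
    (fun φ h => ⟨fun e => ?_, fun e => ?_⟩) fun φ h => ?_
  · obtain ⟨ψ, h1, h2⟩ := mem_Bd.1 e
    exact bd_iff.2 ⟨ψ, res_open h1.1 (mem_nul.1 h1.2),
      fun x hx => zs_mono sdiff_subset (mem_nul.1 h2 x hx.1)⟩
  · obtain ⟨ψ, h1, h2, h3⟩ := exa_open hY hF (bd_iff.1 e) (mem_nul.1 h.1.2)
    exact mem_Bd.2 ⟨ψ, ⟨h1, mem_nul.2 h3⟩, mem_nul.2 h2⟩
  · obtain ⟨ψ, h1, h2, h3⟩ := ext_open hY hF (zc_iff.1 h).1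
    exact ⟨ψ, ⟨⟨h1, mem_nul.2 h3⟩, mem_nul.2 (clo_ext hF (zc_iff.1 h).2 h2 h3)⟩,
      bd_iff.2 (Exa.of_zs fun x hx => zs_mono sdiff_subset (h2 x hx))⟩

theorem hc_closed (hY : IsLocallyClosed Y) (hF : IsClosed F) :
    hh d (nul Y (Y ∩ F)) (gr Y) = hc (Y ∩ F) := by
  refine funext fun i => rk_congr LinearMap.id (fun φ h => zc_iff.2
    ⟨res_closed hF h.1, fun x hx => zs_mono inter_subset_left ((zc_iff.1 h).2 x hx)⟩)
    (fun φ h => ⟨fun e => ?_, fun e => bd_iff.2 (r0 hY hF h.1 (zc_iff.1 h).2 (bd_iff.1 e))⟩)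
    fun φ h => ?_
  · obtain ⟨ψ, h1, h2⟩ := bd_iff.1 e
    exact bd_iff.2 ⟨ψ, res_closed hF h1, fun x hx => zs_mono inter_subset_left (h2 x hx)⟩
  · obtain ⟨ψ, h1, h2, h3⟩ := lift hY hF (zc_iff.1 h).1 (zc_iff.1 h).2
    exact ⟨ψ, zc_iff.2 ⟨h1, h2⟩, bd_iff.2 (Exa.of_zs h3)⟩

theorem hc_les (hY : IsLocallyClosed Y) (hF : IsClosed F) : ∃ a b c : ℤ → Cardinal,
    hc (Y \ F) = c + a ∧ hc Y = a + b ∧ hc (Y ∩ F) = b + fun i => c (i + 1) := by
  rw [← hc_open hY hF, ← hc_closed hY hF]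
  exact les (fun _ _ => d_gr) (fun _ φ _ => dd φ) fun φ h =>
    mem_nul.2 fun x hx => mem_nul.1 h x hx.1

theorem Chi.add (hY : IsLocallyClosed Y) (hF : IsClosed F) (h1 : Chi (Y ∩ F) a)
    (h2 : Chi (Y \ F) b) : Chi Y (a + b) := by
  obtain ⟨u, v, w, e1, e2, e3⟩ := hc_les hY hF
  exact ⟨hY, by rw [e2, add_comm a]; exact Eu.mid (e1 ▸ h2.2) (e3 ▸ h1.2)⟩

theorem Chi.sub (hF : IsClosed F) (h : Chi Y a) (h1 : Chi (Y ∩ F) b) : Chi (Y \ F) (a - b) := by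
  obtain ⟨u, v, w, e1, e2, e3⟩ := hc_les h.1 hF
  exact ⟨h.1.inter hF.isOpen_compl.isLocallyClosed,
    by rw [e1]; exact Eu.left (e2 ▸ h.2) (e3 ▸ h1.2)⟩

/-- Additivity for a union in which the first set is closed. -/
theorem Chi.union {Z D : Set X} (hY : IsLocallyClosed (Z ∪ D)) (hd : Disjoint (closure Z) D)
    (h1 : Chi Z a) (h2 : Chi D b) : Chi (Z ∪ D) (a + b) := by
  refine Chi.add hY isClosed_closure (F := closure Z) ?_ ?_
  · rwa [union_inter_distrib_right, inter_eq_left.2 subset_closure, hd.symm.inter_eq, union_empty]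
  · rwa [union_sdiff_distrib, sdiff_eq_empty.2 subset_closure, empty_union, hd.symm.sdiff_eq_left]

theorem Chi.sub' {Z D : Set X} (hd : Disjoint (closure Z) D) (h : Chi (Z ∪ D) a) (h1 : Chi Z b) :
    Chi D (a - b) := by
  have := h.sub (F := closure Z) isClosed_closure (b := b) (by
    rwa [union_inter_distrib_right, inter_eq_left.2 subset_closure, hd.symm.inter_eq, union_empty])
  rwa [union_sdiff_distrib, sdiff_eq_empty.2 subset_closure, empty_union, hd.symm.sdiff_eq_left]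
    at this

theorem ex0_Ici (b : ℝ) (i : ℤ) : Ex0 ℚ (Ici b) i :=
  ex0_homeo (Y' := Iic (-b)) (j := fun t => -t) (r := fun t => -t) (fun t h => by simpa using h)
    (by fun_prop) (fun t h => le_neg.1 (mem_Iic.1 h)) (by fun_prop) (fun _ _ => by simp)
    (fun _ _ => by simp) (ex0_Iic _ i)

/-- A locally closed subset of `ℝ × X` whose slices have no cohomology has none. -/
theorem Chi.of_slices {Y : Set (ℝ × X)} (hY : IsLocallyClosed Y)
    (h : ∀ x i, Ex0 ℚ {t | (t, x) ∈ Y} i) : Chi Y 0 :=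
  .of_ex hY fun _ => ex_triv.mp (ex_fib (f := Prod.snd) hY (stb_triv _) continuousOn_snd
    (fun _ _ _ => rfl) fun c j _ => Ex0.ex (ex0_homeo (j := Prod.fst) (r := fun t => (t, c))
      (Y := Y ∩ Prod.snd ⁻¹' {c})
      (fun w hw => show (w.1, c) ∈ Y from (show w.2 = c from hw.2) ▸ hw.1) (by fun_prop)
      (fun _ h => ⟨h, rfl⟩) (by fun_prop) (fun _ h => Prod.ext rfl h.2.symm) (fun _ _ => rfl)
      (h c j)) _)

end Pool.Agent.Lib.MP_d4c0ca_ag.T
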