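import Pool.Agent.Lib.MP_d4c0ca_ag.T.Defs
import Pool.Agent.Lib.MP_d4c0ca_ag.T.Chi
import Pool.Agent.Lib.MP_741c07_al.Bridge

/-! Sheaf cohomology of a compact Hausdorff space is Alexander-Spanier cohomology. -/

namespace Pool.Agent.Lib.MP_d4c0ca_ag.T

open Set Filter Topology CategoryTheory TopologicalSpace Opposite Pool.Agent.Lib.MP_741c07_al

section abs

variable {B N N' : Type} [TopologicalSpace B] [AddCommGroup N] [Module ℚ N] [AddCommGroup N']
  [Module ℚ N']

/-- Functions which are constant near `b`. -/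
def cg (b : B) : Submodule ℚ (B → ℚ) where
  carrier := {f | ∀ᶠ y in 𝓝 b, f y = f b}
  zero_mem' := Eventually.of_forall fun _ => rfl
  add_mem' := fun {f g} h h' => (Eventually.and h h').mono fun y e => by
    rw [Pi.add_apply, Pi.add_apply, e.1, e.2]
  smul_mem' := fun c f h => Eventually.mono h fun y e => by
    rw [Pi.smul_apply, Pi.smul_apply, e]

theorem exists_hub_cg (B : Type) [TopologicalSpace B] :
    ∃ (N : Type) (_ : AddCommGroup N) (_ : Module ℚ N) (V : Cx ℚ B N), IsHub id cg V := by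
  refine exists_hub id Function.surjective_id cg (fun b f ⟨V, hV, h⟩ => ?_) (fun f => ?_)
    fun b f hf h => ⟨_, hf, fun g hg => hg.trans (h b rfl)⟩
  · exact mem_of_superset hV fun y hy => (h y hy).trans (h b (mem_of_mem_nhds hV)).symm
  · exact isOpen_iff_mem_nhds.2 fun b hb => (eventually_eventually_nhds.2 hb).mono fun c hc =>
      hc.mono fun y hy => hy.trans hc.self_of_nhds.symm

theorem res_of_unit (K : Cx ℚ B N) (hp : K.Pr) (hex : ∀ b i, i ≠ 0 → K.Ex {b} i) {u : N}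
    (h0 : u ∈ K.gr 0) (h1 : K.d u = 0) (h2 : ∀ b, u ∉ K.n b)
    (h3 : ∀ b, ∀ x ∈ K.gr 0, K.d x ∈ K.n b → ∃ c : ℚ, x - c • u ∈ K.n b)
    (h4 : ∀ y ∈ K.gr (0 - 1), y = 0) : Res id cg K 0 := by
  have z : ∀ b (c : ℚ), c • u ∈ K.n b → c = 0 := fun b c h => by_contra fun e =>
    h2 b (((K.n b).smul_mem_iff e).1 h)
  refine ⟨hp, hex, fun g => (K.n g).comap (LinearMap.fst ℚ N ℚ -
    LinearMap.toSpanSingleton ℚ N u ∘ₗ LinearMap.snd ℚ N ℚ), fun g x hx h => h3 g x hx h,
    fun g c h => z g c (by simpa using h), fun g x _ h => by simpa using h,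
    fun g y hy => by simp [h4 y hy], fun b x hx h f hf => ?_,
    fun b x _ _ h => ⟨0, zero_mem _, by simpa using h b rfl⟩, fun b f _ =>
      ⟨f b • u, Submodule.smul_mem _ _ h0, by simp [h1], ?_⟩⟩
  · have a1 := (K.op _ _ (K.dgr _ x hx)).mem_nhds h
    have a2 := (K.op _ _ (sub_mem hx (Submodule.smul_mem _ (f b) h0))).mem_nhds (hf b h)
    refine (Eventually.and a1 a2).mono fun y e => sub_eq_zero.1 (z y _ ?_)
    have a3 : x - f y • u ∈ K.n y := hf y e.1
    exact Cx.mem_eq (sub_mem e.2 a3) (by rw [sub_smul]; abel)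
  · rintro _ rfl
    simp

/-- Elements all of whose germs vanish. -/
def N0 (K : Cx ℚ B N) : Submodule ℚ N := ⨅ b ∈ (univ : Set B), K.n b

theorem mem_N0 {K : Cx ℚ B N} {x : N} : x ∈ N0 K ↔ ∀ b ∈ (univ : Set B), x ∈ K.n b := by
  simp only [N0, Submodule.mem_iInf]

theorem hh_hom {K : Cx ℚ B N} {V : Cx ℚ B N'} (Φ : Cx.Hom K V 0) (h : ∀ i, Φ.cone.Ex univ i)
    (i : ℤ) : hh K.d (N0 K) K.gr i = hh V.d (N0 V) V.gr i := by
  have g : ∀ i, ∀ x ∈ K.gr i, Φ.f x ∈ V.gr i := fun i x hx => Φ.gr i x (by rwa [add_zero])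
  refine rk_congr Φ.f (fun x hx => ⟨g i x hx.1, mem_N0.2 fun b hb => ?_⟩)
    (fun x hx => ⟨fun e => ?_, fun e => ?_⟩) fun y hy => ?_
  · rw [← Φ.comm i x hx.1]
    exact Φ.loc _ b _ (K.dgr i x hx.1) (mem_N0.1 hx.2 b hb)
  · obtain ⟨y, hy, e⟩ := mem_Bd.1 e
    refine mem_Bd.2 ⟨Φ.f y, g _ y hy, mem_N0.2 fun b hb => ?_⟩
    rw [← Φ.comm _ y hy, ← map_sub]
    exact Φ.loc i b _ (sub_mem (K.dgr' hy) hx.1) (mem_N0.1 e b hb)
  · obtain ⟨y, hy, e⟩ := mem_Bd.1 e
    obtain ⟨x', a, a'⟩ := Φ.inj (h (i - 1)) (x := x) (by rw [add_zero]; exact hx.1)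
      (mem_N0.1 hx.2) hy (mem_N0.1 e)
    exact mem_Bd.2 ⟨x', by rwa [add_zero] at a, mem_N0.2 a'⟩
  · obtain ⟨x, a, y', a', b1, b2⟩ := Φ.surj (h i) hy.1 (mem_N0.1 hy.2)
    refine ⟨x, ⟨by rwa [add_zero] at a, mem_N0.2 b1⟩, mem_Bd.2 ⟨-y', neg_mem a',
      mem_N0.2 fun b hb => ?_⟩⟩
    rw [map_neg]
    exact Cx.mem_eq (neg_mem (b2 b hb)) (by abel)

theorem rank_homology (S : ShortComplex (ModuleCat.{0} ℚ)) :
    Module.rank ℚ S.homology = rk (LinearMap.range S.f.hom) (LinearMap.ker S.g.hom) := by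
  rw [S.moduleCatHomologyIso.toLinearEquiv.rank_eq, rk, ← LinearMap.range_domRestrict,
    ← (LinearMap.quotKerEquivRange _).rank_eq]
  refine (Submodule.quotEquivOfEq _ _ ?_).rank_eq
  ext ⟨x, hx⟩
  refine Iff.trans ?_ (Submodule.Quotient.mk_eq_zero (LinearMap.range S.f.hom)).symm
  exact ⟨fun ⟨y, e⟩ => ⟨y, congrArg Subtype.val e⟩, fun ⟨y, e⟩ => ⟨y, Subtype.ext e⟩⟩

end abs

section as

open AS

/-- The Alexander-Spanier complex as a complex of sheaves. -/
def asx (X : Type) [TopologicalSpace X] : Cx ℚ X (List X → ℚ) where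
  d := d
  gr := gr univ
  n := zs univ
  dd _ φ _ := dd φ
  dgr _ _ h := d_gr h
  dn _ _ _ _ h := d_zs h
  op _ φ _ := isOpen_iff_mem_nhds.2 fun b h => by
    have := zs_ev h
    rwa [nhdsWithin_univ] at this

variable {X : Type} [TopologicalSpace X]

theorem asx_low : (asx X).Low := ⟨0, fun _ hi φ h _ => by rw [len_neg hi h.1]; exact zero_mem _⟩

theorem asx_cut (i : ℤ) : (asx X).Cut i := fun S φ h =>
  ⟨cut S φ, cut_gr S h, fun _ hb => cut_zs_in (mem_nhdsWithin_of_mem_nhds hb) h.1,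
    fun _ hb => cut_zs_out (mem_nhdsWithin_of_mem_nhds hb) φ, fun _ hb => cut_zs S hb⟩

theorem asx_res [T2Space X] [CompactSpace X] : Res id cg (asx X) 0 := by
  have l : IsLocallyClosed (univ : Set X) := isOpen_univ.isLocallyClosed
  let u : List X → ℚ := fun l => if l.length = 1 then 1 else 0
  have hu : u ∈ Len 0 := fun l hl => if_neg fun e => hl ⟨le_rfl, by simp [e]⟩
  have du : d u = 0 := funext fun l => by
    rcases l with _ | ⟨x, _ | ⟨y, _ | ⟨z, l⟩⟩⟩
    · rfl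
    · exact d_len hu _ (by simp)
    · rw [d_two]; simp [u]
    · exact d_len hu _ (by simp; omega)
  refine res_of_unit _ ?_ (fun b i hi φ h hd => ?_) (u := u) ⟨hu, cs_of_compact isCompact_univ _⟩ du
    (fun b ⟨U, hU, h⟩ => ?_) (fun b φ h hd => ⟨φ [b], ?_⟩) fun φ h => len_neg (by simp) h.1
  · obtain ⟨p, hp⟩ := cx_pr (k := ℚ) (E := ⊤) (hE := fun _ _ => trivial) (Y := (univ : Set X))
      (hf := continuousOn_id)
    exact ⟨p, fun i x hx => hp i x ⟨hx, trivial⟩⟩
  · obtain ⟨C, -, -, h3, h4⟩ := loc_exact l trivial h.1 (Or.inl hi) (hd b rfl) isOpen_univ trivial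
    exact ⟨_, h3, by rintro _ rfl; exact h4⟩
  · have := h [b] (by simpa using mem_of_mem_nhdsWithin (mem_univ b) hU)
    simp [u] at this
  · obtain ⟨C, -, -, h3, h4⟩ := loc_exact (x := b) l trivial
      (sub_mem h.1 (Submodule.smul_mem _ (φ [b]) hu)) (Or.inr (by simp [u]))
      (by rw [map_sub, map_smul, du, smul_zero, sub_zero]; exact hd) isOpen_univ trivial
    rw [len_neg (by simp) h3.1, map_zero, zero_sub] at h4
    exact neg_mem_iff.1 h4

end as

section sh

open BR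

/-- The constant sheaf. -/
noncomputable def CS (Y : TopCat.{0}) : Sh ℚ Y :=
  (constantSheaf (Opens.grothendieckTopology Y) (ModuleCat.{0} ℚ)).obj (ModuleCat.of ℚ ℚ)

variable {Y : TopCat.{0}}

/-- Constant sections. -/
noncomputable def cs (U : Opens Y) : ℚ →ₗ[ℚ] (CS Y).obj.obj (op U) :=
  ((toSheafify (Opens.grothendieckTopology Y)
    ((Functor.const (Opens Y)ᵒᵖ).obj (ModuleCat.of ℚ ℚ))).app (op U)).hom

theorem rs_cs {U V : Opens Y} (h : V ≤ U) (c : ℚ) : rs _ h (cs U c) = cs V c :=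
  ((toSheafify (Opens.grothendieckTopology Y)
    ((Functor.const (Opens Y)ᵒᵖ).obj (ModuleCat.of ℚ ℚ))).naturality_apply (homOfLE h).op c).symm

theorem cs_ne {U : Opens Y} {y : Y} (hy : y ∈ U) : cs U 1 ≠ 0 := fun e => by
  obtain ⟨V, f, h, -⟩ := Presheaf.equalizerSieve_mem (Opens.grothendieckTopology Y)
    (toSheafify (Opens.grothendieckTopology Y)
      ((Functor.const (Opens Y)ᵒᵖ).obj (ModuleCat.of ℚ ℚ))) (X := op U) (1 : ℚ) (0 : ℚ)
    (e.trans (map_zero (cs U)).symm) y hy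
  exact one_ne_zero (α := ℚ) h

theorem cs_loc {U : Opens Y} {y : Y} (hy : y ∈ U) (s : (CS Y).obj.obj (op U)) :
    ∃ (V : Opens Y) (_ : y ∈ V) (i : V ≤ U) (c : ℚ), cs V c = rs _ i s := by
  obtain ⟨V, f, ⟨c, h⟩, m⟩ := Presheaf.imageSieve_mem (Opens.grothendieckTopology Y)
    (toSheafify (Opens.grothendieckTopology Y)
      ((Functor.const (Opens Y)ᵒᵖ).obj (ModuleCat.of ℚ ℚ))) (U := op U) s y hy
  exact ⟨V, m, f.le, c, h⟩

theorem cs_res (J : InjectiveResolution (CS Y)) : Res id cg (dat J).tot 0 := by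
  let a : CS Y ⟶ J.cocomplex.X 0 := J.ι.f 0
  have inj : ∀ V, Function.Injective (ap a V) := fun V => by
    have : Mono a := inferInstanceAs (Mono (J.ι.f 0))
    have : Mono a.hom := (TopCat.Sheaf.forget _ _).map_mono a
    exact (ModuleCat.mono_iff_injective (a.hom.app (op V))).1 inferInstance
  have hu := single_hom (k := ℚ) (T := fun j => (J.cocomplex.X j).obj.obj (op ⊤)) (i := 0) rfl
    (ap a ⊤ (cs ⊤ 1))
  refine res_of_unit _ (Dat.pr _) (dat_ex J) hu ?_ (fun b h => ?_) (fun b x hx h => ?_)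
    fun y hy => hom_neg (by simp) hy
  · exact ((dat J).d_single _ _).trans ((congrArg _ (ap_ap J.ι_f_zero_comp_complex_d ⊤ _)).trans
      (Pi.single_zero _))
  · obtain ⟨U, m, e⟩ := mem_ng.1 ((Dat.single_n _ _ _ _).1 h)
    rw [← ap_rs, rs_cs] at e
    exact cs_ne m (inj U (e.trans (map_zero _).symm))
  · obtain ⟨U, m, e⟩ := mem_ng.1 (h 1 trivial)
    obtain ⟨V, hV, i, t, ht⟩ := (exact_iff _ b).1 ((TopCat.Sheaf.exact_iff_stalkFunctor_map_exact
      _).1 J.exact₀ b) U m (rs _ le_top (x 0)) ((ap_rs _ _ _).trans e)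
    obtain ⟨W, hW, i', c, hc⟩ := cs_loc hV t
    refine ⟨c, (Dat.mem_n _ (j := 0) rfl (sub_mem hx (Submodule.smul_mem _ c hu)) b).2
      (mem_ng.2 ⟨W, hW, ?_⟩)⟩
    rw [Pi.sub_apply, Pi.smul_apply, Pi.single_eq_same, map_sub, map_smul, ← ap_rs, rs_cs,
      ← map_smul, ← map_smul, smul_eq_mul, mul_one, hc, ap_rs, sub_eq_zero]
    exact ((congrArg _ (ht.trans (rs_rs _ _ _ _))).trans (rs_rs _ _ _ _)).symm

theorem rank_dat {E : Sh ℚ Y} (J : InjectiveResolution E) (i : ℕ) :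
    Module.rank ℚ (((Γ Y).rightDerived i).obj E) =
      hh (dat J).tot.d (N0 (dat J).tot) (dat J).tot.gr i := by
  let C := ((Γ Y).mapHomologicalComplex _).obj J.cocomplex
  have z : ∀ x, x ∈ N0 (dat J).tot → x = 0 := fun x h => funext fun j =>
    sec_ext _ fun y _ => (mem_N0.1 h y trivial j trivial).trans (map_zero _).symm
  have : ∀ p q, p = i - 1 → q = i + 1 → Module.rank ℚ (C.sc' p i q).homology =
      hh (dat J).tot.d (N0 (dat J).tot) (dat J).tot.gr i := by
    rintro _ _ rfl rfl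
    rw [rank_homology]
    have sh := fun t => single_hom (k := ℚ) (T := fun j => (J.cocomplex.X j).obj.obj (op ⊤))
      (i := i) rfl t
    have s := Pi.single_eq_same (M := fun j => (J.cocomplex.X j).obj.obj (op ⊤)) i
    refine rk_congr (LinearMap.single ℚ (fun j => (J.cocomplex.X j).obj.obj (op ⊤)) i)
      (fun x hx => mem_Zc.2 ⟨sh x, Cx.mem_eq (zero_mem _) ?_⟩) (fun x _ => ⟨?_, fun e => ?_⟩) fun y hy => ?_
    · exact ((dat J).d_single _ _).trans ((congrArg _ hx).trans (Pi.single_zero _))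
    · rintro ⟨t, rfl⟩
      rcases i with _ | i
      · have : (C.sc' (0 - 1) 0 (0 + 1)).f = 0 := C.shape _ _ (by simp)
        rw [this]
        exact Cx.mem_eq (zero_mem _) (map_zero _)
      · exact Submodule.mem_sup_right ⟨Pi.single i t, single_hom
          (T := fun j => (J.cocomplex.X j).obj.obj (op ⊤)) (by simp) t, (dat J).d_single _ _⟩
    · obtain ⟨y, hy, e⟩ := mem_Bd.1 e
      have e' := congrFun (sub_eq_zero.1 (z _ e)) i
      rcases i with _ | i
      · exact Cx.mem_eq (zero_mem _) (e'.trans (s x)).symm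
      · exact ⟨y i, e'.trans (s x)⟩
    · exact ⟨y i, congrFun (z _ hy.2) (i + 1),
        Cx.mem_eq (zero_mem _) (sub_eq_zero.2 (hom_nat hy.1).symm)⟩
  exact (J.isoRightDerivedObj (Γ Y) i).toLinearEquiv.rank_eq.trans
    (this _ _ (by rcases i with _ | i <;> simp) (CochainComplex.next ℕ i))

end sh

theorem H_rank (X : Type) [TopologicalSpace X] [T2Space X] [CompactSpace X] (i : ℕ) :
    Module.rank ℚ (H (TopCat.of X) i) = hc (univ : Set X) i := by
  obtain ⟨N, _, _, V, hV⟩ := exists_hub_cg X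
  let J := injectiveResolution (CS (TopCat.of X))
  obtain ⟨Φ, hΦ⟩ := hV.univ _ _ 0 (cs_res J)
  obtain ⟨Ψ, hΨ⟩ := hV.univ _ _ 0 (asx_res (X := X))
  have a := hh_hom Φ (fun j => Φ.cone.ex_flab (Φ.cone_low (BR.Dat.low _) hV.low)
    (Φ.cone_flab (BR.dat_flab J) hV.flab) univ (fun b _ => hΦ b) j univ subset_rfl isOpen_univ) i
  have b := hh_hom Ψ (fun j => Ψ.cone.ex_cpt (Ψ.cone_low asx_low hV.low)
    (Ψ.cone_cut asx_cut hV.cut) univ j (fun b _ l _ => hΨ b l) j le_rfl univ subset_rfl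
    isCompact_univ) i
  exact (rank_dat J i).trans (a.trans b.symm)

theorem Chi.euler {X Z : Type} [TopologicalSpace X] [TopologicalSpace Z] [T2Space Z] {f : X → Z}
    (hf : Topology.IsEmbedding f) (hc : IsCompact (range f)) {c : ℤ} (h : Chi (range f) c) :
    FinType (TopCat.of X) ∧ eulerChar (TopCat.of X) = c := by
  have := hf.t2Space
  have : CompactSpace X := ⟨hf.isInducing.isCompact_iff.2 (by rwa [image_univ])⟩
  have e : T.hc (range f) = T.hc (univ : Set X) := by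
    rcases isEmpty_or_nonempty X with hX | hX
    · rw [range_eq_empty, univ_eq_empty_iff.2 hX]
      exact funext fun i => (hc_zero AS.ex_empty).trans (hc_zero AS.ex_empty).symm
    · exact hc_homeo (r := Function.invFun f) (fun x _ => ⟨x, rfl⟩) hf.continuous.continuousOn
        (mapsTo_univ _ _) (hf.isInducing.continuousOn_iff.2
          (continuousOn_id.congr fun _ hx => Function.invFun_eq hx))
        (fun x _ => Function.leftInverse_invFun hf.injective x) fun _ hx => Function.invFun_eq hx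
  obtain ⟨⟨h1, h2⟩, h3⟩ := e ▸ h.2
  refine ⟨⟨fun i => Module.rank_lt_aleph0_iff.1 (H_rank X i ▸ h1 i),
    (h2.preimage (f := fun i : ℕ => (i : ℤ)) Nat.cast_injective.injOn).subset fun i hi => ?_⟩, ?_⟩
  · have : Nontrivial (H (TopCat.of X) i) := hi
    exact fun e => (rank_pos (R := ℚ) (M := H (TopCat.of X) i)).ne' ((H_rank X i).trans e)
  · rw [← h3, alt, ← finsum_mem_univ, ← finsum_mem_inter_support, univ_inter,
      ← inter_eq_right.2 (show Function.support _ ⊆ range fun i : ℕ => (i : ℤ) from fun i hi => ?_),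
      finsum_mem_inter_support, finsum_mem_range Nat.cast_injective]
    · exact finsum_congr fun i => by rw [← H_rank, Int.coe_negOnePow_natCast]; rfl
    · by_contra e
      refine hi ?_
      have : i < 0 := not_le.1 fun l => e ((Int.eq_ofNat_of_zero_le l).imp fun _ => Eq.symm)
      simp [hc_zero (AS.ex_neg this)]

end Pool.Agent.Lib.MP_d4c0ca_ag.T
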