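import Pool.Agent.Lib.MP_d4c0ca_ag.T.Int
import Pool.Agent.Lib.MP_d4c0ca_ag.T.Cmp
import Pool.Agent.Lib.MP_d4c0ca_ag.T.Gr
import Pool.Agent.Lib.MP_d4c0ca_ag.T.Sheaf
import Pool.Agent.Lib.MP_d4c0ca_ag.T.Graph

/-! The topological Euler characteristic of the Quot scheme equals the Euler integral. -/

namespace Pool.Agent.Lib.MP_d4c0ca_ag.T

open Set

theorem EInt.graph (J : EInt) {T X : Type} [NormedAddCommGroup T] [NormedSpace ℝ T]
    [FiniteDimensional ℝ T] [NormedAddCommGroup X] [NormedSpace ℝ X] [FiniteDimensional ℝ X]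
    {A : Set T} {g : T → X} (inj : InjOn g A) (hΓ : RC fun w : T × X => w.1 ∈ A ∧ w.2 = g w.1)
    (hA : RC (· ∈ A)) (hB : RC fun x => ∃ a ∈ A, x = g a) :
    J.I T (fun t => ind (t ∈ A)) = J.I X fun x => ind (∃ a ∈ A, x = g a) := by
  have e1 : (fun x => J.I T fun t => ind (t ∈ A ∧ x = g t)) = fun x => ind (∃ a ∈ A, x = g a) := by
    funext x
    by_cases h : ∃ a ∈ A, x = g a
    · rw [ind_pos h]
      obtain ⟨a, ha, rfl⟩ := h
      rw [← J.pt T a]
      exact congrArg _ (funext fun t => ind_congr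
        ⟨fun h => inj h.1 ha h.2.symm, by rintro rfl; exact ⟨ha, rfl⟩⟩)
    · rw [ind_neg h, ← J.zero (X := T)]
      exact congrArg _ (funext fun t => ind_neg fun e => h ⟨t, e⟩)
  have e2 : (fun t => J.I X fun x => ind (t ∈ A ∧ x = g t)) = fun t => ind (t ∈ A) := by
    funext t
    by_cases h : t ∈ A
    · rw [ind_pos h, ← J.pt X (g t)]
      exact congrArg _ (funext fun x => ind_congr (and_iff_right h))
    · rw [ind_neg h, ← J.zero (X := X)]
      exact congrArg _ (funext fun x => ind_neg fun e => h e.1)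
  have f1 := J.fub T X _ (hΓ.map ind) (e1 ▸ hB.map ind)
  have f2 := J.fub X T _ ((hΓ.map ind).lin (ContinuousLinearEquiv.prodComm ℝ X T : X × T →L[ℝ] _))
    (show RC fun t => J.I X fun x => ind (t ∈ A ∧ x = g t) from e2 ▸ hA.map ind)
  have f3 := J.lin _ _ (ContinuousLinearEquiv.prodComm ℝ X T) _ (hΓ.map ind)
  rw [← e1, ← e2]
  exact f2.symm.trans (f3.trans f1)

variable {σ ι : Type} [Fintype σ] [DecidableEq σ] [Fintype ι] {M : Sub σ ι} {n d : ℕ}

theorem quot_chi (hM : Graded M) (hd : n < d) {k : ℕ} {A : Set (Fin k → ℂ)}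
    {β : (Fin k → ℂ) → Sub σ ι} (h : Param M n A β) :
    Chi ((fun K : Sub σ ι => proj K d) '' QuotPts M n) (chi A) := by
  obtain ⟨J⟩ := exists_EInt
  have e : ∀ P, P ∈ (fun K : Sub σ ι => proj K d) '' QuotPts M n ↔ ∃ a ∈ A, P = proj (β a) d :=
    fun P => ⟨fun ⟨K, hK, e⟩ => let ⟨a, ha, e'⟩ := h.2.1.surjOn hK; ⟨a, ha, by rw [e', ← e]⟩,
      fun ⟨a, ha, e⟩ => ⟨β a, h.2.1.mapsTo ha, e.symm⟩⟩
  obtain ⟨c, h1, h2⟩ := J.top _ _ (proj_compact hM hd.le).isClosed.isLocallyClosed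
    (by simpa only [e] using image_rc h)
  have h3 := J.graph (g := fun a => proj (β a) d) (fun a ha b hb e => h.2.1.injOn ha hb
    (proj_inj hd (h.2.1.mapsTo ha) (h.2.1.mapsTo hb) e)) (graph_rc h)
    (Constructible.rc h.1 (h := id)
      (fun i => PF.lin (Complex.reCLM.comp (ContinuousLinearMap.proj (φ := fun _ => ℂ) i)))
      fun i => PF.lin (Complex.imCLM.comp (ContinuousLinearMap.proj (φ := fun _ => ℂ) i)))
    (image_rc h)
  simp only [e] at h2
  rwa [show chi A = c from Int.cast_injective (α := ℚ) (((J.eq_chi h.1).symm.trans h3).trans h2)]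

theorem top_main (hM : Graded M) (hdim : ∃ C : ℕ, ∀ d, hilb M d ≤ C * (d + 1)) (d : ℕ → ℕ)
    (hd : ∀ n, n < d n) :
    (∀ n, IsCompact ((fun K : Sub σ ι => proj K (d n)) '' QuotPts M n) ∧
      FinType (TopCat.of ((fun K : Sub σ ι => proj K (d n)) '' QuotPts M n))) ∧
    ∃ P R : Polynomial ℚ, R.coeff 0 ≠ 0 ∧ (R : PowerSeries ℚ) * PowerSeries.mk (fun n =>
      (eulerChar (TopCat.of ((fun K : Sub σ ι => proj K (d n)) '' QuotPts M n)) : ℚ)) = P := by
  obtain ⟨a, h1, h2⟩ := main hM hdim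
  have key : ∀ n, FinType (TopCat.of ((fun K : Sub σ ι => proj K (d n)) '' QuotPts M n)) ∧
      eulerChar (TopCat.of ((fun K : Sub σ ι => proj K (d n)) '' QuotPts M n)) = a n := fun n => by
    obtain ⟨k, A, β, h⟩ := (h1 n).1
    refine Chi.euler Topology.IsEmbedding.subtypeVal ?_ ?_ <;> rw [Subtype.range_coe]
    exacts [proj_compact hM (hd n).le, (h1 n).2 k A β h ▸ quot_chi hM (hd n) h]
  exact ⟨fun n => ⟨proj_compact hM (hd n).le, (key n).1⟩, by simpa only [(key _).2] using h2⟩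

end Pool.Agent.Lib.MP_d4c0ca_ag.T
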