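import Pool.Agent.Lib.MP_d4c0ca_ag.T.SubObj
import Pool.Agent.Lib.MP_d4c0ca_ag.T.SatSub
import Pool.Agent.Lib.MP_d4c0ca_ag.T.Len
import Pool.Agent.Lib.MP_d4c0ca_ag.T.Supp
import Pool.Agent.Lib.MP_d4c0ca_ag.T.Grow
import Pool.Agent.Lib.MP_d4c0ca_ag.T.Gens
import Pool.Agent.Lib.MP_d4c0ca_ag.T.Top

/-! Assembly of the statement on schemes. -/

namespace Pool.Agent.Lib.MP_d4c0ca_ag.T

open CategoryTheory AlgebraicGeometry MvPolynomial
open Pool.Agent.Lib.MP_cd184e_ag.B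

variable {S σ ι : Type} [CommRing S] [Algebra ℂ S] {𝒜 : ℕ → Submodule ℂ S} [GradedAlgebra 𝒜]
  {x : σ → S} {hx : ∀ l, x l ∈ 𝒜 1} {G : CohCat (AlgebraicGeometry.Proj 𝒜)} [Fintype ι]
  [Fintype σ] [DecidableEq σ]

theorem Gens.dict (hgen : Algebra.adjoin ℂ (Set.range x) = ⊤) (γ : Gens hx G ι) :
    ∃ Φ : Subobject G ≃ SatSub (hom γ.ker), (∀ K d, proj (γ.pull K) d = proj (Φ K).1 d) ∧
      ∀ K n, K ∈ QuotSet G n ↔ (Φ K).1 ∈ QuotPts (hom γ.ker) n := by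
  obtain ⟨Ψ, h1⟩ := exists_csub G (fun j => AlgebraicGeometry.Proj.basicOpen 𝒜 (x j))
    (chart_aff hx) (chart_cover hx hgen) (fun j l => ⟨_, chart_inf (hx := hx) j l⟩)
    (chart_noeth hx hgen)
  obtain ⟨Θ, h2⟩ := γ.exists_sat hgen
  refine ⟨(Ψ.trans Θ).toEquiv, fun K d => ?_, fun K n => ?_⟩
  · have : piece (γ.pull K) d = piece (Θ (Ψ K)).1 d := Submodule.ext fun v =>
      ((h2 _ d _ (toPoly_mem v)).trans (forall_congr' fun j => h1 K j _)).symm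
    exact congrArg (fun W : Submodule ℂ (E σ ι d) => W.starProjection) this
  · exact (Order.coheight_orderIso (Ψ.trans Θ) K ▸ Iff.rfl : _ ↔ Order.coheight
      ((Ψ.trans Θ) K) = n).trans (coheight_iff _ n)

theorem final [IsDomain S] (hgen : Algebra.adjoin ℂ (Set.range x) = ⊤)
    [SmoothOfRelativeDimension 3 (strMap 𝒜)] {F : CohCat (AlgebraicGeometry.Proj 𝒜)}
    (hF : TorsionFree F) (hG : IsExt1 F G) (γ : Gens hx G ι) (d : ℕ → ℕ) (hd : ∀ n, n < d n) :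
    (∀ n, Set.InjOn (fun K => proj (γ.pull K) (d n)) (QuotSet G n) ∧
      IsCompact (γ.quot n (d n)) ∧ FinType (TopCat.of (γ.quot n (d n)))) ∧
    ∃ P R : Polynomial ℚ, R.coeff 0 ≠ 0 ∧ (R : PowerSeries ℚ) *
      PowerSeries.mk (fun n => (eulerChar (TopCat.of (γ.quot n (d n))) : ℚ)) = P := by
  obtain ⟨Φ, h1, h2⟩ := γ.dict hgen
  have e : ∀ n, γ.quot n (d n) = (fun K : Sub σ ι => proj K (d n)) '' QuotPts (hom γ.ker) n :=
    fun n => Set.ext fun P => ⟨fun ⟨K, hK, e⟩ => ⟨_, (h2 K n).1 hK, (h1 K _).symm.trans e⟩,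
      fun ⟨K, hK, e⟩ => by
        obtain ⟨K', e'⟩ := Φ.surjective ⟨K, hK.1, hK.2.1, hK.2.2.1⟩
        exact ⟨K', (h2 K' n).2 (e' ▸ hK), (h1 K' _).trans (e' ▸ e)⟩⟩
  have hdim := γ.hilb_le hgen fun j => by
    rcases chart_dom hx j with h | h
    · rw [ringKrullDim_eq_bot_of_subsingleton]; exact bot_le
    · exact supp_le (strMap 𝒜) hF hG (chart_aff hx j)
  obtain ⟨h3, h4⟩ := top_main (hom_graded γ.ker) hdim d hd
  refine ⟨fun n => ⟨fun K hK K' hK' e => Φ.injective (Subtype.ext ?_), e n ▸ h3 n⟩, by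
    rwa [show (fun n => (eulerChar (TopCat.of (γ.quot n (d n))) : ℚ)) = _ from
      funext fun n => by rw [e n]]⟩
  exact proj_inj (hd n) ((h2 K n).1 hK) ((h2 K' n).1 hK') ((h1 K _).symm.trans (e.trans (h1 K' _)))

end Pool.Agent.Lib.MP_d4c0ca_ag.T
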