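import Pool.Agent.Lib.MP_d4c0ca_ag.T.Defs

/-! The notions of the statement on schemes: coherent and torsion free sheaves, the first local
Ext sheaf, points of the Quot scheme and the Grassmann embedding. -/

namespace Pool.Agent.Lib.MP_d4c0ca_ag.T.St

open CategoryTheory AlgebraicGeometry MvPolynomial HomogeneousLocalization

/-- The category of coherent sheaves on a noetherian scheme. -/
abbrev Coh (Y : Scheme.{0}) : Type 1 :=
  ObjectProperty.FullSubcategory fun M : Y.Modules => M.IsFinitePresentation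

/-- Coherent subsheaves whose quotient has length `n` in the category of coherent sheaves. -/
def QuotSet {Y : Scheme.{0}} (G : Coh Y) (n : ℕ) : Set (Subobject G) :=
  {K | Order.coheight K = n}

/-- No nonzero function kills a nonzero section. -/
def TorsionFree {Y : Scheme.{0}} (F : Y.Modules) : Prop :=
  ∀ (U : Y.Opens) (a : Γ(Y, U)) (s : Γ(F, U)), a • s = 0 → a = 0 ∨ s = 0

/-- On every affine open set the sections of `G` are the first Ext module of the sections of `F`
with values in the functions. -/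
def IsExt1 {Y : Scheme.{0}} (F G : Y.Modules) : Prop :=
  ∀ U : Y.Opens, IsAffineOpen U → Nonempty (Γ(G, U) ≃ₗ[Γ(Y, U)]
    Abelian.Ext (ModuleCat.of Γ(Y, U) Γ(F, U)) (ModuleCat.of Γ(Y, U) Γ(Y, U)) 1)

section
variable {S σ : Type} [CommRing S] [Algebra ℂ S] {𝒜 : ℕ → Submodule ℂ S} [GradedAlgebra 𝒜]
  {x : σ → S}

/-- The structure morphism of `Proj`. -/
noncomputable def strMap (𝒜 : ℕ → Submodule ℂ S) [GradedAlgebra 𝒜] : Proj 𝒜 ⟶ Spec (.of ℂ) :=
  Proj.toSpecZero 𝒜 ≫ Spec.map (CommRingCat.ofHom (algebraMap ℂ (𝒜 0)))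

/-- The function `f (x / x j)` on the chart `x j ≠ 0`. -/
noncomputable def dehom (hx : ∀ l, x l ∈ 𝒜 1) (j : σ) :
    MvPolynomial σ ℂ →+* Γ(Proj 𝒜, Proj.basicOpen 𝒜 (x j)) :=
  (Proj.awayToSection 𝒜 (x j)).hom.comp
    (eval₂Hom ((algebraMap (𝒜 0) (Away 𝒜 (x j))).comp (algebraMap ℂ (𝒜 0)))
      fun l => Away.mk 𝒜 (hx j) 1 (x l) (hx l))

end

variable {Y : Scheme.{0}} {σ ι : Type} {U : σ → Y.Opens}
  {e : ∀ j, MvPolynomial σ ℂ →+* Γ(Y, U j)}

/-- An epimorphism from `ι` copies of `O(-a)` onto `G`, given on the charts `U j`, where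
`e j f` is the function `f (x / x j)`. -/
structure Gens (e : ∀ j, MvPolynomial σ ℂ →+* Γ(Y, U j)) (G : Y.Modules) (ι : Type) where
  a : ℕ
  g : ι → ∀ j, Γ(G, U j)
  compat : ∀ i j l V (hj : V ≤ U j) (hl : V ≤ U l), G.presheaf.map (homOfLE hj).op (g i j) =
    Y.presheaf.map (homOfLE hj).op (e j (X l ^ a)) • G.presheaf.map (homOfLE hl).op (g i l)
  span : ∀ j, Submodule.span Γ(Y, U j) (Set.range fun i => g i j) = ⊤

variable [Fintype ι]

/-- The vectors of polynomials that are mapped into the image of `φ` on every chart. -/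
def Gens.pull {G K : Y.Modules} (γ : Gens e G ι) (φ : K ⟶ G) :
    Submodule (MvPolynomial σ ℂ) (ι → MvPolynomial σ ℂ) where
  carrier := {f | ∀ j, ∃ s, φ.app (U j) s = ∑ i, e j (f i) • γ.g i j}
  zero_mem' j := ⟨0, by simp⟩
  add_mem' h h' j := by
    obtain ⟨s, e⟩ := h j
    obtain ⟨t, e'⟩ := h' j
    exact ⟨s + t, by simp [e, e', add_smul, Finset.sum_add_distrib]⟩
  smul_mem' p f h j := by
    obtain ⟨s, e'⟩ := h j
    exact ⟨e j p • s, by simp [e', mul_smul, Finset.smul_sum]⟩

variable [Fintype σ] [DecidableEq σ] {G : Coh Y}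

/-- The map from subsheaves to the Grassmannian of subspaces of the degree `d` part of the free
module, a subspace being given by its orthogonal projection. -/
noncomputable def Gens.emb (γ : Gens e G.obj ι) (d : ℕ) (K : Subobject G) :
    E σ ι d →L[ℂ] E σ ι d := proj (γ.pull K.arrow.hom) d

/-- The image of the points of the Quot scheme in the Grassmannian. -/
noncomputable def Gens.quot (γ : Gens e G.obj ι) (n d : ℕ) : TopCat.{0} :=
  TopCat.of (γ.emb d '' QuotSet G n)

end Pool.Agent.Lib.MP_d4c0ca_ag.T.St
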