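import Pool.Agent.Lib.MP_d4c0ca_ag.T.Final
import Pool.Agent.Lib.MP_d4c0ca_ag.T.St

/-! The final statement in terms of the notions of `St`. -/

namespace Pool.Agent.Lib.MP_d4c0ca_ag.T.St

open CategoryTheory AlgebraicGeometry MvPolynomial

variable {S σ ι : Type} [CommRing S] [Algebra ℂ S] {𝒜 : ℕ → Submodule ℂ S} [GradedAlgebra 𝒜]
  {x : σ → S} {hx : ∀ l, x l ∈ 𝒜 1} {G : Coh (AlgebraicGeometry.Proj 𝒜)}

/-- The same data in the form used by the library. -/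
def Gens.old (γ : Gens (dehom hx) G.obj ι) : T.Gens hx G ι := ⟨γ.a, γ.g, γ.compat, γ.span⟩

theorem exists_gens {N : ℕ} {x : Fin (N + 1) → S} (hx : ∀ l, x l ∈ 𝒜 1)
    (G : Coh (AlgebraicGeometry.Proj 𝒜)) : ∃ r, Nonempty (Gens (dehom hx) G.obj (Fin r)) := by
  obtain ⟨r, ⟨γ⟩⟩ := T.exists_gens hx G
  exact ⟨r, ⟨⟨γ.a, γ.g, γ.compat, γ.span⟩⟩⟩

variable [Fintype ι] [Fintype σ] [DecidableEq σ]

theorem final [IsDomain S] (hgen : Algebra.adjoin ℂ (Set.range x) = ⊤)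
    [h : SmoothOfRelativeDimension 3 (strMap 𝒜)] {F : Coh (AlgebraicGeometry.Proj 𝒜)}
    (hF : TorsionFree F.obj) (hG : IsExt1 F.obj G.obj) (γ : Gens (dehom hx) G.obj ι) (d : ℕ → ℕ)
    (hd : ∀ n, n < d n) :
    (∀ n, Set.InjOn (γ.emb (d n)) (QuotSet G n) ∧
      CompactSpace (γ.quot n (d n)) ∧ FinType (γ.quot n (d n))) ∧
    ∃ P R : Polynomial ℚ, R.coeff 0 ≠ 0 ∧ (R : PowerSeries ℚ) *
      PowerSeries.mk (fun n => (eulerChar (γ.quot n (d n)) : ℚ)) = P := by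
  have : SmoothOfRelativeDimension 3 (Pool.Agent.Lib.MP_cd184e_ag.B.strMap 𝒜) := h
  obtain ⟨h1, h2⟩ := T.final hgen (F := F) hF hG γ.old d hd
  exact ⟨fun n => ⟨(h1 n).1, isCompact_iff_compactSpace.1 (h1 n).2.1, (h1 n).2.2⟩, h2⟩

end Pool.Agent.Lib.MP_d4c0ca_ag.T.St
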