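import Pool.Agent.Lib.MP_d4c0ca_ag.T.Sub

/-! Coherent subsheaves are compatible families of submodules on the charts. -/

namespace Pool.Agent.Lib.MP_d4c0ca_ag.T

open CategoryTheory AlgebraicGeometry Opposite TopologicalSpace
open Pool.Agent.Lib.MP_cd184e_ag.B

variable {Y : Scheme.{0}} {M N L : Y.Modules}

theorem so_exists_sub (M : Y.Modules) (Q : ∀ V : Y.Opens, Submodule Γ(Y, V) Γ(M, V))
    (res : ∀ V W (h : W ≤ V), ∀ s ∈ Q V, mres M h s ∈ Q W)
    (loc : ∀ V s, (∀ x ∈ V, ∃ (W : Y.Opens) (h : W ≤ V), x ∈ W ∧ mres M h s ∈ Q W) → s ∈ Q V) :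
    ∃ (N : Y.Modules) (ι : N ⟶ M), ∀ V, Function.Injective (ι.app V) ∧
      ∀ s, s ∈ Q V ↔ ∃ t, ι.app V t = s := by
  let S : M.val.Submodule := ⟨fun V => Q V.unop, fun {V W} i s hs => res _ _ i.unop.le s hs⟩
  refine ⟨⟨S.toPresheafOfModules, ?_⟩, ⟨S.ι⟩, fun V => ⟨Subtype.val_injective, fun s =>
    ⟨fun h => ⟨⟨s, h⟩, rfl⟩, ?_⟩⟩⟩
  swap
  · rintro ⟨t, rfl⟩
    exact t.2
  refine (TopCat.Presheaf.isSheaf_iff_isSheafUniqueGluing _).2 fun κ U sf hsf => ?_
  obtain ⟨t, ht⟩ := sec_glue M U (le_iSup U) le_rfl (fun i => (sf i).1)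
    fun i j => congrArg Subtype.val (hsf i j)
  refine ⟨⟨t, loc _ t fun x hx => ?_⟩, fun i => Subtype.ext (ht i), fun s hs => Subtype.ext
    (sec_ext M _ _ fun x hx => ?_)⟩
  · obtain ⟨i, hi⟩ := Opens.mem_iSup.1 hx
    exact ⟨U i, le_iSup U i, hi, ht i ▸ (sf i).2⟩
  · obtain ⟨i, hi⟩ := Opens.mem_iSup.1 hx
    exact ⟨U i, le_iSup U i, hi, (congrArg Subtype.val (hs i)).trans (ht i).symm⟩

theorem so_lift (ι : N ⟶ M) (hι : ∀ V, Function.Injective (ι.app V)) (φ : L ⟶ M)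
    (h : ∀ V s, ∃ t, ι.app V t = φ.app V s) : ∃ ψ : L ⟶ N, ψ ≫ ι = φ := by
  choose ψ hψ using h
  refine ⟨mkHom (fun V => ⟨⟨ψ V, fun s s' => hι V ?_⟩, fun r s => hι V ?_⟩)
    fun V W h s => hι W ?_, Scheme.Modules.hom_ext _ _ fun V => ?_⟩
  · rw [map_add, hψ, hψ, hψ, map_add]
  · rw [RingHom.id_apply, Scheme.Modules.Hom.app_smul, hψ, hψ, Scheme.Modules.Hom.app_smul]
  · exact (mres_app ι h _).symm.trans ((congrArg _ (hψ V s)).trans
      ((mres_app φ h s).trans (hψ W _).symm))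
  · ext s
    exact hψ V s

theorem so_range_loc (ι : N ⟶ M) (hι : ∀ V, Function.Injective (ι.app V)) {V : Y.Opens}
    (s : Γ(M, V)) (h : ∀ x ∈ V, ∃ (W : Y.Opens) (h : W ≤ V), x ∈ W ∧
      ∃ t, ι.app W t = mres M h s) : ∃ t, ι.app V t = s := by
  choose W hW hx t ht using fun x : V => h x.1 x.2
  obtain ⟨u, hu⟩ := sec_glue N W hW (fun x hx' => Opens.mem_iSup.2 ⟨⟨x, hx'⟩, hx _⟩) t
    fun i j => hι _ (by rw [← mres_app, ← mres_app, ht, ht, mres_mres, mres_mres])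
  exact ⟨u, sec_ext M _ _ fun x hx' => ⟨W ⟨x, hx'⟩, hW _, hx _, by rw [mres_app, hu, ht]⟩⟩

theorem so_fp {σ : Type} {U : σ → Y.Opens} (aff : ∀ j, IsAffineOpen (U j)) (cover : iSup U = ⊤)
    (noeth : ∀ j, IsNoetherianRing Γ(Y, U j)) (hM : M.IsFinitePresentation)
    (hL : ∀ j, LocAt M (U j)) (ι : N ⟶ M) (hι : ∀ V, Function.Injective (ι.app V))
    (sat : ∀ j (f : Γ(Y, U j)) W (h : W ≤ U j), W = Y.basicOpen f → ∀ s, ∃ (n : ℕ) (t : _),
      mres M h (ι.app _ t) = rres h f ^ n • ι.app W s) : N.IsFinitePresentation := by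
  refine fp_of_cover N U aff cover noeth (fun j => ⟨fun f W h e s => ?_, fun f W h e t ht => ?_⟩)
    fun j => ?_
  · obtain ⟨n, t, ht⟩ := sat j f W h e s
    exact ⟨n, t, hι W (by rw [← mres_app, ht, Scheme.Modules.Hom.app_smul])⟩
  · obtain ⟨n, hn⟩ := (hL j).un f W h e (ι.app _ t) (by rw [mres_app, ht, map_zero])
    exact ⟨n, hι _ (by rw [Scheme.Modules.Hom.app_smul, hn, map_zero])⟩
  · have := finite_of_fp M (aff j)
    have := noeth j
    exact Module.Finite.of_injective (⟨⟨ι.app (U j), map_add _⟩, Scheme.Modules.Hom.app_smul ι⟩ :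
      Γ(N, U j) →ₗ[Γ(Y, U j)] Γ(M, U j)) (hι _)

theorem so_locAt (G : CohCat Y) {U : Y.Opens} (hU : IsAffineOpen U) : LocAt G.obj U := by
  obtain ⟨q, -⟩ := G.property.exists_quasicoherentData
  have : G.obj.IsQuasicoherent := q.isQuasicoherent
  exact locAt_of_qcoh _ hU

theorem so_inj {σ : Type} {U : σ → Y.Opens} (aff : ∀ j, IsAffineOpen (U j)) (cover : iSup U = ⊤)
    (noeth : ∀ j, IsNoetherianRing Γ(Y, U j)) {K G : CohCat Y} (φ : K ⟶ G) [Mono φ]
    (V : Y.Opens) : Function.Injective (φ.hom.app V) := by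
  obtain ⟨N, ι, h⟩ := so_exists_sub K.obj (fun V => LinearMap.ker
    (⟨⟨φ.hom.app V, map_add _⟩, Scheme.Modules.Hom.app_smul φ.hom⟩ :
      Γ(K.obj, V) →ₗ[Γ(Y, V)] Γ(G.obj, V)))
    (fun V W h s hs => (mres_app φ.hom h s).symm.trans ((congrArg _ hs).trans (map_zero _)))
    fun V s h => sec_ext G.obj _ _ fun x hx => by
      obtain ⟨W, hW, m, e⟩ := h x hx
      exact ⟨W, hW, m, (mres_app φ.hom hW s).trans (Eq.trans e (map_zero _).symm)⟩
  have z : ∀ V t, φ.hom.app V (ι.app V t) = 0 := fun V t => ((h V).2 _).2 ⟨t, rfl⟩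
  have fp := so_fp aff cover noeth K.property (fun j => so_locAt K (aff j)) ι (fun V => (h V).1)
    fun j f W hW e s => by
      obtain ⟨n, t, ht⟩ := (so_locAt K (aff j)).ex f W hW e (ι.app W s)
      obtain ⟨m, hm⟩ := (so_locAt G (aff j)).un f W hW e (φ.hom.app _ t) (by
        rw [mres_app, ht, Scheme.Modules.Hom.app_smul, z, smul_zero])
      obtain ⟨u, hu⟩ := ((h _).2 (f ^ m • t)).1 ((Scheme.Modules.Hom.app_smul φ.hom _ _).trans hm)
      exact ⟨m + n, u, by rw [hu, mres_smul, ht, map_pow, pow_add, mul_smul]⟩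
  have e : (ObjectProperty.homMk ι : (⟨N, fp⟩ : CohCat Y) ⟶ K) = ObjectProperty.homMk 0 :=
    (cancel_mono φ).1 (ObjectProperty.hom_ext _ (Scheme.Modules.hom_ext _ _ fun V => by
      ext t
      exact (z V t).trans (map_zero (φ.hom.app V).hom).symm))
  refine (injective_iff_map_eq_zero (φ.hom.app V).hom).2 fun s hs => ?_
  obtain ⟨t, rfl⟩ := ((h V).2 s).1 hs
  exact congrArg (fun f : (⟨N, fp⟩ : CohCat Y) ⟶ K => f.hom.app V t) e

/-- The submodule generated by the restrictions. -/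
noncomputable def soS {U W : Y.Opens} (h : W ≤ U) (P : Submodule Γ(Y, U) Γ(M, U)) :
    Submodule Γ(Y, W) Γ(M, W) := Submodule.span Γ(Y, W) (mres M h '' (P : Set Γ(M, U)))

theorem soS_res {U W W' : Y.Opens} (h : W ≤ U) (h' : W' ≤ W) {P : Submodule Γ(Y, U) Γ(M, U)}
    {s : Γ(M, W)} (hs : s ∈ soS h P) : mres M h' s ∈ soS (h'.trans h) P := by
  induction hs using Submodule.span_induction with
  | mem y hy =>
    obtain ⟨p, hp, rfl⟩ := hy
    exact Submodule.subset_span ⟨p, hp, (mres_mres _ _ _ _).symm⟩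
  | zero => rw [map_zero]; exact zero_mem _
  | add y y' _ _ hy hy' => rw [map_add]; exact add_mem hy hy'
  | smul r y _ hy => rw [mres_smul]; exact Submodule.smul_mem _ _ hy

theorem mem_soS {U W : Y.Opens} (hU : IsAffineOpen U) (h : W ≤ U) {g : Γ(Y, U)}
    (e : W = Y.basicOpen g) {P : Submodule Γ(Y, U) Γ(M, U)} {s : Γ(M, W)} :
    s ∈ soS h P ↔ ∃ n : ℕ, ∃ p ∈ P, mres M h p = rres h g ^ n • s := by
  subst e
  refine ⟨fun hs => ?_, fun ⟨n, p, hp, e⟩ => ?_⟩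
  · have loc := hU.isLocalization_basicOpen g
    induction hs using Submodule.span_induction with
    | mem y hy =>
      obtain ⟨p, hp, rfl⟩ := hy
      exact ⟨0, p, hp, by simp⟩
    | zero => exact ⟨0, 0, zero_mem _, by simp⟩
    | add y y' _ _ hy hy' =>
      obtain ⟨k, z, hz, e⟩ := hy
      obtain ⟨k', z', hz', e'⟩ := hy'
      refine ⟨k + k', g ^ k' • z + g ^ k • z',
        add_mem (Submodule.smul_mem _ _ hz) (Submodule.smul_mem _ _ hz'), ?_⟩
      rw [map_add, mres_smul, mres_smul, e, e', map_pow, map_pow, smul_add, ← mul_smul, ← mul_smul,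
        ← pow_add, ← pow_add, add_comm k' k]
    | smul r y _ hy =>
      obtain ⟨k, z, hz, e⟩ := hy
      obtain ⟨⟨a, ⟨_, l, rfl⟩⟩, ha⟩ := IsLocalization.surj (Submonoid.powers g) r
      have ha' : r * rres h g ^ l = rres h a := by
        rw [← map_pow]
        exact ha
      refine ⟨k + l, a • z, Submodule.smul_mem _ _ hz, ?_⟩
      rw [mres_smul, e, ← ha', ← mul_smul, ← mul_smul]
      congr 1
      ring
  · obtain ⟨v, hv⟩ := (isUnit_rres g h le_rfl).pow n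
    have : s = ((v⁻¹ : Γ(Y, Y.basicOpen g)ˣ) : Γ(Y, Y.basicOpen g)) • mres M h p := by
      rw [e, ← hv, ← mul_smul]; simp
    exact this ▸ Submodule.smul_mem _ _ (Submodule.subset_span ⟨p, hp, rfl⟩)

theorem soS_loc {U : Y.Opens} (hU : IsAffineOpen U) (hL : LocAt M U) (g : Γ(Y, U))
    {P : Submodule Γ(Y, U) Γ(M, U)} {s : Γ(M, Y.basicOpen g)}
    (h : ∀ x ∈ Y.basicOpen g, ∃ (g' : Γ(Y, U)) (h' : Y.basicOpen g' ≤ Y.basicOpen g),
      x ∈ Y.basicOpen g' ∧ mres M h' s ∈ soS (Y.basicOpen_le g') P) :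
    s ∈ soS (Y.basicOpen_le g) P := by
  obtain ⟨n, t, ht⟩ := hL.ex g _ (Y.basicOpen_le g) rfl s
  have : g ∈ Ideal.radical (P.comap (LinearMap.toSpanSingleton Γ(Y, U) _ t)) := by
    rw [Ideal.radical_eq_sInf, Submodule.mem_sInf]
    rintro p ⟨hp, pp⟩
    by_contra hg
    obtain ⟨g', h', m, e⟩ := h (hU.fromSpec ⟨p, pp⟩) (by
      have : (⟨p, pp⟩ : Spec Γ(Y, U)) ∈ hU.fromSpec ⁻¹ᵁ Y.basicOpen g := by
        rw [hU.fromSpec_preimage_basicOpen]; exact hg
      exact this)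
    have m' : (⟨p, pp⟩ : Spec Γ(Y, U)) ∈ hU.fromSpec ⁻¹ᵁ Y.basicOpen g' := m
    rw [hU.fromSpec_preimage_basicOpen] at m'
    obtain ⟨k, q, hq, e⟩ := (mem_soS hU _ rfl).1 e
    obtain ⟨l, hl⟩ := hL.un g' _ (Y.basicOpen_le g') rfl (g' ^ k • t - g ^ n • q) (by
      rw [map_sub, mres_smul, mres_smul, e, ← mres_mres M (Y.basicOpen_le g) h', ht, mres_smul,
        map_pow, map_pow, map_pow, rres_rres, smul_comm, sub_self])
    refine m' (pp.mem_of_pow_mem (l + k) (hp ?_))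
    change g' ^ (l + k) • t ∈ P
    rw [smul_sub, sub_eq_zero, ← mul_smul, ← pow_add] at hl
    exact hl ▸ Submodule.smul_mem _ _ (Submodule.smul_mem _ _ hq)
  obtain ⟨m, hm⟩ := this
  exact (mem_soS hU _ rfl).2 ⟨m + n, g ^ m • t, hm, by
    rw [mres_smul, ht, map_pow, pow_add, mul_smul]⟩

theorem so_surj (G : CohCat Y) {σ : Type} {U : σ → Y.Opens} (aff : ∀ j, IsAffineOpen (U j))
    (cover : iSup U = ⊤) (noeth : ∀ j, IsNoetherianRing Γ(Y, U j)) (P : CSub G U) :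
    ∃ K : Subobject G, ∀ j s, s ∈ P.1 j ↔ ∃ t, K.arrow.hom.app _ t = s := by
  let Q : ∀ V : Y.Opens, Submodule Γ(Y, V) Γ(G.obj, V) := fun V =>
    { carrier := {s | ∀ j (g : Γ(Y, U j)) (h : Y.basicOpen g ≤ V),
        mres _ h s ∈ soS (Y.basicOpen_le g) (P.1 j)}
      zero_mem' := fun j g h => by rw [map_zero]; exact zero_mem _
      add_mem' := fun a b j g h => by rw [map_add]; exact add_mem (a j g h) (b j g h)
      smul_mem' := fun r s a j g h => by rw [mres_smul]; exact Submodule.smul_mem _ _ (a j g h) }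
  have hQ : ∀ j s, s ∈ P.1 j ↔ s ∈ Q (U j) := fun j s => ⟨fun hs l g h => by
    have := soS_res _ (le_inf h (Y.basicOpen_le g)) (P.2 j l s hs)
    rwa [mres_mres] at this, fun hs => by
    obtain ⟨n, p, hp, e⟩ := (mem_soS (aff j) _ rfl).1 (hs j 1 (Y.basicOpen_le _))
    rw [map_one, one_pow, one_smul] at e
    exact (bijective_mres_of_eq _ _ Y.basicOpen_one).1 e ▸ hp⟩
  obtain ⟨N, ι, h⟩ := so_exists_sub G.obj Q
    (fun V W h s hs j g h' => by rw [mres_mres]; exact hs j g _) fun V s h j g hg =>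
      soS_loc (aff j) (so_locAt G (aff j)) g fun x hx => by
        obtain ⟨W, hW, m, e⟩ := h x (hg hx)
        obtain ⟨g', a, b⟩ := (aff j).exists_basicOpen_le (V := W ⊓ Y.basicOpen g) ⟨x, m, hx⟩
          (Y.basicOpen_le g hx)
        have := e j g' (a.trans inf_le_left)
        rw [mres_mres] at this
        exact ⟨g', a.trans inf_le_right, b, by rwa [mres_mres]⟩
  have fp := so_fp aff cover noeth G.property (fun j => so_locAt G (aff j)) ι (fun V => (h V).1)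
    fun j f W hW e s => by
      subst e
      have := ((h _).2 _).2 ⟨s, rfl⟩ j f le_rfl
      rw [mres_self] at this
      obtain ⟨n, p, hp, e⟩ := (mem_soS (aff j) _ rfl).1 this
      obtain ⟨t, rfl⟩ := ((h _).2 p).1 ((hQ j p).1 hp)
      exact ⟨n, t, e⟩
  let i : (⟨N, fp⟩ : CohCat Y) ⟶ G := ObjectProperty.homMk ι
  have : Mono i := ⟨fun a b e => ObjectProperty.hom_ext _ (Scheme.Modules.hom_ext _ _ fun V => by
    ext s
    exact (h V).1 (congrArg (fun f => f.hom.app V s) e))⟩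
  refine ⟨Subobject.mk i, fun j s => (hQ j s).trans (((h _).2 s).trans ⟨?_, ?_⟩)⟩
  · rintro ⟨t, rfl⟩
    exact ⟨(Subobject.underlyingIso i).inv.hom.app _ t,
      congrArg (fun f => f.hom.app (U j) t) (Subobject.underlyingIso_arrow i)⟩
  · rintro ⟨t, rfl⟩
    exact ⟨(Subobject.underlyingIso i).hom.hom.app _ t,
      congrArg (fun f => f.hom.app (U j) t) (Subobject.underlyingIso_hom_comp_eq_mk i)⟩

theorem exists_csub {Y : Scheme.{0}} (G : CohCat Y) {σ : Type} [Finite σ] (U : σ → Y.Opens)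
    (aff : ∀ j, IsAffineOpen (U j)) (cover : iSup U = ⊤)
    (bas : ∀ j l, ∃ g : Γ(Y, U j), U j ⊓ U l = Y.basicOpen g)
    (noeth : ∀ j, IsNoetherianRing Γ(Y, U j)) :
    ∃ Ψ : Subobject G ≃o CSub G U, ∀ K j s, s ∈ (Ψ K).1 j ↔ ∃ t, K.arrow.hom.app _ t = s := by
  let f : Subobject G → CSub G U := fun K => ⟨fun j => LinearMap.range
    (⟨⟨K.arrow.hom.app (U j), map_add _⟩, Scheme.Modules.Hom.app_smul K.arrow.hom⟩ :
      Γ((K : CohCat Y).obj, U j) →ₗ[Γ(Y, U j)] Γ(G.obj, U j)), by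
    rintro j l _ ⟨t, rfl⟩
    obtain ⟨g, hg⟩ := bas l j
    rw [inf_comm] at hg
    obtain ⟨n, u, hu⟩ := (so_locAt K (aff l)).ex g _ inf_le_right hg (mres _ inf_le_left t)
    refine (mem_soS (aff l) _ hg).2 ⟨n, _, ⟨u, rfl⟩, (mres_app K.arrow.hom _ u).trans ?_⟩
    rw [hu, Scheme.Modules.Hom.app_smul, ← mres_app]
    rfl⟩
  have hf : ∀ K K', f K ≤ f K' ↔ K ≤ K' := fun K K' => ⟨fun h => by
    have inj := so_inj aff cover noeth K'.arrow
    obtain ⟨ψ, hψ⟩ := so_lift K'.arrow.hom inj K.arrow.hom fun V s =>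
      so_range_loc _ inj _ fun x hx => by
        obtain ⟨j, hj⟩ : ∃ j, x ∈ U j := Opens.mem_iSup.1 (by rw [cover]; trivial)
        obtain ⟨g, hg, m⟩ := (aff j).exists_basicOpen_le (V := V) ⟨x, hx⟩ hj
        obtain ⟨n, t, ht⟩ := (so_locAt K (aff j)).ex g _ (Y.basicOpen_le g) rfl (mres _ hg s)
        obtain ⟨u, hu⟩ := h j ⟨t, rfl⟩
        have un := (isUnit_rres g (Y.basicOpen_le g) le_rfl).pow n
        obtain ⟨w, hw⟩ := exists_smul_eq un (mres _ (Y.basicOpen_le g) u)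
        refine ⟨_, hg, m, w, smul_cancel un ?_⟩
        rw [← Scheme.Modules.Hom.app_smul, hw, ← mres_app, mres_app _ hg,
          ← Scheme.Modules.Hom.app_smul, ← ht, ← mres_app]
        exact congrArg _ hu
    exact Subobject.le_of_comm (ObjectProperty.homMk ψ) (ObjectProperty.hom_ext _ hψ), fun h j => by
    rintro _ ⟨t, rfl⟩
    exact ⟨(Subobject.ofLE K K' h).hom.app _ t,
      congrArg (fun f => f.hom.app (U j) t) (Subobject.ofLE_arrow h)⟩⟩
  refine ⟨RelIso.ofSurjective (OrderEmbedding.ofMapLEIff f hf) fun P => ?_, fun K j s => Iff.rfl⟩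
  obtain ⟨K, hK⟩ := so_surj G aff cover noeth P
  exact ⟨K, Subtype.ext (funext fun j => Submodule.ext fun s => (hK j s).symm)⟩

end Pool.Agent.Lib.MP_d4c0ca_ag.T
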