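import Mathlib

/-! Continuity of the real roots of a family of real polynomials with a constant number of
complex roots. -/

namespace Pool.Agent.Lib.MP_d4c0ca_ag.T

open Polynomial Filter Topology

theorem rt_match {A B : Finset ℂ} {ε : ℝ} (sep : ∀ z ∈ A, ∀ z' ∈ A, ‖z - z'‖ < 2 * ε → z = z')
    (h : ∀ z ∈ A, ∃ w ∈ B, ‖w - z‖ < ε) (hc : B.card ≤ A.card) :
    ∃ σ : ℂ → ℂ, Set.BijOn σ A B ∧ ∀ z ∈ A, ‖σ z - z‖ < ε := by
  choose! σ h1 h2 using h
  have hi : Set.InjOn σ A := fun z hz z' hz' e => sep z hz z' hz' (by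
    have := norm_sub_le_norm_sub_add_norm_sub z (σ z) z'
    have a := h2 z hz
    have b := h2 z' hz'
    rw [norm_sub_rev] at a
    rw [← e] at b
    linarith)
  exact ⟨σ, ⟨h1, hi, Finset.surjOn_of_injOn_of_card_le σ h1 hi hc⟩, h2⟩

theorem rt_sep (A : Finset ℂ) : ∀ᶠ ε in 𝓝[>] (0 : ℝ),
    ∀ z ∈ A, ∀ z' ∈ A, ‖z - z'‖ < 2 * ε → z = z' := by
  refine (eventually_all_finset A).2 fun z _ => (eventually_all_finset A).2 fun z' _ => ?_
  by_cases e : z = z'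
  · exact .of_forall fun _ _ => e
  · have : 0 < ‖z - z'‖ / 2 := half_pos (norm_pos_iff.2 (sub_ne_zero.2 e))
    exact ((gt_mem_nhds this).filter_mono nhdsWithin_le_nhds).mono fun ε h h' => by linarith

variable {C : Type} [TopologicalSpace C]

/-- a lower semicontinuous family of finite sets of constant size, stable under conjugation -/
structure RtFam (R : C → Finset ℂ) : Prop where
  low : ∀ x, ∀ z ∈ R x, ∀ ε > 0, ∀ᶠ y in 𝓝 x, ∃ w ∈ R y, ‖w - z‖ < ε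
  card : ∀ x y, (R x).card = (R y).card
  cj : ∀ x, ∀ z ∈ R x, (starRingEnd ℂ) z ∈ R x

theorem RtFam.loc {R : C → Finset ℂ} (h : RtFam R) (x : C) {ε : ℝ} (hε : 0 < ε)
    (sep : ∀ z ∈ R x, ∀ z' ∈ R x, ‖z - z'‖ < 2 * ε → z = z') : ∀ᶠ y in 𝓝 x,
    ∃ σ : ℂ → ℂ, Set.BijOn σ (R x) (R y) ∧ ∀ z ∈ R x, ‖σ z - z‖ < ε :=
  ((eventually_all_finset (R x)).2 fun z hz => h.low x z hz ε hε).mono fun y hy =>
    rt_match sep hy (h.card y x).le

open Classical in
/-- the real points of a finite set of complex numbers -/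
noncomputable def rtRe (A : Finset ℂ) : Finset ℝ := (A.image Complex.re).filter fun t => (t : ℂ) ∈ A

theorem mem_rtRe {A : Finset ℂ} {t : ℝ} : t ∈ rtRe A ↔ (t : ℂ) ∈ A := by
  rw [rtRe, Finset.mem_filter, and_iff_right_iff_imp]
  exact fun h => Finset.mem_image.2 ⟨_, h, Complex.ofReal_re t⟩

theorem rt_real {A B : Finset ℂ} {ε : ℝ} (sep : ∀ z ∈ A, ∀ z' ∈ A, ‖z - z'‖ < 2 * ε → z = z')
    (hA : ∀ z ∈ A, (starRingEnd ℂ) z ∈ A) (hB : ∀ z ∈ B, (starRingEnd ℂ) z ∈ B) {σ : ℂ → ℂ}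
    (h1 : Set.BijOn σ A B) (h2 : ∀ z ∈ A, ‖σ z - z‖ < ε) :
    ∃ τ : ℝ → ℝ, Set.BijOn τ (rtRe A) (rtRe B) ∧ StrictMonoOn τ (rtRe A) ∧
      ∀ t ∈ rtRe A, (τ t : ℂ) = σ t := by
  have near : ∀ z ∈ A, ∀ z' ∈ A, ‖σ z' - z‖ < ε → z = z' := fun z hz z' hz' e => sep z hz z' hz' (by
    have := norm_sub_le_norm_sub_add_norm_sub z (σ z') z'
    have b := h2 z' hz'
    rw [norm_sub_rev] at e
    linarith)
  have cj : ∀ z ∈ A, σ ((starRingEnd ℂ) z) = (starRingEnd ℂ) (σ z) := fun z hz => by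
    obtain ⟨z', hz', e⟩ := h1.surjOn (hB _ (h1.mapsTo hz))
    rw [← e, ← near _ (hA z hz) z' hz' (by rw [e, ← map_sub, Complex.norm_conj]; exact h2 z hz)]
  have re : ∀ t ∈ rtRe A, ((σ t).re : ℂ) = σ t := fun t ht => by
    have := cj _ (mem_rtRe.1 ht)
    rw [Complex.conj_ofReal] at this
    exact Complex.conj_eq_iff_re.1 this.symm
  refine ⟨fun t => (σ t).re, ⟨fun t ht => mem_rtRe.2 ?_, fun t ht s hs e => ?_, fun s hs => ?_⟩,
    fun t ht s hs hts => ?_, re⟩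
  · rw [re t ht]; exact h1.mapsTo (mem_rtRe.1 ht)
  · exact Complex.ofReal_injective (h1.injOn (mem_rtRe.1 ht) (mem_rtRe.1 hs)
      (by rw [← re t ht, ← re s hs]; exact congrArg _ e))
  · obtain ⟨z, hz, e⟩ := h1.surjOn (mem_rtRe.1 hs)
    have e1 : (starRingEnd ℂ) z = z :=
      h1.injOn (hA z hz) hz (by rw [cj z hz, e, Complex.conj_ofReal])
    have e2 := Complex.conj_eq_iff_re.1 e1
    exact ⟨z.re, mem_rtRe.2 (e2.symm ▸ hz), by simp only [e2, e, Complex.ofReal_re]⟩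
  · have a := h2 _ (mem_rtRe.1 ht)
    have b := h2 _ (mem_rtRe.1 hs)
    have c : ¬‖(t : ℂ) - s‖ < 2 * ε := fun e =>
      hts.ne (Complex.ofReal_injective (sep _ (mem_rtRe.1 ht) _ (mem_rtRe.1 hs) e))
    rw [← re t ht] at a
    rw [← re s hs] at b
    rw [← Complex.ofReal_sub, Complex.norm_real, Real.norm_eq_abs, abs_lt] at a b c
    simp only
    by_contra e
    exact c ⟨by linarith [a.1, a.2, b.1, b.2], by linarith [a.1, a.2, b.1, b.2]⟩

theorem RtFam.sections [PreconnectedSpace C] {R : C → Finset ℂ} (h : RtFam R) {ι : Type}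
    {Q : ι → C → Finset ℂ} (hQ : ∀ i, RtFam (Q i)) (hs : ∀ i x, Q i x ⊆ R x) :
    ∃ (s : ℕ) (ξ : Fin s → C → ℝ), (∀ j, Continuous (ξ j)) ∧ (∀ x, StrictMono (ξ · x)) ∧
      (∀ x (t : ℝ), (t : ℂ) ∈ R x ↔ ∃ j, ξ j x = t) ∧
      ∀ i j x y, (ξ j x : ℂ) ∈ Q i x ↔ (ξ j y : ℂ) ∈ Q i y := by
  have key : ∀ x, ∀ᶠ ε in 𝓝[>] (0 : ℝ), ∀ᶠ y in 𝓝 x, ∃ τ : ℝ → ℝ,
      Set.BijOn τ (rtRe (R x)) (rtRe (R y)) ∧ StrictMonoOn τ (rtRe (R x)) ∧
      ∃ σ : ℂ → ℂ, Set.BijOn σ (R x) (R y) ∧ (∀ z ∈ R x, ‖σ z - z‖ < ε) ∧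
        ∀ t ∈ rtRe (R x), (τ t : ℂ) = σ t := fun x =>
    ((rt_sep (R x)).and self_mem_nhdsWithin).mono fun ε hε => (h.loc x hε.2 hε.1).mono
      fun y ⟨σ, h1, h2⟩ => (rt_real hε.1 (h.cj x) (h.cj y) h1 h2).imp
        fun τ hτ => ⟨hτ.1, hτ.2.1, σ, h1, h2, hτ.2.2⟩
  rcases isEmpty_or_nonempty C with hC | ⟨⟨x0⟩⟩
  · exact ⟨0, Fin.elim0, fun j => j.elim0, fun x => hC.elim x, fun x => hC.elim x,
      fun _ j => j.elim0⟩
  have hc : ∀ x, (rtRe (R x)).card = (rtRe (R x0)).card := fun x =>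
    (IsLocallyConstant.iff_eventually_eq (fun x => (rtRe (R x)).card)).2 (fun x =>
      (key x).exists.elim fun ε hε => hε.mono fun y ⟨τ, h1, _⟩ =>
        (Finset.card_nbij τ h1.mapsTo h1.injOn h1.surjOn).symm) |>.apply_eq_of_preconnectedSpace x x0
  let ξ : Fin (rtRe (R x0)).card → C → ℝ := fun j x => (rtRe (R x)).orderEmbOfFin (hc x) j
  have mem : ∀ j x, ξ j x ∈ rtRe (R x) := fun j x => Finset.orderEmbOfFin_mem _ _ _
  have tr : ∀ x y (τ : ℝ → ℝ), Set.BijOn τ (rtRe (R x)) (rtRe (R y)) →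
      StrictMonoOn τ (rtRe (R x)) → ∀ j, τ (ξ j x) = ξ j y := fun x y τ h1 h2 =>
    congrFun (Finset.orderEmbOfFin_unique (hc y) (f := fun j => τ (ξ j x))
      (fun j => h1.mapsTo (mem j x)) fun j k hjk =>
        h2 (mem j x) (mem k x) (((rtRe (R x)).orderEmbOfFin (hc x)).strictMono hjk))
  refine ⟨_, ξ, fun j => continuous_iff_continuousAt.2 fun x => Metric.tendsto_nhds.2 fun δ hδ => ?_,
    fun x => ((rtRe (R x)).orderEmbOfFin (hc x)).strictMono, fun x t => ?_, fun i j x y => ?_⟩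
  · obtain ⟨ε, h1, h2⟩ := ((key x).and (nhdsWithin_le_nhds (gt_mem_nhds hδ))).exists
    refine h1.mono fun y ⟨τ, a, b, σ, _, c, e⟩ => lt_trans ?_ h2
    have := c _ (mem_rtRe.1 (mem j x))
    rwa [← e _ (mem j x), tr x y τ a b, ← Complex.ofReal_sub, Complex.norm_real] at this
  · rw [← mem_rtRe, ← Finset.mem_coe, ← Finset.range_orderEmbOfFin _ (hc x)]
    rfl
  refine iff_of_eq ((IsLocallyConstant.iff_eventually_eq
    (fun x => (ξ j x : ℂ) ∈ Q i x)).2 (fun x => ?_) |>.apply_eq_of_preconnectedSpace x y)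
  obtain ⟨ε, h1, h2, h3⟩ := ((key x).and ((rt_sep (R x)).and self_mem_nhdsWithin)).exists
  filter_upwards [h1, (hQ i).loc x h3 fun z hz z' hz' => h2 z (hs i x hz) z' (hs i x hz')]
  rintro y ⟨τ, a, b, σ, c, e, f⟩ ⟨σ', c', e'⟩
  have same : ∀ z ∈ Q i x, σ' z = σ z := fun z hz => by
    obtain ⟨z', hz', g⟩ := c.surjOn (hs i y (c'.mapsTo hz))
    rw [← g, h2 z (hs i x hz) z' hz']
    have := norm_sub_le_norm_sub_add_norm_sub z (σ z') z'
    have p := e z' hz'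
    have q := e' z hz
    rw [← g, norm_sub_rev] at q
    linarith
  rw [← tr x y τ a b, f _ (mem j x), eq_iff_iff]
  refine ⟨fun g => ?_, fun g => same _ g ▸ c'.mapsTo g⟩
  obtain ⟨z, hz, g'⟩ := c'.surjOn g
  rw [same z hz] at g'
  exact c.injOn (hs i x hz) (mem_rtRe.1 (mem j x)) g' ▸ hz

theorem rt_low {p : C → ℂ[X]} (hc : ∀ n, Continuous fun x => (p x).coeff n) (h0 : ∀ x, p x ≠ 0)
    (hd : ∀ x y, (p x).natDegree = (p y).natDegree) (x : C) {z : ℂ} (hz : z ∈ (p x).roots.toFinset)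
    {ε : ℝ} (hε : 0 < ε) : ∀ᶠ y in 𝓝 x, ∃ w ∈ (p y).roots.toFinset, ‖w - z‖ < ε := by
  have hz0 : (p x).eval z = 0 := ((mem_roots (h0 x)).1 (Multiset.mem_toFinset.1 hz))
  have c1 : Continuous fun y => (p y).eval z := by
    have : (fun y => (p y).eval z) =
        fun y => ∑ n ∈ Finset.range ((p x).natDegree + 1), (p y).coeff n * z ^ n :=
      funext fun y => by rw [eval_eq_sum_range, hd y x]
    rw [this]
    exact continuous_finsetSum _ fun n _ => (hc n).mul continuous_const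
  have c2 : Continuous fun y => (p y).leadingCoeff := by
    have : (fun y => (p y).leadingCoeff) = fun y => (p y).coeff (p x).natDegree :=
      funext fun y => by rw [leadingCoeff, hd y x]
    rw [this]
    exact hc _
  have c3 : Continuous fun y => ‖(p y).leadingCoeff‖ * ε ^ (p x).natDegree - ‖(p y).eval z‖ :=
    (c2.norm.mul continuous_const).sub c1.norm
  have h1 : 0 < ‖(p x).leadingCoeff‖ * ε ^ (p x).natDegree - ‖(p x).eval z‖ := by
    rw [hz0, norm_zero, sub_zero]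
    exact mul_pos (norm_pos_iff.2 (leadingCoeff_ne_zero.2 (h0 x))) (pow_pos hε _)
  refine (c3.continuousAt.eventually (lt_mem_nhds h1)).mono fun y hy => ?_
  by_contra! e
  have sp := IsAlgClosed.splits (p y)
  have e1 : ‖(p y).eval z‖ = ‖(p y).leadingCoeff‖ * ((p y).roots.map fun w => ‖z - w‖).prod := by
    rw [sp.eval_eq_prod_roots, norm_mul]
    congr 1
    have := map_multiset_prod (normHom (α := ℂ)) ((p y).roots.map fun w => z - w)
    rw [Multiset.map_map] at this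
    exact this
  have e2 : ε ^ (p x).natDegree ≤ ((p y).roots.map fun w => ‖z - w‖).prod := by
    rw [hd x y, sp.natDegree_eq_card_roots, ← Multiset.prod_replicate, ← Multiset.map_const']
    exact Multiset.prod_map_le_prod_map₀ _ _ (fun _ _ => hε.le) fun w hw => by
      rw [norm_sub_rev]; exact e w (Multiset.mem_toFinset.2 hw)
  have := mul_le_mul_of_nonneg_left e2 (norm_nonneg (p y).leadingCoeff)
  linarith

end Pool.Agent.Lib.MP_d4c0ca_ag.T
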