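import Pool.Agent.Lib.MP_d4c0ca_ag.T.Cell
import Pool.Agent.Lib.MP_d4c0ca_ag.T.Roots
import Pool.Agent.Lib.MP_d4c0ca_ag.T.Sat
import Pool.Agent.Lib.MP_d4c0ca_ag.Main

/-! Cylindrical decomposition adapted to real polynomial functions. -/

namespace Pool.Agent.Lib.MP_d4c0ca_ag.T

open Polynomial Finset

variable {X : Type} [NormedAddCommGroup X] [NormedSpace ℝ X] {α β : Type}

/-- evaluation of a polynomial function, with complex values -/
noncomputable def evP (x : X) : PF X →+* ℂ :=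
  Complex.ofRealHom.comp ((Pi.evalRingHom (fun _ => ℝ) x).comp (PF X).val.toRingHom)

theorem evP_apply (x : X) (a : PF X) : evP x a = (a.1 x : ℂ) := rfl

theorem RC.of_det {φ : X → α} {ψ : X → β} (h : RC φ) (e : ∀ x y, φ x = φ y → ψ x = ψ y) : RC ψ :=
  h.imp fun _ h => ⟨h.1, fun x y a => e x y (h.2 x y a)⟩

theorem cad_nf {q : X × ℝ → ℝ} (h : q ∈ PF (X × ℝ)) :
    ∃ p : (PF X)[X], ∀ x (t : ℝ), (q (x, t) : ℂ) = (p.map (evP x)).eval (t : ℂ) := by
  induction h using Algebra.adjoin_induction with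
  | mem f hf =>
    obtain ⟨l, rfl⟩ := hf
    refine ⟨C ⟨_, PF.lin (l.comp (ContinuousLinearMap.inl ℝ X ℝ))⟩ +
      C ⟨_, PF.const (l (0, 1))⟩ * Polynomial.X, fun x t => ?_⟩
    have : l (x, t) = l (x, 0) + l (0, 1) * t := by
      rw [mul_comm, ← smul_eq_mul, ← map_smul, ← map_add]; simp
    simp [evP_apply, this]
  | algebraMap c => exact ⟨C ⟨_, PF.const c⟩, fun x t => by simp [evP_apply]⟩
  | add _ _ _ _ a b =>
    obtain ⟨p, hp⟩ := a
    obtain ⟨r, hr⟩ := b
    exact ⟨p + r, fun x t => by simp [hp, hr]⟩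
  | mul _ _ _ _ a b =>
    obtain ⟨p, hp⟩ := a
    obtain ⟨r, hr⟩ := b
    exact ⟨p * r, fun x t => by simp [hp, hr]⟩

theorem cad_re {κ : Type} (a : κ → PF X) (p : MvPolynomial κ ℂ) :
    (fun x => (MvPolynomial.eval (fun i => evP x (a i)) p).re) ∈ PF X ∧
      (fun x => (MvPolynomial.eval (fun i => evP x (a i)) p).im) ∈ PF X := by
  induction p using MvPolynomial.induction_on with
  | C c => exact ⟨by simpa using PF.const c.re, by simpa using PF.const c.im⟩
  | add p q hp hq =>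
    simp only [map_add, Complex.add_re, Complex.add_im]
    exact ⟨add_mem hp.1 hq.1, add_mem hp.2 hq.2⟩
  | mul_X p s hp =>
    simp only [map_mul, MvPolynomial.eval_X, evP_apply, Complex.mul_re, Complex.mul_im,
      Complex.ofReal_re, Complex.ofReal_im, mul_zero, sub_zero, zero_add] at hp ⊢
    exact ⟨mul_mem hp.1 (a s).2, mul_mem hp.2 (a s).2⟩

theorem cad_rc {κ : Type} {P : (κ → ℂ) → Prop} (hP : Def P) (a : κ → PF X) :
    RC fun x => P fun i => evP x (a i) := by
  obtain ⟨A, ⟨T, hT⟩, h⟩ := hP.constructible (h := id) (by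
    rintro _ ⟨i, g, rfl, rfl⟩; exact ⟨i, rfl⟩)
  refine (RC.pi fun p : T => RC.bin And (RC.zero (cad_re a p.1).1)
    (RC.zero (cad_re a p.1).2)).of_det fun x y e => ?_
  have : ∀ p ∈ T, MvPolynomial.eval (fun i => evP x (a i)) p = 0 ↔
      MvPolynomial.eval (fun i => evP y (a i)) p = 0 := fun p hp => by
    simpa only [Complex.ext_iff, Complex.zero_re, Complex.zero_im, eq_iff_iff] using
      congrFun e ⟨p, hp⟩
  rw [h, h]
  exact propext ⟨hT _ _ this, hT _ _ fun p hp => (this p hp).symm⟩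

theorem cad_supp (p : (PF X)[X]) : RC fun x => (p.map (evP x)).support := by
  refine (RC.pi fun n : p.support => RC.zero (p.coeff n).2).of_det fun x y e => Finset.ext fun n => ?_
  simp only [mem_support_iff, coeff_map, evP_apply, ne_eq, Complex.ofReal_eq_zero]
  by_cases h : n ∈ p.support
  · rw [congrFun e ⟨n, h⟩]
  · simp [notMem_support_iff.1 h]

theorem cad_card (p : (PF X)[X]) : RC fun x => (p.map (evP x)).roots.toFinset.card := by
  let v : (ℕ → ℂ) → ℂ → ℂ := fun a w => ∑ i ∈ range (p.natDegree + 1), a i * w ^ i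
  have hv : Tm fun q : (ℕ → ℂ) × ℂ => v q.1 q.2 :=
    Tm.sumC _ fun i => (Tm.fst'.app i).mulC (Tm.snd'.powC i)
  have hB : Def fun q : (ℕ → ℂ) × ℂ => (¬∀ u, v q.1 u = 0) ∧ v q.1 q.2 = 0 :=
    ((Def.all (P := fun a u => v a u = 0) (Def.eq hv (Tm.const _))).not.comp Tm.fst').and
      (Def.eq hv (Tm.const _))
  have e1 : ∀ x w, v (fun i => evP x (p.coeff i)) w = (p.map (evP x)).eval w := fun x w => by
    rw [eval_eq_sum_range' (Nat.lt_succ_of_le natDegree_map_le)]
    simp only [v, coeff_map]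
  have e2 : ∀ x k, (∃ f : Fin k → ℂ, (∀ i j, f i = f j → i = j) ∧ ∀ i,
      (¬∀ u, v (fun i => evP x (p.coeff i)) u = 0) ∧ v (fun i => evP x (p.coeff i)) (f i) = 0) ↔
      k ≤ (p.map (evP x)).roots.toFinset.card := fun x k => by
    rw [le_card_iff]
    refine exists_congr fun f => and_congr_right fun _ => forall_congr' fun i => ?_
    simp only [e1, Multiset.mem_toFinset, mem_roots', IsRoot.def]
    exact and_congr_left' (not_congr ⟨zero_of_eval_zero _, fun e u => by rw [e, eval_zero]⟩)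
  have le : ∀ x, (p.map (evP x)).roots.toFinset.card < p.natDegree + 1 := fun x =>
    Nat.lt_succ_of_le ((Multiset.toFinset_card_le _).trans ((card_roots' _).trans natDegree_map_le))
  refine (RC.pi fun k : Fin (p.natDegree + 1) => cad_rc (hB.atLeast k) p.coeff).of_det
    fun x y e => ?_
  have h : ∀ k : Fin (p.natDegree + 1), k.1 ≤ (p.map (evP x)).roots.toFinset.card ↔
      k.1 ≤ (p.map (evP y)).roots.toFinset.card := fun k =>
    (e2 x k).symm.trans ((iff_of_eq (congrFun e k)).trans (e2 y k))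
  exact le_antisymm ((h ⟨_, le x⟩).1 le_rfl) ((h ⟨_, le y⟩).2 le_rfl)

theorem cad_fam {S : Set X} (p : (PF X)[X])
    (hs : ∀ x y : S, (p.map (evP x.1)).support = (p.map (evP y.1)).support)
    (hc : ∀ x y : S, (p.map (evP x.1)).roots.toFinset.card = (p.map (evP y.1)).roots.toFinset.card) :
    RtFam fun x : S => (p.map (evP x.1)).roots.toFinset := by
  refine ⟨fun x z hz ε hε => rt_low (p := fun x : S => p.map (evP x.1)) (fun n => ?_) (fun y e => ?_)
    (fun x y => by simp only [natDegree, degree, hs x y]) x hz hε, hc, fun x z hz => ?_⟩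
  · simp only [coeff_map, evP_apply]
    exact Complex.continuous_ofReal.comp ((PF.cont (p.coeff n).2).comp continuous_subtype_val)
  · exact (mem_roots'.1 (Multiset.mem_toFinset.1 hz)).1
      (support_eq_empty.1 ((hs x y).trans (support_eq_empty.2 e)))
  · rw [Multiset.mem_toFinset, mem_roots', IsRoot.def] at hz ⊢
    have e : (starRingEnd ℂ).comp (evP x.1) = evP x.1 := RingHom.ext fun a => Complex.conj_ofReal _
    refine ⟨hz.1, ?_⟩
    rw [← e, ← Polynomial.map_map, eval_map, eval₂_at_apply, hz.2, map_zero]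

/-- `J` is the alternating sum over cell structures adapted to any given function -/
def Good (J : (X → ℚ) → ℚ) : Prop := ∀ (α : Type) (ψ : X → α), RC ψ → ∃ C : Cells X,
  ψ.FactorsThrough C.lab ∧ ∀ φ : C.L → ℚ, (J fun x => φ (C.lab x)) = C.sum φ

theorem Good.step {J : (X → ℚ) → ℚ} (h : Good J) :
    Good fun f : X × ℝ → ℚ => J fun x => rint fun t => f (x, t) := by
  classical
  rintro α ψ ⟨Q, hQ, hψ⟩
  choose p hp using fun q : Q => cad_nf (hQ q.1 q.2)
  let P : Finset Q → X → ℂ[X] := fun S x => (∏ q ∈ S, p q).map (evP x)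
  obtain ⟨C, h1, h2⟩ := h _ _ (RC.pi fun S : Finset Q =>
    RC.bin Prod.mk (cad_supp (∏ q ∈ S, p q)) (cad_card (∏ q ∈ S, p q)))
  have hs : ∀ i S (x y : C.lab ⁻¹' {i}), (P S x).support = (P S y).support := fun i S x y =>
    congrArg Prod.fst (congrFun (h1 (x.2.trans y.2.symm)) S)
  have fam : ∀ i S, RtFam fun x : C.lab ⁻¹' {i} => (P S x).roots.toFinset := fun i S =>
    cad_fam _ (hs i S) fun x y => congrArg Prod.snd (congrFun (h1 (x.2.trans y.2.symm)) S)
  have z : ∀ i q (x y : C.lab ⁻¹' {i}), P {q} x = 0 → P {q} y = 0 := fun i q x y e =>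
    support_eq_empty.1 ((hs i _ y x).trans (support_eq_empty.2 e))
  let S : C.L → Finset Q := fun i => {q | ∀ x : C.lab ⁻¹' {i}, P {q} x ≠ 0}
  have sub : ∀ i q (x : C.lab ⁻¹' {i}),
      (P {q} x).roots.toFinset ⊆ (P (S i) x).roots.toFinset := fun i q x w hw => by
    rw [Multiset.mem_toFinset, mem_roots', IsRoot.def] at hw ⊢
    have hq : q ∈ S i := mem_filter.2 ⟨mem_univ _, fun y e => hw.1 (z i q y x e)⟩
    simp only [P, Polynomial.map_prod, eval_prod, prod_singleton] at hw ⊢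
    exact ⟨prod_ne_zero_iff.2 fun r hr => by simpa [P] using (mem_filter.1 hr).2 x,
      prod_eq_zero hq hw.2⟩
  choose s ξ c1 c2 c3 c4 using fun i => @RtFam.sections _ _ (C.conn i) _ (fam i (S i)) _ _
    (fun q => fam i {q}) (sub i)
  obtain ⟨C', d1, d2⟩ := C.step c1 c2
  have key : ∀ i (q : Q) (x y : C.lab ⁻¹' {i}) (t u : ℝ), ps (ξ i · x) t = ps (ξ i · y) u →
      q.1 (x, t) = 0 → q.1 (y, u) = 0 := fun i q x y t u e => by
    have e1 : ∀ x (t : ℝ), q.1 (x, t) = 0 ↔ (P {q} x).eval (t : ℂ) = 0 := fun x t => by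
      simp only [P, prod_singleton, ← hp, Complex.ofReal_eq_zero]
    rw [e1, e1]
    intro a
    by_cases b : P {q} x = 0
    · rw [z i q x y b, eval_zero]
    have m : (t : ℂ) ∈ (P {q} x).roots.toFinset := Multiset.mem_toFinset.2 (mem_roots'.2 ⟨b, a⟩)
    obtain ⟨k, rfl⟩ := (c3 i x t).1 (sub i q x m)
    obtain ⟨l, a1, rfl⟩ := (ps_true (c2 i y)).1 (e.symm.trans ((ps_true (c2 i x)).2 ⟨k, rfl, rfl⟩))
    obtain rfl := Fin.ext a1
    exact (mem_roots'.1 (Multiset.mem_toFinset.1 ((c4 i q l x y).1 m))).2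
  refine ⟨C', fun a b e => hψ a b fun q hq => ?_, fun φ => ?_⟩
  · obtain ⟨e1, e2⟩ := d1 a b e
    exact ⟨key _ ⟨q, hq⟩ ⟨a.1, rfl⟩ ⟨b.1, e1⟩ _ _ e2, key _ ⟨q, hq⟩ ⟨b.1, e1⟩ ⟨a.1, rfl⟩ _ _ e2.symm⟩
  · obtain ⟨φ', e1, e2⟩ := d2 φ
    simp only [e1, e2, h2]

end Pool.Agent.Lib.MP_d4c0ca_ag.T
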