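import Pool.Agent.Lib.MP_d4c0ca_ag.T.Line

/-! Finite cell structures and cylinders over them. -/

namespace Pool.Agent.Lib.MP_d4c0ca_ag.T

open Filter Topology Finset

/-- a finite partition into cells whose frontiers lie in cells of lower rank -/
structure Cells (X : Type) [TopologicalSpace X] : Type 1 where
  L : Type
  lab : X → L
  rk : L → ℕ
  dm : L → ℕ
  fin : (Set.range lab).Finite
  fr : ∀ i x, x ∈ closure (lab ⁻¹' {i}) → lab x = i ∨ rk (lab x) < rk i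
  cell : ∀ i ∈ Set.range lab, Nonempty (lab ⁻¹' {i} ≃ₜ (Fin (dm i) → ℝ))

variable {X X' : Type} [TopologicalSpace X] [TopologicalSpace X']

/-- the alternating sum over the cells -/
noncomputable def Cells.sum (C : Cells X) (φ : C.L → ℚ) : ℚ :=
  ∑ i ∈ C.fin.toFinset, (-1) ^ C.dm i * φ i

theorem Cells.euler (C : Cells X) (E : Set X → ℤ → Prop) (E0 : E ∅ 0)
    (Eadd : ∀ Y F a b, IsLocallyClosed Y → IsClosed F → E (Y ∩ F) a → E (Y \ F) b → E Y (a + b))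
    (Ecell : ∀ S d, IsLocallyClosed S → Nonempty (S ≃ₜ (Fin d → ℝ)) → E S ((-1) ^ d))
    (I : Finset C.L) : (∀ i ∈ I, i ∈ Set.range C.lab) → IsLocallyClosed (C.lab ⁻¹' I) →
      E (C.lab ⁻¹' I) (∑ i ∈ I, (-1) ^ C.dm i) := by
  classical
  induction I using Finset.induction_on_max_value C.rk with
  | empty => intro _ _; simpa using E0
  | insert a s ha hm ih =>
    intro hr hl
    have key : ∀ x ∈ closure (C.lab ⁻¹' s), C.lab x ≠ a := fun x hx e => by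
      have : C.lab ⁻¹' s = ⋃ i ∈ s, C.lab ⁻¹' {i} := by ext; simp
      rw [this, Finset.closure_biUnion] at hx
      obtain ⟨i, hi, hx⟩ := Set.mem_iUnion₂.1 hx
      rcases C.fr i x hx with h | h
      · exact ha (e ▸ h ▸ hi)
      · exact (hm i hi).not_gt (e ▸ h)
    have e1 : C.lab ⁻¹' (insert a s : Finset C.L) ∩ closure (C.lab ⁻¹' s) = C.lab ⁻¹' s :=
      Set.ext fun x => ⟨fun h => (mem_insert.1 h.1).resolve_left (key x h.2),
        fun h => ⟨mem_insert_of_mem h, subset_closure h⟩⟩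
    have e2 : C.lab ⁻¹' (insert a s : Finset C.L) \ closure (C.lab ⁻¹' s) = C.lab ⁻¹' {a} :=
      Set.ext fun x => ⟨fun h => (mem_insert.1 h.1).resolve_right fun e => h.2 (subset_closure e),
        fun h => ⟨mem_insert.2 (Or.inl h), fun e => key x e h⟩⟩
    rw [sum_insert ha, add_comm]
    refine Eadd _ (closure (C.lab ⁻¹' s)) _ _ hl isClosed_closure ?_ ?_
    · rw [e1]
      exact ih (fun i hi => hr i (mem_insert_of_mem hi))
        (e1 ▸ hl.inter isClosed_closure.isLocallyClosed)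
    · rw [e2]
      exact Ecell _ _ (e2 ▸ hl.inter isClosed_closure.isOpen_compl.isLocallyClosed)
        (C.cell a (hr a (mem_insert_self a s)))

theorem Cells.conn (C : Cells X) (i : C.L) : PreconnectedSpace (C.lab ⁻¹' {i}) := by
  by_cases h : i ∈ Set.range C.lab
  · obtain ⟨e⟩ := C.cell i h
    exact ⟨by simpa using isPreconnected_range e.symm.continuous⟩
  · exact ⟨Set.Subsingleton.isPreconnected fun x _ => (h ⟨x.1, x.2⟩).elim⟩

theorem Cells.map (C : Cells X) (h : X' ≃ₜ X) : ∃ C' : Cells X',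
    (∀ x y, C'.lab x = C'.lab y → C.lab (h x) = C.lab (h y)) ∧
    ∀ φ : C'.L → ℚ, ∃ ψ : C.L → ℚ, (∀ x, φ (C'.lab x) = ψ (C.lab (h x))) ∧ C'.sum φ = C.sum ψ := by
  have e : Set.range (C.lab ∘ h) = Set.range C.lab := h.surjective.range_comp _
  refine ⟨⟨C.L, C.lab ∘ h, C.rk, C.dm, e ▸ C.fin, fun i x hx => C.fr i (h x) ?_, fun i hi => ?_⟩,
    fun _ _ => id, fun φ => ⟨φ, fun _ => rfl, sum_congr (by ext; simp [e]) fun _ _ => rfl⟩⟩
  · rwa [Set.preimage_comp, ← h.preimage_closure] at hx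
  · exact ⟨(h.sets rfl).trans (C.cell i (e ▸ hi)).some⟩

theorem Cells.step (C : Cells X) {s : C.L → ℕ} {ξ : ∀ i, Fin (s i) → C.lab ⁻¹' {i} → ℝ}
    (hc : ∀ i k, Continuous (ξ i k)) (hm : ∀ i x, StrictMono (ξ i · x)) : ∃ C' : Cells (X × ℝ),
    (∀ p q, C'.lab p = C'.lab q → ∃ h : C.lab q.1 = C.lab p.1,
      ps (ξ _ · ⟨p.1, rfl⟩) p.2 = ps (ξ _ · ⟨q.1, h⟩) q.2) ∧
    ∀ φ : C'.L → ℚ, ∃ ψ : C.L → ℚ, (∀ x, (rint fun t => φ (C'.lab (x, t))) = ψ (C.lab x)) ∧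
      C'.sum φ = C.sum ψ := by
  classical
  let lab : X × ℝ → C.L × ℕ × Bool := fun p => (C.lab p.1, ps (ξ _ · ⟨p.1, rfl⟩) p.2)
  have mem : ∀ p i a, lab p = (i, a) ↔ ∃ h : C.lab p.1 = i, ps (ξ i · ⟨p.1, h⟩) p.2 = a := by
    refine fun p i a => ⟨fun h => ?_, ?_⟩
    · obtain ⟨rfl, rfl⟩ := Prod.mk.inj h
      exact ⟨rfl, rfl⟩
    · rintro ⟨rfl, rfl⟩
      rfl
  have gr : ∀ i (k : Fin (s i)), Nonempty (lab ⁻¹' {(i, k.1, true)} ≃ₜ C.lab ⁻¹' {i}) := fun i k =>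
    graph_homeo (hc i k) fun p => (mem p i _).trans (exists_congr fun h => (ps_true (hm i _)).trans
      ⟨fun ⟨_, e, e'⟩ => Fin.ext e ▸ e', fun e => ⟨k, rfl, e⟩⟩)
  have ba : ∀ i, ∀ j ≤ s i, Nonempty (lab ⁻¹' {(i, j, false)} ≃ₜ ℝ × C.lab ⁻¹' {i}) :=
    fun i j hj => band_ps (hc i) (hm i) hj fun p => mem p i _
  let T : C.L → Finset (ℕ × Bool) := fun i =>
    (range (s i)).image (·, true) ∪ (range (s i + 1)).image (·, false)
  have rg : ∀ a, a ∈ Set.range lab ↔ a.1 ∈ C.fin.toFinset ∧ a.2 ∈ T a.1 := by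
    rintro ⟨i, j, b⟩
    simp only [T, Set.Finite.mem_toFinset, mem_union, mem_image, mem_range, Prod.mk.injEq]
    constructor
    · rintro ⟨p, hp⟩
      obtain ⟨h, e⟩ := (mem p i _).1 hp
      refine ⟨⟨_, h⟩, ?_⟩
      cases b
      · exact Or.inr ⟨j, Nat.lt_succ_iff.2 ((ps_false (hm i _)).1 e).1, rfl, rfl⟩
      · obtain ⟨k, rfl, -⟩ := (ps_true (hm i _)).1 e
        exact Or.inl ⟨k, k.2, rfl, rfl⟩
    · rintro ⟨⟨x, hx⟩, ⟨_, hj, rfl, rfl⟩ | ⟨_, hj, rfl, rfl⟩⟩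
      · exact ⟨_, ((gr i ⟨_, hj⟩).some.symm ⟨x, hx⟩).2⟩
      · exact ⟨_, ((ba i _ (Nat.lt_succ_iff.1 hj)).some.symm (0, ⟨x, hx⟩)).2⟩
  have fin : (Set.range lab).Finite :=
    ((C.fin.toFinset.biUnion fun i => (T i).image (i, ·)).finite_toSet).subset fun a ha =>
      mem_biUnion.2 ⟨_, ((rg a).1 ha).1, mem_image.2 ⟨_, ((rg a).1 ha).2, rfl⟩⟩
  refine ⟨⟨_, lab, fun a => 2 * C.rk a.1 + bif a.2.2 then 0 else 1,
    fun a => C.dm a.1 + bif a.2.2 then 0 else 1, fin, ?_, ?_⟩,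
    fun p q e => ((mem q _ _).1 e.symm).imp fun _ => Eq.symm, fun φ => ⟨fun i =>
      ∑ j ∈ range (s i), φ (i, j, true) - ∑ j ∈ range (s i + 1), φ (i, j, false),
      fun x => rint_ps (hm _ ⟨x, rfl⟩) fun a => φ (C.lab x, a), ?_⟩⟩
  · rintro ⟨i, a⟩ p hp
    have h1 : p.1 ∈ closure (C.lab ⁻¹' {i}) :=
      map_mem_closure continuous_fst hp fun q hq => congrArg Prod.fst hq
    rcases C.fr i p.1 h1 with h | h
    swap
    · refine Or.inr ?_
      change 2 * C.rk (C.lab p.1) + (bif _ then 0 else 1) < 2 * C.rk i + _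
      generalize (lab p).2.2 = b
      cases b <;> simp only [cond_true, cond_false] <;> omega
    let ι : C.lab ⁻¹' {i} × ℝ → X × ℝ := Prod.map Subtype.val id
    have h2 : (⟨p.1, h⟩, p.2) ∈ closure {q : C.lab ⁻¹' {i} × ℝ | ps (ξ i · q.1) q.2 = a} := by
      rw [(IsInducing.subtypeVal.prodMap IsInducing.id).closure_eq_preimage_closure_image]
      refine closure_mono (fun q hq => ?_) hp
      obtain ⟨h', e⟩ := (mem q i a).1 hq
      exact ⟨(⟨q.1, h'⟩, q.2), e, rfl⟩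
    obtain ⟨⟨j, b⟩, e⟩ : ∃ a', ps (ξ i · ⟨p.1, h⟩) p.2 = a' := ⟨_, rfl⟩
    rw [(mem p i _).2 ⟨h, e⟩]
    cases b
    · have e1 := (ps_false (hm i _)).1 e
      have h3 : ∀ᶠ q : C.lab ⁻¹' {i} × ℝ in 𝓝 (⟨p.1, h⟩, p.2), ps (ξ i · q.1) q.2 = (j, false) :=
        (eventually_all.2 fun k => (eventually_imp_distrib_left.2 fun e' =>
          (isOpen_lt ((hc i k).comp continuous_fst) continuous_snd).mem_nhds ((e1.2 k).1 e')).and
          (eventually_imp_distrib_left.2 fun e' => (isOpen_lt continuous_snd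
            ((hc i k).comp continuous_fst)).mem_nhds ((e1.2 k).2 e'))).mono
          fun q hq => (ps_false (hm i _)).2 ⟨e1.1, hq⟩
      obtain ⟨q, a1, a2⟩ := mem_closure_iff_nhds.1 h2 _ h3
      exact Or.inl (congrArg _ (a1.symm.trans a2))
    obtain ⟨j', b⟩ := a
    cases b
    · exact Or.inr (Nat.lt_succ_self _)
    · obtain ⟨q, -, hq⟩ := mem_closure_iff_nhds.1 h2 _ univ_mem
      obtain ⟨k, rfl, -⟩ := (ps_true (hm i _)).1 hq
      have := closure_minimal (t := {q : C.lab ⁻¹' {i} × ℝ | ξ i k q.1 = q.2}) (fun q hq => by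
        obtain ⟨l, a1, a2⟩ := (ps_true (hm i _)).1 hq
        exact Fin.ext a1 ▸ a2) (isClosed_eq ((hc i k).comp continuous_fst) continuous_snd) h2
      exact Or.inl (congrArg _ (e.symm.trans ((ps_true (hm i _)).2 ⟨k, rfl, this⟩)))
  · intro a ha
    obtain ⟨h1, h2⟩ := (rg a).1 ha
    obtain ⟨i, a⟩ := a
    obtain ⟨e⟩ := C.cell i (C.fin.mem_toFinset.1 h1)
    rcases mem_union.1 h2 with h | h <;> obtain ⟨j, hj, rfl⟩ := mem_image.1 h
    · exact ⟨(gr i ⟨j, mem_range.1 hj⟩).some.trans e⟩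
    · exact ⟨((ba i j (Nat.lt_succ_iff.1 (mem_range.1 hj))).some.trans
        ((Homeomorph.refl ℝ).prodCongr e)).trans
        (Fin.consEquivL ℝ fun _ : Fin (C.dm i + 1) => ℝ).toHomeomorph⟩
  · rw [Cells.sum, Cells.sum, sum_finset_product _ C.fin.toFinset T
      fun a => fin.mem_toFinset.trans (rg a)]
    refine sum_congr rfl fun i _ => ?_
    rw [sum_union (by simp [disjoint_left]), sum_image (by simp [Set.InjOn]),
      sum_image (by simp [Set.InjOn]), mul_sub, mul_sum, mul_sum, sub_eq_add_neg, ← sum_neg_distrib]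
    simp only [cond_true, cond_false, add_zero, pow_succ, mul_neg, mul_one, neg_mul]

end Pool.Agent.Lib.MP_d4c0ca_ag.T
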