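import Pool.Agent.Lib.MP_d4c0ca_ag.T.Sub

/-! The standard charts of `Proj`. -/

namespace Pool.Agent.Lib.MP_d4c0ca_ag.T

open CategoryTheory AlgebraicGeometry MvPolynomial HomogeneousLocalization
open Pool.Agent.Lib.MP_cd184e_ag.B

theorem eval₂_scale {σ R : Type} [CommRing R] (g : ℂ →+* R) (y : σ → R) (u : R) {d : ℕ}
    {f : MvPolynomial σ ℂ} (hf : f.IsHomogeneous d) :
    eval₂ g (fun l => u * y l) f = u ^ d * eval₂ g y f := by
  rw [eval₂_eq, eval₂_eq, Finset.mul_sum]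
  refine Finset.sum_congr rfl fun α hα => ?_
  rw [← hf.degree_eq_sum_deg_support hα |>.symm, mul_left_comm]
  simp only [mul_pow, Finset.prod_mul_distrib, Finset.prod_pow_eq_pow_sum]

variable {S σ : Type} [CommRing S] [Algebra ℂ S] {𝒜 : ℕ → Submodule ℂ S} [GradedAlgebra 𝒜]
  {x : σ → S} {hx : ∀ l, x l ∈ 𝒜 1}

theorem dehom_X (j l : σ) :
    dehom hx j (X l) = Proj.awayToSection 𝒜 (x j) (Away.mk 𝒜 (hx j) 1 (x l) (hx l)) := by
  simp [dehom]

theorem dehom_C (j : σ) (c : ℂ) : dehom hx j (C c) =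
    Proj.awayToSection 𝒜 (x j) (fromZeroRingHom 𝒜 _ (algebraMap ℂ (𝒜 0) c)) :=
  congrArg (Proj.awayToSection 𝒜 (x j)) (eval₂Hom_C _ _ c)

theorem dehom_self (j : σ) : dehom hx j (X j) = 1 := by
  rw [dehom_X, ← map_one (Proj.awayToSection 𝒜 (x j)).hom]
  congr 1
  ext
  rw [Away.val_mk, val_one, ← Localization.mk_one, Localization.mk_eq_mk_iff,
    Localization.r_iff_exists]
  exact ⟨1, by simp⟩

theorem rres_away {f g z : S} {m : ℕ} (hg : g ∈ 𝒜 m) (e : z = f * g) {U : (Proj 𝒜).Opens}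
    (h1 : U ≤ Proj.basicOpen 𝒜 f) (h2 : U ≤ Proj.basicOpen 𝒜 z) (a : Away 𝒜 f) :
    rres h1 (Proj.awayToSection 𝒜 f a) =
      rres h2 (Proj.awayToSection 𝒜 z (awayMap 𝒜 hg e a)) := by
  have e1 := Proj.awayMap_awayToSection 𝒜 hg e
  have e' : rres (Proj.basicOpen_mono _ _ _ ⟨_, e⟩) (Proj.awayToSection 𝒜 f a) =
      Proj.awayToSection 𝒜 z (awayMap 𝒜 hg e a) := congr($e1 a).symm
  rw [← e', rres_rres]

theorem dehom_trans {d : ℕ} {f : MvPolynomial σ ℂ} (hf : f.IsHomogeneous d) (j l : σ)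
    {U : (Proj 𝒜).Opens} (hj : U ≤ Proj.basicOpen 𝒜 (x j)) (hl : U ≤ Proj.basicOpen 𝒜 (x l)) :
    rres hj (dehom hx j f) = rres hj (dehom hx j (X l)) ^ d * rres hl (dehom hx l f) := by
  have hU : U ≤ Proj.basicOpen 𝒜 (x j * x l) := by
    rw [Proj.basicOpen_mul]; exact le_inf hj hl
  have e1 : ∀ s, rres hj (dehom hx j (X s)) =
      rres hj (dehom hx j (X l)) * rres hl (dehom hx l (X s)) := fun s => by
    rw [dehom_X, dehom_X, dehom_X, rres_away (hx l) rfl hj hU, rres_away (hx l) rfl hj hU,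
      rres_away (hx j) (mul_comm _ _) hl hU, ← map_mul, ← map_mul]
    congr 2
    ext
    simp only [awayMap_mk, val_mul, Away.val_mk, Localization.mk_mul, Localization.mk_eq_mk_iff,
      Localization.r_iff_exists]
    exact ⟨1, by simp; ring⟩
  have e2 : ∀ c, rres hj (dehom hx j (C c)) = rres hl (dehom hx l (C c)) := fun c => by
    rw [dehom_C, dehom_C, rres_away (hx l) rfl hj hU, rres_away (hx j) (mul_comm _ _) hl hU,
      awayMap_fromZeroRingHom, awayMap_fromZeroRingHom]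
  have e3 : ∀ (s) (h : U ≤ Proj.basicOpen 𝒜 (x s)), rres h (dehom hx s f) =
      eval₂ (((rres h).comp (dehom hx s)).comp C) (fun t => rres h (dehom hx s (X t))) f :=
    fun s h => RingHom.congr_fun (show (rres h).comp (dehom hx s) = eval₂Hom _ _ from
      ringHom_ext (fun c => by simp) fun t => by simp) f
  rw [e3 j hj, e3 l hl, ← eval₂_scale _ _ _ hf]
  congr 1
  exacts [RingHom.ext e2, funext e1]

theorem chart_aff (hx : ∀ l, x l ∈ 𝒜 1) (j : σ) : IsAffineOpen (Proj.basicOpen 𝒜 (x j)) :=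
  Proj.isAffineOpen_basicOpen _ _ (hx j) one_pos

theorem chart_inf (j l : σ) : Proj.basicOpen 𝒜 (x j) ⊓ Proj.basicOpen 𝒜 (x l) =
    (Proj 𝒜).basicOpen (dehom hx j (X l)) := by
  refine le_antisymm ?_ fun p hp => ?_
  · have e := dehom_trans (hx := hx) (isHomogeneous_X ℂ j) j l inf_le_left inf_le_right
    rw [dehom_self, map_one, pow_one] at e
    have := Scheme.basicOpen_of_isUnit _ (IsUnit.of_mul_eq_one _ e.symm)
    rw [rres_def, Scheme.basicOpen_res] at this
    exact this.ge.trans inf_le_right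
  · have hp' : p ∈ Proj.basicOpen 𝒜 (x j) := (Proj 𝒜).basicOpen_le _ hp
    refine ⟨hp', fun e => ?_⟩
    have h1 := ((Proj 𝒜).mem_basicOpen _ p hp').1 hp
    have h2 := congr($(ProjectiveSpectrum.Proj.awayToSection_germ 𝒜 (x j) p hp')
      (Away.mk 𝒜 (hx j) 1 (x l) (hx l)))
    rw [dehom_X] at h1
    have h3 : IsUnit ((Proj.stalkIso' 𝒜 p).symm (mapId 𝒜 (Submonoid.powers_le.mpr hp')
      (Away.mk 𝒜 (hx j) 1 (x l) (hx l)))) :=
      (congrArg IsUnit h2).mp h1
    have := p.isPrime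
    have h4 := (isUnit_iff_isUnit_val 𝒜 _ _).2 ((MulEquiv.isUnit_map _).1 h3)
    have h5 : (mapId 𝒜 (Submonoid.powers_le.mpr hp') (Away.mk 𝒜 (hx j) 1 (x l) (hx l))).val =
      Localization.mk (x l) ⟨x j ^ 1, pow_mem (show x j ∈ Ideal.primeCompl _ from hp') 1⟩ := rfl
    rw [h5, Localization.mk_eq_mk', IsLocalization.AtPrime.isUnit_mk'_iff] at h4
    exact h4 e

theorem chart_cover (hx : ∀ l, x l ∈ 𝒜 1) (hgen : Algebra.adjoin ℂ (Set.range x) = ⊤) :
    ⨆ j, Proj.basicOpen 𝒜 (x j) = ⊤ := by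
  refine Proj.iSup_basicOpen_eq_top' _ _ (fun l => ⟨1, hx l⟩) ?_
  rw [eq_top_iff]
  intro p _
  have hp : p ∈ Algebra.adjoin ℂ (Set.range x) := hgen ▸ Algebra.mem_top
  induction hp using Algebra.adjoin_induction with
  | mem y hy => exact Algebra.subset_adjoin hy
  | algebraMap c => exact Subalgebra.algebraMap_mem _ (algebraMap ℂ (𝒜 0) c)
  | add y z _ _ hy hz => exact add_mem (hy trivial) (hz trivial)
  | mul y z _ _ hy hz => exact mul_mem (hy trivial) (hz trivial)

theorem aeval_mem (hx : ∀ l, x l ∈ 𝒜 1) {d : ℕ} {f : MvPolynomial σ ℂ} (hf : f.IsHomogeneous d) :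
    aeval x f ∈ 𝒜 d := by
  rw [aeval_def, eval₂_eq]
  refine sum_mem fun α hα => ?_
  rw [← Algebra.smul_def, hf.degree_eq_sum_deg_support hα]
  refine Submodule.smul_mem _ _ ?_
  simpa using SetLike.prod_pow_mem_graded 𝒜 (fun _ => 1) x α (fun i (_ : i ∈ α.support) => hx i)

theorem exists_homog (hx : ∀ l, x l ∈ 𝒜 1) (hgen : Algebra.adjoin ℂ (Set.range x) = ⊤) {d : ℕ}
    {a : S} (ha : a ∈ 𝒜 d) : ∃ f : MvPolynomial σ ℂ, f.IsHomogeneous d ∧ aeval x f = a := by
  obtain ⟨p, rfl⟩ : a ∈ (aeval x : MvPolynomial σ ℂ →ₐ[ℂ] S).range := by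
    rw [← Algebra.adjoin_range_eq_range_aeval, hgen]; trivial
  refine ⟨homogeneousComponent d p, homogeneousComponent_isHomogeneous _ _, ?_⟩
  change _ = aeval x p
  have e : GradedRing.proj 𝒜 d (aeval x p) = aeval x p := DirectSum.decompose_of_mem_same 𝒜 ha
  rw [← e]
  conv_rhs => rw [← sum_homogeneousComponent p, map_sum, map_sum]
  refine ((Finset.sum_eq_single d (fun e _ he => DirectSum.decompose_of_mem_ne 𝒜
    (aeval_mem hx (homogeneousComponent_isHomogeneous _ _)) he) fun h => by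
      rw [homogeneousComponent_eq_zero _ _ (by simpa using h)]; simp).trans ?_).symm
  exact DirectSum.decompose_of_mem_same 𝒜 (aeval_mem hx (homogeneousComponent_isHomogeneous _ _))

theorem dehom_homog (j : σ) {d : ℕ} {f : MvPolynomial σ ℂ} (hf : f.IsHomogeneous d) :
    dehom hx j f = Proj.awayToSection 𝒜 (x j)
      (Away.mk 𝒜 (hx j) d (aeval x f) (by simpa using aeval_mem hx hf)) := by
  refine congrArg (Proj.awayToSection 𝒜 (x j)) (HomogeneousLocalization.val_injective _ ?_)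
  let L := Localization.Away (x j)
  let u : L := Localization.mk 1 ⟨x j, Submonoid.mem_powers _⟩
  have e := eval₂_scale (algebraMap ℂ L) (fun l => algebraMap S L (x l)) u hf
  change algebraMap (Away 𝒜 (x j)) L (eval₂ _ _ f) = _
  rw [eval₂_comp_left, Away.val_mk]
  refine (congrArg₂ (eval₂ · · f) ?_ ?_).trans (e.trans ?_)
  · exact RingHom.ext fun c => (IsScalarTower.algebraMap_apply ℂ S L c).symm
  · funext l
    change Localization.mk (x l) ⟨x j ^ 1, _⟩ =
      Localization.mk 1 ⟨x j, _⟩ * Localization.mk (x l) 1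
    simp only [Localization.mk_mul, one_mul, pow_one, mul_one]
  · rw [show eval₂ (algebraMap ℂ L) (fun l => algebraMap S L (x l)) f =
      algebraMap S L (aeval x f) from (aeval_algebraMap_apply L x f), Localization.mk_pow,
      ← Localization.mk_one_eq_algebraMap, Localization.mk_mul, one_pow, one_mul, mul_one]
    rfl

theorem dehom_surj (hgen : Algebra.adjoin ℂ (Set.range x) = ⊤) (j : σ) :
    Function.Surjective (dehom hx j) := fun s => by
  obtain ⟨z, rfl⟩ :=
    (Proj.basicOpenIsoAway 𝒜 (x j) (hx j) one_pos).commRingCatIsoToRingEquiv.surjective s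
  obtain ⟨n, a, ha, rfl⟩ := Away.mk_surjective 𝒜 (hx j) z
  obtain ⟨f, hf, rfl⟩ := exists_homog hx hgen (d := n) (a := a) (by simpa using ha)
  exact ⟨f, dehom_homog j hf⟩

theorem chart_noeth [Finite σ] (hx : ∀ l, x l ∈ 𝒜 1) (hgen : Algebra.adjoin ℂ (Set.range x) = ⊤)
    (j : σ) : IsNoetherianRing Γ(Proj 𝒜, Proj.basicOpen 𝒜 (x j)) :=
  isNoetherianRing_of_surjective _ _ (dehom hx j) (dehom_surj hgen j)

theorem chart_dom [IsDomain S] (hx : ∀ l, x l ∈ 𝒜 1) (j : σ) :
    Subsingleton Γ(Proj 𝒜, Proj.basicOpen 𝒜 (x j)) ∨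
      IsDomain Γ(Proj 𝒜, Proj.basicOpen 𝒜 (x j)) := by
  let e := (Proj.basicOpenIsoAway 𝒜 (x j) (hx j) one_pos).commRingCatIsoToRingEquiv
  by_cases h : x j = 0
  · have : Subsingleton (Away 𝒜 (x j)) := HomogeneousLocalization.subsingleton 𝒜 ⟨1, by simp [h]⟩
    exact Or.inl e.symm.injective.subsingleton
  · have : IsDomain (Localization.Away (x j)) :=
      IsLocalization.isDomain_localization (powers_le_nonZeroDivisors_of_noZeroDivisors h)
    have : IsDomain (Away 𝒜 (x j)) := Function.Injective.isDomain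
      (algebraMap (Away 𝒜 (x j)) (Localization.Away (x j))) (HomogeneousLocalization.val_injective _)
    exact Or.inr (e.symm.injective.isDomain e.symm.toRingHom)

end Pool.Agent.Lib.MP_d4c0ca_ag.T
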