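import Pool.Agent.Lib.MP_d4c0ca_ag.Defs

/-! The analytic topology on the points of a Quot scheme and the topological Euler
characteristic. -/

namespace Pool.Agent.Lib.MP_d4c0ca_ag.T

open CategoryTheory TopologicalSpace Opposite MvPolynomial

/-- Global sections of sheaves of rational vector spaces. -/
noncomputable def Γ (X : TopCat.{0}) : TopCat.Sheaf (ModuleCat.{0} ℚ) X ⥤ ModuleCat.{0} ℚ :=
  TopCat.Sheaf.forget _ X ⋙ (evaluation _ _).obj (op ⊤)

instance (X : TopCat.{0}) : (Γ X).Additive := ⟨rfl⟩

/-- Rational cohomology: right derived functors of global sections on the constant sheaf. -/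
noncomputable def H (X : TopCat.{0}) (i : ℕ) : ModuleCat.{0} ℚ :=
  ((Γ X).rightDerived i).obj
    ((constantSheaf (Opens.grothendieckTopology X) (ModuleCat.{0} ℚ)).obj (ModuleCat.of ℚ ℚ))

/-- The total cohomology is finite dimensional. -/
def FinType (X : TopCat.{0}) : Prop :=
  (∀ i, Module.Finite ℚ (H X i)) ∧ {i | Nontrivial (H X i)}.Finite

/-- The topological Euler characteristic. -/
noncomputable def eulerChar (X : TopCat.{0}) : ℤ :=
  ∑ᶠ i, (-1) ^ i * (Module.finrank ℚ (H X i) : ℤ)

variable {σ ι : Type} [Fintype σ] [DecidableEq σ] [Fintype ι]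

/-- Exponents of the monomials of degree `d`. -/
abbrev Mon (σ : Type) [Fintype σ] [DecidableEq σ] (d : ℕ) : Type :=
  ↥(Finset.univ.finsuppAntidiag d : Finset (σ →₀ ℕ))

/-- The degree `d` part of the free graded module, with the monomial basis as orthonormal basis. -/
abbrev E (σ ι : Type) [Fintype σ] [DecidableEq σ] (d : ℕ) : Type :=
  EuclideanSpace ℂ (ι × Mon σ d)

/-- The element of the free module with given coefficients. -/
noncomputable def toPoly (d : ℕ) : E σ ι d →ₗ[ℂ] (ι → MvPolynomial σ ℂ) where
  toFun v i := ∑ α : Mon σ d, monomial α.1 (v (i, α))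
  map_add' v w := funext fun i => by simp [Finset.sum_add_distrib]
  map_smul' c v := funext fun i => by simp [Finset.smul_sum, smul_monomial]

/-- The degree `d` part of a submodule. -/
noncomputable def piece (K : Submodule (MvPolynomial σ ℂ) (ι → MvPolynomial σ ℂ)) (d : ℕ) :
    Submodule ℂ (E σ ι d) := (K.restrictScalars ℂ).comap (toPoly d)

/-- The orthogonal projection onto the degree `d` part: a point of the Grassmannian. -/
noncomputable def proj (K : Submodule (MvPolynomial σ ℂ) (ι → MvPolynomial σ ℂ)) (d : ℕ) :
    E σ ι d →L[ℂ] E σ ι d := (piece K d).starProjection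

/-- The points of the Quot scheme with the topology induced from the Grassmannian of subspaces of
the degree `d` part. -/
noncomputable def QuotTop (M : Submodule (MvPolynomial σ ℂ) (ι → MvPolynomial σ ℂ)) (n d : ℕ) :
    TopCat.{0} :=
  @TopCat.of (QuotPts M n) (TopologicalSpace.induced (fun K => proj K.1 d) inferInstance)

end Pool.Agent.Lib.MP_d4c0ca_ag.T
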