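import Pool.Agent.Lib.MP_d4c0ca_ag.T.Sat
import Pool.Agent.Lib.MP_d4c0ca_ag.T.Chi
import Pool.Agent.Lib.MP_d4c0ca_ag.CF

/-! The interface of the Euler integral on real vector spaces. -/

namespace Pool.Agent.Lib.MP_d4c0ca_ag.T

/-- An Euler integral for functions determined by vanishing patterns of real polynomials. -/
structure EInt where
  I : ∀ (X : Type) [NormedAddCommGroup X] [NormedSpace ℝ X] [FiniteDimensional ℝ X], (X → ℚ) → ℚ
  lin : ∀ (X Y : Type) [NormedAddCommGroup X] [NormedSpace ℝ X] [FiniteDimensional ℝ X]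
    [NormedAddCommGroup Y] [NormedSpace ℝ Y] [FiniteDimensional ℝ Y] (e : X ≃L[ℝ] Y)
    (ψ : Y → ℚ), RC ψ → I X (fun x => ψ (e x)) = I Y ψ
  fub : ∀ (T X : Type) [NormedAddCommGroup T] [NormedSpace ℝ T] [FiniteDimensional ℝ T]
    [NormedAddCommGroup X] [NormedSpace ℝ X] [FiniteDimensional ℝ X] (ψ : T × X → ℚ), RC ψ →
    RC (fun x => I T fun t => ψ (t, x)) → I (T × X) ψ = I X fun x => I T fun t => ψ (t, x)
  add : ∀ (X : Type) [NormedAddCommGroup X] [NormedSpace ℝ X] [FiniteDimensional ℝ X]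
    (φ ψ : X → ℚ) (c : ℚ), RC φ → RC ψ → I X (fun x => φ x + c * ψ x) = I X φ + c * I X ψ
  top : ∀ (X : Type) [NormedAddCommGroup X] [NormedSpace ℝ X] [FiniteDimensional ℝ X]
    [LocallyCompactSpace X] (Y : Set X), IsLocallyClosed Y → RC (· ∈ Y) →
    ∃ c : ℤ, Chi Y c ∧ I X (fun x => ind (x ∈ Y)) = c

end Pool.Agent.Lib.MP_d4c0ca_ag.T
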