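import Pool.Agent.Lib.MP_d4c0ca_ag.T.Cad
import Pool.Agent.Lib.MP_d4c0ca_ag.T.EI

/-! The Euler integral on real vector spaces. -/

namespace Pool.Agent.Lib.MP_d4c0ca_ag.T

open Finset Pool.Agent.Lib.MP_741c07_al AS

theorem chi_pi (n : ℕ) : Chi (Set.univ : Set (Fin n → ℝ)) ((-1) ^ n) := by
  obtain ⟨η, h⟩ := gen_pi ℚ n
  have h0 := Gen.hc h
  have h1 : ∀ i : ℤ, i ≠ n → hc (Set.univ : Set (Fin n → ℝ)) i = 0 := fun i hi =>
    hc_zero (ex0_vec ℚ _ (by simpa using hi))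
  refine ⟨isClosed_univ.isLocallyClosed, ⟨fun i => ?_, (Set.finite_singleton (n : ℤ)).subset
    fun i hi => by_contra fun e => hi (h1 i e)⟩, ?_⟩
  · by_cases e : i = n
    · rw [e, h0]; exact Cardinal.one_lt_aleph0
    · rw [h1 i e]; exact Cardinal.aleph0_pos
  · rw [alt, finsum_eq_single _ (n : ℤ) fun i hi => by simp [h1 i hi]]
    simp [h0, Int.coe_negOnePow_natCast]

theorem chi_cell {X : Type} [TopologicalSpace X] (S : Set X) (d : ℕ) (hS : IsLocallyClosed S)
    (h : Nonempty (S ≃ₜ (Fin d → ℝ))) : Chi S ((-1) ^ d) := by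
  classical
  obtain ⟨e⟩ := h
  refine Chi.homeo (j := fun x => if h : x ∈ S then e ⟨x, h⟩ else 0) (r := fun y => e.symm y) hS
    (Set.mapsTo_univ _ _) ?_ (fun y _ => (e.symm y).2) (by fun_prop) (fun x hx => ?_)
    (fun y _ => ?_) (chi_pi d)
  · exact continuousOn_iff_continuous_domRestrict.2 (e.continuous.congr fun x => by
      show e x = dite _ _ _
      rw [dif_pos x.2])
  · simp [hx]
  · simp

variable {X Y : Type} [NormedAddCommGroup X] [NormedSpace ℝ X] [NormedAddCommGroup Y]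
  [NormedSpace ℝ Y] {J J' : (X → ℚ) → ℚ}

theorem Good.map (h : Good J) (e : Y ≃L[ℝ] X) : Good fun f : Y → ℚ => J fun x => f (e.symm x) := by
  intro α ψ hψ
  obtain ⟨C, h1, h2⟩ := h _ _ (hψ.lin (e.symm : X →L[ℝ] Y))
  obtain ⟨C', d1, d2⟩ := C.map e.toHomeomorph
  refine ⟨C', fun a b q => by simpa using h1 (d1 a b q), fun φ => ?_⟩
  obtain ⟨φ', e1, e2⟩ := d2 φ
  rw [e2, ← h2]
  simp [e1]

theorem good_zero : Good fun f : (Fin 0 → ℝ) → ℚ => f default := fun _ _ _ =>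
  ⟨⟨Unit, fun _ => (), fun _ => 0, fun _ => 0, Set.toFinite _, fun _ _ _ => Or.inl rfl,
    fun _ _ => ⟨(Homeomorph.setCongr (by ext; simp)).trans (Homeomorph.Set.univ _)⟩⟩,
    fun a b _ => by rw [Subsingleton.elim a b],
    fun φ => by rw [Cells.sum, Finset.sum_eq_single ()] <;> simp⟩

theorem Good.sum (h : Good J) {ι : Type} [Fintype ι] {ψ : ι → X → ℚ} (hψ : ∀ i, RC (ψ i))
    (c : ι → ℚ) : (J fun x => ∑ i, c i * ψ i x) = ∑ i, c i * J (ψ i) := by
  obtain ⟨C, h1, h2⟩ := h _ _ (RC.pi hψ)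
  let φ := Function.extend C.lab (fun x i => ψ i x) 0
  have e : ∀ i x, ψ i x = φ (C.lab x) i := fun i x => (congrFun (h1.extend_apply 0 x) i).symm
  have e' : ∀ i, J (ψ i) = C.sum fun l => φ l i := fun i => by
    rw [← h2]; exact congrArg J (funext (e i))
  simp only [e']
  simp only [e]
  rw [h2 fun l => ∑ i, c i * φ l i]
  simp only [Cells.sum, mul_sum]
  rw [sum_comm]
  exact sum_congr rfl fun _ _ => sum_congr rfl fun _ _ => by ring

theorem Good.top [LocallyCompactSpace X] (h : Good J) {A : Set X} (hl : IsLocallyClosed A)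
    (hA : RC (· ∈ A)) : ∃ c : ℤ, Chi A c ∧ (J fun x => ind (x ∈ A)) = c := by
  classical
  obtain ⟨C, h1, h2⟩ := h _ _ hA
  let I := C.fin.toFinset.filter (· ∈ C.lab '' A)
  have e : ∀ x, C.lab x ∈ C.lab '' A ↔ x ∈ A := fun x =>
    ⟨fun ⟨y, a, b⟩ => (iff_of_eq (h1 b)).1 a, fun a => ⟨x, a, rfl⟩⟩
  have e' : C.lab ⁻¹' I = A := Set.ext fun x => by simp only [I, ← e]; simp
  refine ⟨_, e' ▸ C.euler Chi Chi.empty (fun _ _ _ _ => Chi.add) chi_cell I
    (fun i hi => C.fin.mem_toFinset.1 (mem_filter.1 hi).1) (e' ▸ hl), ?_⟩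
  have := h2 fun l => ind (l ∈ C.lab '' A)
  simp only [e] at this
  rw [this, Cells.sum, Int.cast_sum, sum_filter]
  refine sum_congr rfl fun i _ => ?_
  split_ifs with a
  · rw [ind_pos a]; simp
  · rw [ind_neg a, mul_zero]

theorem Good.uniq [LocallyCompactSpace X] (h : Good J) (h' : Good J') {ψ : X → ℚ} (hψ : RC ψ) :
    J ψ = J' ψ := by
  classical
  obtain ⟨Q, h1, h2⟩ := hψ
  let pat : X → Q → Prop := fun x q => q.1 x = 0
  have hp : RC pat := RC.pi fun q : Q => RC.zero (h1 q.1 q.2)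
  have hf : ψ.FactorsThrough pat := fun x y e => h2 x y fun q hq => iff_of_eq (congrFun e ⟨q, hq⟩)
  have e : ψ = fun x => ∑ S : Q → Prop, Function.extend pat ψ 0 S * ind (x ∈ pat ⁻¹' {S}) :=
    funext fun x => by
      rw [sum_eq_single (pat x) (fun S _ hS => by
        rw [ind_neg (p := x ∈ pat ⁻¹' {S}) (Ne.symm hS), mul_zero]) (by simp),
        hf.extend_apply, ind_pos (p := x ∈ pat ⁻¹' {pat x}) rfl, mul_one]
  have hr : ∀ S, RC (· ∈ pat ⁻¹' {S}) := fun S => hp.map (· = S)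
  have hl : ∀ S, IsLocallyClosed (pat ⁻¹' {S}) := fun S => by
    have c : ∀ q : Q, IsClosed {x | q.1 x = 0} := fun q =>
      isClosed_eq (PF.cont (h1 q.1 q.2)) continuous_const
    refine ⟨⋂ q ∈ {q | ¬S q}, {x | q.1 x = 0}ᶜ, ⋂ q ∈ {q | S q}, {x | q.1 x = 0},
      (Set.toFinite _).isOpen_biInter fun q _ => (c q).isOpen_compl,
      isClosed_biInter fun q _ => c q, Set.ext fun x => ?_⟩
    simp only [Set.mem_preimage, Set.mem_singleton_iff, funext_iff, pat, eq_iff_iff,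
      Set.mem_inter_iff, Set.mem_iInter, Set.mem_ofPred_eq, Set.mem_compl_iff]
    exact ⟨fun a => ⟨fun q b c => b ((a q).1 c), fun q => (a q).2⟩,
      fun a q => ⟨fun b => by_contra fun c => a.1 q c b, a.2 q⟩⟩
  rw [e, h.sum fun S => (hr S).map ind, h'.sum fun S => (hr S).map ind]
  refine sum_congr rfl fun S _ => ?_
  obtain ⟨c, a1, a2⟩ := h.top (hl S) (hr S)
  obtain ⟨c', b1, b2⟩ := h'.top (hl S) (hr S)
  rw [a2, b2, a1.uniq b1]

/-- the iterated real Euler integral -/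
noncomputable def Jn : (n : ℕ) → ((Fin n → ℝ) → ℚ) → ℚ
  | 0, f => f default
  | n + 1, f => Jn n fun y => rint fun t => f (Fin.cons t y)

theorem Good.pi (h : Good J) : ∀ n : ℕ,
    Good fun f : X × (Fin n → ℝ) → ℚ => J fun x => Jn n fun y => f (x, y)
  | 0 => by
    have := h.map (ContinuousLinearEquiv.prodUnique ℝ X (Fin 0 → ℝ))
    refine (congrArg Good (funext fun f => congrArg J (funext fun x => ?_))).mp this
    exact congrArg (fun y => f (x, y)) (Subsingleton.elim _ _)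
  | n + 1 => (Good.pi h n).step.map ((ContinuousLinearEquiv.prodAssoc ℝ X (Fin n → ℝ) ℝ).trans
      ((ContinuousLinearEquiv.refl ℝ X).prodCongr ((ContinuousLinearEquiv.prodComm ℝ _ _).trans
        (Fin.consEquivL ℝ fun _ : Fin (n + 1) => ℝ)))).symm

/-- coordinates -/
noncomputable def coE (T : Type) [NormedAddCommGroup T] [NormedSpace ℝ T] [FiniteDimensional ℝ T] :
    T ≃L[ℝ] (Fin (Module.finrank ℝ T) → ℝ) := ContinuousLinearEquiv.ofFinrankEq (by simp)

/-- the Euler integral -/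
noncomputable def JI (T : Type) [NormedAddCommGroup T] [NormedSpace ℝ T] [FiniteDimensional ℝ T]
    (f : T → ℚ) : ℚ := Jn _ fun y => f ((coE T).symm y)

theorem Good.prod (h : Good J) (T : Type) [NormedAddCommGroup T] [NormedSpace ℝ T]
    [FiniteDimensional ℝ T] : Good fun f : T × X → ℚ => J fun x => JI T fun t => f (t, x) :=
  (h.pi _).map ((ContinuousLinearEquiv.prodComm ℝ T X).trans
    ((ContinuousLinearEquiv.refl ℝ X).prodCongr (coE T)))

theorem good_JI (T : Type) [NormedAddCommGroup T] [NormedSpace ℝ T] [FiniteDimensional ℝ T] :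
    Good (JI T) :=
  (good_zero.prod T).map (ContinuousLinearEquiv.prodUnique ℝ T (Fin 0 → ℝ)).symm

theorem exists_EInt : Nonempty EInt := by
  refine ⟨⟨JI, fun X Y _ _ _ _ _ _ e ψ h => ?_, fun T X _ _ _ _ _ _ ψ h _ => ?_,
    fun X _ _ _ φ ψ c h h' => ?_, fun X _ _ _ _ A hl hA => (good_JI X).top hl hA⟩⟩
  · have := FiniteDimensional.proper_real Y
    exact ((good_JI X).map e.symm).uniq (good_JI Y) h
  · have := FiniteDimensional.proper_real (T × X)
    exact (good_JI _).uniq ((good_JI X).prod T) h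
  · simpa using (good_JI X).sum (ψ := ![φ, ψ]) (Fin.forall_fin_two.2 ⟨h, h'⟩) ![1, c]

end Pool.Agent.Lib.MP_d4c0ca_ag.T
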