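import Mathlib

/-! Positions on the real line, the real Euler integral, graphs and bands. -/

namespace Pool.Agent.Lib.MP_d4c0ca_ag.T

open Filter Topology Finset Real

open Classical in
/-- the position of a real number with respect to finitely many points -/
noncomputable def ps {s : ℕ} (v : Fin s → ℝ) (t : ℝ) : ℕ × Bool :=
  (#{k | v k < t}, decide (∃ k, v k = t))

variable {s j : ℕ} {v : Fin s → ℝ} {t : ℝ}

theorem ps_lt (hv : StrictMono v) (k : Fin s) : k.1 < (ps v t).1 ↔ v k < t :=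
  Fin.lt_card_filter_univ_iff_apply_of_imp (v · < t) fun _ _ h h' => (hv.monotone h).trans_lt h'

theorem ps_le : (ps v t).1 ≤ s := by
  simpa [ps] using card_le_univ (α := Fin s) _

theorem ps_snd : (ps v t).2 = true ↔ ∃ k, v k = t := by simp [ps]

theorem ps_fst (hv : StrictMono v) (hj : j ≤ s) (h : ∀ k : Fin s, k.1 < j ↔ v k < t) :
    (ps v t).1 = j := by
  have := ps_le (v := v) (t := t)
  by_contra e
  rcases lt_or_gt_of_ne e with e | e
  · have := (ps_lt hv ⟨_, e.trans_le hj⟩).2 ((h _).1 e)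
    simp at this
  · have := (h ⟨_, e.trans_le this⟩).2 ((ps_lt hv _).1 e)
    simp at this

theorem ps_true (hv : StrictMono v) : ps v t = (j, true) ↔ ∃ k : Fin s, k.1 = j ∧ v k = t := by
  have key : ∀ k : Fin s, (ps v (v k)).1 = k := fun k =>
    ps_fst hv k.2.le fun l => (hv.lt_iff_lt (a := l) (b := k)).symm
  constructor
  · intro h
    obtain ⟨k, rfl⟩ := ps_snd.1 (congrArg Prod.snd h)
    exact ⟨k, (key k).symm.trans (congrArg Prod.fst h), rfl⟩
  · rintro ⟨k, rfl, rfl⟩
    exact Prod.ext (key k) (ps_snd.2 ⟨k, rfl⟩)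

theorem ps_false (hv : StrictMono v) : ps v t = (j, false) ↔
    j ≤ s ∧ ∀ k : Fin s, (k.1 < j → v k < t) ∧ (j ≤ k.1 → t < v k) := by
  constructor
  · intro h
    obtain rfl : (ps v t).1 = j := congrArg Prod.fst h
    refine ⟨ps_le, fun k => ⟨(ps_lt hv k).1, fun e => lt_of_le_of_ne
      (not_lt.1 fun e' => e.not_gt ((ps_lt hv k).2 e')) fun e' => ?_⟩⟩
    have := ps_snd.2 ⟨k, e'.symm⟩
    rw [h] at this
    exact Bool.noConfusion this
  · rintro ⟨h1, h2⟩
    refine Prod.ext (ps_fst hv h1 fun k => ⟨(h2 k).1, fun e => not_le.1 fun e' =>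
      ((h2 k).2 e').not_gt e⟩) (Bool.eq_false_iff.2 fun e => ?_)
    obtain ⟨k, e⟩ := ps_snd.1 e
    rcases lt_or_ge k.1 j with e' | e'
    exacts [((h2 k).1 e').ne e, ((h2 k).2 e').ne' e]

/-- the Euler integral of a piecewise constant function on the real line -/
noncomputable def rint (f : ℝ → ℚ) : ℚ :=
  ∑ᶠ t, (f t - limUnder (𝓝[>] t) f) - limUnder atBot f

theorem lim_ev {l : Filter ℝ} [l.NeBot] {f : ℝ → ℚ} {c : ℚ} (h : ∀ᶠ y in l, f y = c) :
    limUnder l f = c :=
  (tendsto_const_nhds.congr' (h.mono fun _ e => e.symm)).limUnder_eq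

theorem rint_cof {f : ℝ → ℚ} {c : ℚ} {E : Finset ℝ} (h : ∀ t ∉ E, f t = c) :
    rint f = ∑ t ∈ E, (f t - c) - c := by
  have h1 : ∀ t, limUnder (𝓝[>] t) f = c := fun t => lim_ev (by
    have : ∀ᶠ y in 𝓝[≠] t, ∀ a ∈ E, y ≠ a := (eventually_all_finset E).2 fun a _ => by
      by_cases e : a = t
      · subst e; exact self_mem_nhdsWithin
      · exact (eventually_ne_nhds (Ne.symm e)).filter_mono nhdsWithin_le_nhds
    exact (this.filter_mono (nhdsGT_le_nhdsNE t)).mono fun y hy => h y fun e => hy y e rfl)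
  have h2 : limUnder atBot f = c := lim_ev (((eventually_all_finset E).2
    fun a _ => eventually_ne_atBot a).mono fun y hy => h y fun e => hy y e rfl)
  rw [rint, h2]
  simp only [h1]
  rw [finsum_eq_sum_of_support_subset (s := E) _ fun t ht => by_contra fun e =>
    ht (sub_eq_zero.2 (h t e))]

theorem rint_ps (hv : StrictMono v) (ψ : ℕ × Bool → ℚ) : (rint fun t => ψ (ps v t)) =
    ∑ j ∈ range s, ψ (j, true) - ∑ j ∈ range (s + 1), ψ (j, false) := by
  have h0 : ∀ {l : Filter ℝ} [l.NeBot] {j}, j ≤ s → (∀ k : Fin s, (k.1 < j → ∀ᶠ y in l, v k < y) ∧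
      (j ≤ k.1 → ∀ᶠ y in l, y < v k)) → limUnder l (fun t => ψ (ps v t)) = ψ (j, false) :=
    fun hj h => lim_ev ((eventually_all.2 fun k => (eventually_imp_distrib_left.2 (h k).1).and
      (eventually_imp_distrib_left.2 (h k).2)).mono fun y hy => by rw [(ps_false hv).2 ⟨hj, hy⟩])
  have up : ∀ {a t : ℝ}, a ≤ t → ∀ᶠ y in 𝓝[>] t, a < y := fun h =>
    eventually_mem_nhdsWithin.mono fun _ e => h.trans_lt e
  have dn : ∀ {a t : ℝ}, t < a → ∀ᶠ y in 𝓝[>] t, y < a := fun h =>
    (gt_mem_nhds h).filter_mono nhdsWithin_le_nhds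
  rw [rint, h0 (Nat.zero_le s) fun k => ⟨fun e => absurd e (Nat.not_lt_zero _),
    fun _ => eventually_lt_atBot _⟩, finsum_eq_sum_of_support_subset (s := univ.image v),
    sum_image fun a _ b _ e => hv.injective e, sum_range_succ', ← sub_sub, ← sum_sub_distrib,
    sum_range]
  · congr 1
    refine sum_congr rfl fun k _ => ?_
    rw [(ps_true hv).2 ⟨k, rfl, rfl⟩, h0 (j := k + 1) k.2 fun l =>
      ⟨fun e => up (hv.monotone (Nat.lt_succ_iff.1 e)), fun e => dn (hv e)⟩]
  · intro t ht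
    by_contra e
    have e1 : ps v t = ((ps v t).1, false) := Prod.ext rfl (Bool.eq_false_iff.2 fun e' =>
      e (by simpa using ps_snd.1 e'))
    have e2 := (ps_false hv).1 e1
    exact ht (by
      beta_reduce
      rw [h0 e2.1 fun k => ⟨fun e => up ((e2.2 k).1 e).le, fun e => dn ((e2.2 k).2 e)⟩, ← e1,
        sub_self])

variable {X : Type} [TopologicalSpace X] {S : Set X}

theorem graph_homeo {f : S → ℝ} (hf : Continuous f) {G : Set (X × ℝ)}
    (hG : ∀ p, p ∈ G ↔ ∃ h : p.1 ∈ S, f ⟨p.1, h⟩ = p.2) : Nonempty (G ≃ₜ S) :=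
  ⟨{ toFun := fun p => ⟨p.1.1, ((hG _).1 p.2).1⟩
     invFun := fun x => ⟨(x, f x), (hG _).2 ⟨x.2, rfl⟩⟩
     left_inv := fun p => Subtype.ext (Prod.ext rfl ((hG _).1 p.2).2)
     right_inv := fun _ => rfl
     continuous_toFun := by fun_prop
     continuous_invFun := by fun_prop }⟩

theorem band_homeo {α β : S → ℝ} (hα : Continuous α) (hβ : Continuous β) (h1 : ∀ x, -(π / 2) ≤ α x)
    (h2 : ∀ x, α x < β x) (h3 : ∀ x, β x ≤ π / 2) {B : Set (X × ℝ)} (hB : ∀ p, p ∈ B ↔
      ∃ h : p.1 ∈ S, α ⟨p.1, h⟩ < arctan p.2 ∧ arctan p.2 < β ⟨p.1, h⟩) :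
    Nonempty (B ≃ₜ ℝ × S) := by
  let b : B → S := fun p => ⟨p.1.1, ((hB _).1 p.2).1⟩
  have cb : Continuous b := by fun_prop
  let u : B → ℝ := fun p => (arctan p.1.2 - α (b p)) / (β (b p) - α (b p)) * π - π / 2
  let w : ℝ × S → ℝ := fun q => α q.2 + (arctan q.1 + π / 2) / π * (β q.2 - α q.2)
  have d0 : ∀ x, 0 < β x - α x := fun x => sub_pos.2 (h2 x)
  have hu : ∀ p, u p ∈ Set.Ioo (-(π / 2)) (π / 2) := fun p => by
    obtain ⟨a1, a2⟩ : α (b p) < arctan p.1.2 ∧ arctan p.1.2 < β (b p) := ((hB _).1 p.2).2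
    have c1 := mul_pos (div_pos (sub_pos.2 a1) (d0 (b p))) pi_pos
    have c2 := mul_lt_mul_of_pos_right ((div_lt_one (d0 (b p))).2 (sub_lt_sub_right a2 _)) pi_pos
    exact ⟨by simp only [u]; linarith, by simp only [u]; linarith⟩
  have hw : ∀ q, α q.2 < w q ∧ w q < β q.2 := fun q => by
    obtain ⟨a1, a2⟩ := arctan_mem_Ioo q.1
    have c1 := mul_pos (div_pos (by linarith : 0 < arctan q.1 + π / 2) pi_pos) (d0 q.2)
    have c2 := mul_lt_mul_of_pos_right
      ((div_lt_one pi_pos).2 (by linarith : arctan q.1 + π / 2 < π)) (d0 q.2)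
    exact ⟨by simp only [w]; linarith, by simp only [w]; linarith⟩
  have hw' : ∀ q, w q ∈ Set.Ioo (-(π / 2)) (π / 2) := fun q =>
    ⟨(h1 _).trans_lt (hw q).1, (hw q).2.trans_le (h3 _)⟩
  have aw : ∀ q, arctan (tan (w q)) = w q := fun q => arctan_tan (hw' q).1 (hw' q).2
  have ca := continuous_arctan
  have cu : Continuous u :=
    ((Continuous.div (by fun_prop) (by fun_prop) fun p => (d0 _).ne').mul continuous_const).sub
      continuous_const
  refine ⟨{ toFun := fun p => (tan (u p), b p)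
            invFun := fun q => ⟨(q.2, tan (w q)), (hB _).2 ⟨q.2.2, by rw [aw]; exact hw q⟩⟩
            left_inv := fun p => Subtype.ext (Prod.ext rfl ?_)
            right_inv := fun q => Prod.ext ?_ rfl
            continuous_toFun := (continuousOn_tan_Ioo.comp_continuous cu hu).prodMk cb
            continuous_invFun := Continuous.subtype_mk (Continuous.prodMk (by fun_prop)
              (continuousOn_tan_Ioo.comp_continuous (by fun_prop) hw')) _ }⟩
  · have := (d0 (b p)).ne'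
    have e : w (tan (u p), b p) = arctan p.1.2 := by
      simp only [w]
      rw [arctan_tan (hu p).1 (hu p).2]
      simp only [u]
      field_simp
      ring
    simp only [e, tan_arctan]
  · have := (d0 q.2).ne'
    refine (congrArg tan ?_).trans (tan_arctan q.1)
    simp only [u, b, aw]
    simp only [w]
    field_simp
    ring

theorem band_ps {ξ : Fin s → S → ℝ} (hc : ∀ k, Continuous (ξ k)) (hm : ∀ x, StrictMono (ξ · x))
    (hj : j ≤ s) {B : Set (X × ℝ)}
    (hB : ∀ p, p ∈ B ↔ ∃ h : p.1 ∈ S, ps (ξ · ⟨p.1, h⟩) p.2 = (j, false)) :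
    Nonempty (B ≃ₜ ℝ × S) := by
  have ca := continuous_arctan
  have lo := fun x => (arctan_mem_Ioo x).1
  have hi := fun x => (arctan_mem_Ioo x).2
  refine band_homeo (α := fun x => if h : 0 < j then arctan (ξ ⟨j - 1, by omega⟩ x) else -(π / 2))
    (β := fun x => if h : j < s then arctan (ξ ⟨j, h⟩ x) else π / 2) ?_ ?_ (fun x => ?_)
    (fun x => ?_) (fun x => ?_) fun p => (hB p).trans (exists_congr fun h => ?_)
  · split_ifs <;> fun_prop
  · split_ifs <;> fun_prop
  · split_ifs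
    exacts [(lo _).le, le_rfl]
  · split_ifs
    exacts [arctan_strictMono (hm x (by simp only [Fin.mk_lt_mk]; omega)), hi _, lo _,
      (lo 0).trans (hi 0)]
  · split_ifs
    exacts [(hi _).le, le_rfl]
  · rw [ps_false (hm _)]
    refine ⟨fun a => ⟨?_, ?_⟩, fun a => ⟨hj, fun k => ⟨fun e => ?_, fun e => ?_⟩⟩⟩
    · split_ifs
      exacts [arctan_strictMono ((a.2 _).1 (by simp only; omega)), lo _]
    · split_ifs
      exacts [arctan_strictMono ((a.2 _).2 le_rfl), hi _]
    · have := a.1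
      rw [dif_pos (by omega), arctan_lt_arctan_iff] at this
      exact ((hm _).monotone (by simp only [Fin.le_def]; omega)).trans_lt this
    · have := a.2
      rw [dif_pos (e.trans_lt k.2), arctan_lt_arctan_iff] at this
      exact this.trans_le ((hm _).monotone e)

end Pool.Agent.Lib.MP_d4c0ca_ag.T
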