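import Mathlib

/-! Dimensions of subquotients and the dimension count in a long exact sequence. -/

namespace Pool.Agent.Lib.MP_d4c0ca_ag.T

open Submodule Cardinal

variable {k N N' : Type} [Field k] [AddCommGroup N] [Module k N] [AddCommGroup N'] [Module k N']

/-- The dimension of the image of `Z` in the quotient by `B`. -/
noncomputable def rk (B Z : Submodule k N) : Cardinal := Module.rank k (Z.map B.mkQ)

theorem rk_add {B M : Submodule k N} (h : B ≤ M) (Z : Submodule k N) :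
    rk B Z = rk B (Z ⊓ M) + rk M Z := by
  have h1 := LinearMap.rank_range_add_rank_ker ((factor h).domRestrict (Z.map B.mkQ))
  rw [LinearMap.range_domRestrict, ← map_comp, factor_comp_mk] at h1
  have h2 : (Z ⊓ M).map B.mkQ ≤ Z.map B.mkQ := map_mono inf_le_left
  have h3 : LinearMap.ker ((factor h).domRestrict (Z.map B.mkQ)) =
      ((Z ⊓ M).map B.mkQ).comap (Z.map B.mkQ).subtype := by
    ext ⟨_, x, hx, rfl⟩
    refine ⟨fun e => ⟨x, ⟨hx, (Quotient.mk_eq_zero M).1 e⟩, rfl⟩, ?_⟩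
    rintro ⟨y, hy, e⟩
    change factor h (B.mkQ x) = 0
    rw [← show B.mkQ y = B.mkQ x from e]
    exact (Quotient.mk_eq_zero M).2 hy.2
  rw [h3, (comapSubtypeEquivOfLe h2).rank_eq] at h1
  exact h1.symm.trans (add_comm _ _)

theorem rk_congr (f : N →ₗ[k] N') {B Z : Submodule k N} {B' Z' : Submodule k N'}
    (hZ : ∀ x ∈ Z, f x ∈ Z') (hB : ∀ x ∈ Z, x ∈ B ↔ f x ∈ B')
    (hs : ∀ y ∈ Z', ∃ x ∈ Z, f x - y ∈ B') : rk B Z = rk B' Z' := by
  have e1 : Z.map B.mkQ = LinearMap.range (B.mkQ.domRestrict Z) := by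
    rw [LinearMap.range_domRestrict]
  have e2 : Z'.map B'.mkQ = LinearMap.range ((B'.mkQ ∘ₗ f).domRestrict Z) := by
    rw [LinearMap.range_domRestrict]
    refine le_antisymm ?_ ?_
    · rintro _ ⟨y, hy, rfl⟩
      obtain ⟨x, hx, e⟩ := hs y hy
      exact ⟨x, hx, (Submodule.Quotient.eq B').2 e⟩
    · rintro _ ⟨x, hx, rfl⟩
      exact ⟨f x, hZ x hx, rfl⟩
  have e3 : LinearMap.ker (B.mkQ.domRestrict Z) = LinearMap.ker ((B'.mkQ ∘ₗ f).domRestrict Z) := by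
    ext ⟨x, hx⟩
    exact ((Quotient.mk_eq_zero B).trans (hB x hx)).trans (Quotient.mk_eq_zero B').symm
  rw [rk, rk, e1, e2, ← (LinearMap.quotKerEquivRange _).rank_eq,
    ← (LinearMap.quotKerEquivRange _).rank_eq, e3]

theorem rk_eq_zero {B Z : Submodule k N} (h : Z ≤ B) : rk B Z = 0 := by
  have : Z.map B.mkQ = ⊥ := by
    rw [eq_bot_iff]
    rintro _ ⟨x, hx, rfl⟩
    exact (Quotient.mk_eq_zero B).2 (h hx)
  rw [rk, this, rank_bot]

theorem rk_bot (Z : Submodule k N) : rk ⊥ Z = Module.rank k Z :=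
  ((equivMapOfInjective _ (by
    rw [← LinearMap.ker_eq_bot, ker_mkQ]) Z).rank_eq).symm

/-- Coboundaries modulo `n`. -/
def Bd (d : N →ₗ[k] N) (n : Submodule k N) (R : ℤ → Submodule k N) (i : ℤ) : Submodule k N :=
  n ⊔ (R (i - 1)).map d

/-- Cocycles modulo `n`. -/
def Zc (d : N →ₗ[k] N) (n : Submodule k N) (R : ℤ → Submodule k N) (i : ℤ) : Submodule k N :=
  R i ⊓ n.comap d

/-- The dimension of the cohomology of `R` modulo `n`. -/
noncomputable def hh (d : N →ₗ[k] N) (n : Submodule k N) (R : ℤ → Submodule k N) (i : ℤ) :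
    Cardinal := rk (Bd d n R i) (Zc d n R i)

variable {d : N →ₗ[k] N} {n m : Submodule k N} {R : ℤ → Submodule k N} {i : ℤ} {x : N}

theorem mem_Bd : x ∈ Bd d n R i ↔ ∃ y ∈ R (i - 1), d y - x ∈ n := by
  refine mem_sup.trans ⟨?_, fun ⟨y, hy, h⟩ => ⟨_, neg_mem h, _, ⟨y, hy, rfl⟩, by abel⟩⟩
  rintro ⟨u, hu, _, ⟨y, hy, rfl⟩, rfl⟩
  exact ⟨y, hy, by simpa using hu⟩

theorem mem_Zc : x ∈ Zc d n R i ↔ x ∈ R i ∧ d x ∈ n := Iff.rfl

theorem les (hd : ∀ i, ∀ x ∈ R i, d x ∈ R (i + 1)) (dd : ∀ i, ∀ x ∈ R i, d (d x) = 0)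
    (h : n ≤ m) : ∃ a b c : ℤ → Cardinal, hh d n (fun i => R i ⊓ m) = c + a ∧
      hh d n R = a + b ∧ hh d m R = b + fun i => c (i + 1) := by
  have hd' : ∀ i, ∀ x ∈ R (i - 1), d x ∈ R i := fun i x hx => by simpa using hd _ x hx
  refine ⟨fun i => rk (Bd d n R i) (Zc d n (fun i => R i ⊓ m) i),
    fun i => rk (Bd d m R i) (Zc d n R i),
    fun i => rk (Bd d n (fun i => R i ⊓ m) i) (Zc d n (fun i => R i ⊓ m) i ⊓ Bd d n R i),
    funext fun i => rk_add (sup_le_sup_left (map_mono inf_le_left) _) _,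
    funext fun i => (rk_add (sup_le_sup_right h _) _).trans (congrArg₂ (· + ·) ?_ rfl),
    funext fun i => (rk_add (M := Bd d m R i ⊔ Zc d n R i) le_sup_left _).trans
      (congrArg₂ (· + ·) ?_ ?_)⟩
  · symm
    refine rk_congr LinearMap.id (fun x hx => ⟨⟨hx.1.1, hx.2⟩, mem_sup_left hx.1.2⟩)
      (fun _ _ => Iff.rfl) fun y hy => ?_
    obtain ⟨r, hr, e⟩ := mem_Bd.1 hy.2
    refine ⟨y - d r, ⟨⟨sub_mem hy.1.1 (hd' i r hr), by simpa using neg_mem e⟩, ?_⟩,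
      mem_Bd.2 ⟨-r, neg_mem hr, by simp⟩⟩
    change d (y - d r) ∈ n
    rw [map_sub, dd _ r hr, sub_zero]
    exact hy.1.2
  · symm
    refine rk_congr LinearMap.id (fun x hx => ⟨⟨hx.1, h hx.2⟩, mem_sup_right hx⟩)
      (fun _ _ => Iff.rfl) fun y hy => ?_
    obtain ⟨u, hu, z, hz, rfl⟩ := mem_sup.1 hy.2
    exact ⟨z, hz, by simpa using hu⟩
  · refine rk_congr d (fun x hx => ⟨⟨⟨hd i x hx.1, hx.2⟩, ?_⟩,
      mem_Bd.2 ⟨x, by simpa using hx.1, by simp⟩⟩) (fun x hx => ⟨fun e => ?_, fun e => ?_⟩)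
      fun y hy => ?_
    · change d (d x) ∈ n
      rw [dd i x hx.1]; exact zero_mem _
    · obtain ⟨u, hu, z, hz, rfl⟩ := mem_sup.1 e
      obtain ⟨r, hr, e⟩ := mem_Bd.1 hu
      have h1 : u ∈ R i := by simpa using sub_mem hx.1 hz.1
      refine mem_Bd.2 ⟨u - d r, ?_, ?_⟩
      · rw [add_sub_cancel_right]
        exact ⟨sub_mem h1 (hd' i r hr), by simpa using neg_mem e⟩
      · rw [map_sub, dd _ r hr, map_add]
        simpa using hz.2
    · obtain ⟨w, hw, e⟩ := mem_Bd.1 e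
      rw [add_sub_cancel_right] at hw
      refine mem_sup.2 ⟨w, mem_sup_left hw.2, x - w, ⟨sub_mem hx.1 hw.1, ?_⟩, by abel⟩
      change d (x - w) ∈ n
      simpa using neg_mem e
    · obtain ⟨r, hr, e⟩ := mem_Bd.1 hy.2
      rw [add_sub_cancel_right] at hr
      refine ⟨r, ⟨hr, ?_⟩, mem_sup_left e⟩
      change d r ∈ m
      simpa using add_mem (h e) hy.1.1.2

/-- Finite total dimension. -/
def Fn (f : ℤ → Cardinal.{0}) : Prop := (∀ i, f i < ℵ₀) ∧ (Function.support f).Finite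

/-- The alternating sum. -/
noncomputable def alt (f : ℤ → Cardinal.{0}) : ℤ := ∑ᶠ i, (i.negOnePow : ℤ) * (toNat (f i) : ℕ)

variable {f g : ℤ → Cardinal.{0}}

theorem fn_add : Fn (f + g) ↔ Fn f ∧ Fn g := by
  simp only [Fn, Pi.add_apply, add_lt_aleph0_iff]
  refine ⟨fun ⟨h1, h2⟩ => ⟨⟨fun i => (h1 i).1, h2.subset fun i hi e => hi ?_⟩,
    fun i => (h1 i).2, h2.subset fun i hi e => hi ?_⟩, fun ⟨h1, h2⟩ =>
      ⟨fun i => ⟨h1.1 i, h2.1 i⟩, (h1.2.union h2.2).subset (Function.support_add _ _)⟩⟩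
  exacts [(add_eq_zero.1 e).1, (add_eq_zero.1 e).2]

theorem Fn.supp (h : Fn f) :
    (Function.support fun i : ℤ => (i.negOnePow : ℤ) * (toNat (f i) : ℕ)).Finite :=
  h.2.subset fun i hi e => hi (by simp [e])

theorem alt_add (h : Fn f) (h' : Fn g) : alt (f + g) = alt f + alt g := by
  rw [alt, alt, alt, ← finsum_add_distrib h.supp h'.supp]
  exact finsum_congr fun i => by
    rw [Pi.add_apply, toNat_add (h.1 i) (h'.1 i), Nat.cast_add, mul_add]

theorem fn_shift : Fn (fun i => f (i + 1)) ↔ Fn f := by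
  refine ⟨fun h => ⟨fun i => by simpa using h.1 (i - 1), ?_⟩, fun h => ⟨fun i => h.1 _, ?_⟩⟩
  · exact (h.2.image (· + 1)).subset fun i hi => ⟨i - 1, by simpa using hi, by simp⟩
  · exact (h.2.image (· - 1)).subset fun i hi => ⟨i + 1, hi, by simp⟩

theorem alt_shift : alt (fun i => f (i + 1)) = -alt f := by
  rw [alt, alt, ← finsum_neg_distrib, ← finsum_comp_equiv (Equiv.addRight (1 : ℤ))
    (f := fun i : ℤ => -((i.negOnePow : ℤ) * (toNat (f i) : ℕ)))]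
  exact finsum_congr fun i => by simp [Int.negOnePow_succ]

/-- Finite total dimension with alternating sum `c`. -/
def Eu (f : ℤ → Cardinal.{0}) (c : ℤ) : Prop := Fn f ∧ alt f = c

variable {a b c : ℤ → Cardinal.{0}} {u v : ℤ}

theorem Eu.mid (h1 : Eu (c + a) u) (h3 : Eu (b + fun i => c (i + 1)) v) : Eu (a + b) (u + v) := by
  obtain ⟨hc, ha⟩ := fn_add.1 h1.1
  obtain ⟨hb, hc'⟩ := fn_add.1 h3.1
  refine ⟨fn_add.2 ⟨ha, hb⟩, ?_⟩
  rw [← h1.2, ← h3.2, alt_add ha hb, alt_add hc ha, alt_add hb hc', alt_shift]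
  ring

theorem Eu.left (h2 : Eu (a + b) u) (h3 : Eu (b + fun i => c (i + 1)) v) : Eu (c + a) (u - v) := by
  obtain ⟨ha, hb⟩ := fn_add.1 h2.1
  obtain ⟨-, hc'⟩ := fn_add.1 h3.1
  have hc := fn_shift.1 hc'
  refine ⟨fn_add.2 ⟨hc, ha⟩, ?_⟩
  rw [← h2.2, ← h3.2, alt_add ha hb, alt_add hc ha, alt_add hb hc', alt_shift]
  ring

theorem eu_zero : Eu 0 0 := ⟨⟨fun _ => aleph0_pos, by simp⟩, by simp [alt]⟩

theorem eu_one (h0 : f 0 = 1) (h : ∀ i, i ≠ 0 → f i = 0) : Eu f 1 := by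
  refine ⟨⟨fun i => ?_, (Set.finite_singleton 0).subset fun i hi => by_contra fun e => hi (h i e)⟩,
    ?_⟩
  · by_cases e : i = 0
    · rw [e, h0]; exact one_lt_aleph0
    · rw [h i e]; exact aleph0_pos
  · rw [alt, finsum_eq_single _ 0 fun i hi => by simp [h i hi]]
    simp [h0]

end Pool.Agent.Lib.MP_d4c0ca_ag.T
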