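import Pool.Agent.Lib.MP_d4c0ca_ag.T.Defs
import Pool.Agent.Lib.MP_cd184e_ag.B.Stmt

/-! The notions of the statement on schemes: torsion free sheaves, the first local Ext sheaf,
points of the Quot scheme and the Grassmann embedding. -/

namespace Pool.Agent.Lib.MP_d4c0ca_ag.T

open CategoryTheory AlgebraicGeometry MvPolynomial HomogeneousLocalization
open Pool.Agent.Lib.MP_cd184e_ag.B

/-- No nonzero function kills a nonzero section. -/
def TorsionFree {Y : Scheme.{0}} (F : CohCat Y) : Prop :=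
  ∀ (U : Y.Opens) (a : Γ(Y, U)) (s : Γ(F.obj, U)), a • s = 0 → a = 0 ∨ s = 0

/-- On every affine open set the sections of `G` are the first Ext module of the sections of `F`
with values in the functions. -/
def IsExt1 {Y : Scheme.{0}} (F G : CohCat Y) : Prop :=
  ∀ U : Y.Opens, IsAffineOpen U → Nonempty (Γ(G.obj, U) ≃ₗ[Γ(Y, U)]
    Abelian.Ext (ModuleCat.of Γ(Y, U) Γ(F.obj, U)) (ModuleCat.of Γ(Y, U) Γ(Y, U)) 1)

/-- Coherent subsheaves whose quotient has length `n` in the category of coherent sheaves. -/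
def QuotSet {Y : Scheme.{0}} (G : CohCat Y) (n : ℕ) : Set (Subobject G) :=
  {K | Order.coheight K = n}

variable {S σ ι : Type} [CommRing S] [Algebra ℂ S] {𝒜 : ℕ → Submodule ℂ S} [GradedAlgebra 𝒜]
  {x : σ → S} (hx : ∀ l, x l ∈ 𝒜 1)

/-- The function `f (x / x j)` on the chart `x j ≠ 0`. -/
noncomputable def dehom (j : σ) : MvPolynomial σ ℂ →+* Γ(Proj 𝒜, Proj.basicOpen 𝒜 (x j)) :=
  (Proj.awayToSection 𝒜 (x j)).hom.comp
    (eval₂Hom ((algebraMap (𝒜 0) (Away 𝒜 (x j))).comp (algebraMap ℂ (𝒜 0)))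
      fun l => Away.mk 𝒜 (hx j) 1 (x l) (hx l))

/-- An epimorphism from `ι` copies of `O(-a)` onto `G`, given on the charts `x j ≠ 0`. -/
structure Gens (G : CohCat (Proj 𝒜)) (ι : Type) where
  a : ℕ
  g : ι → ∀ j, Γ(G.obj, Proj.basicOpen 𝒜 (x j))
  compat : ∀ i j l U (hj : U ≤ Proj.basicOpen 𝒜 (x j)) (hl : U ≤ Proj.basicOpen 𝒜 (x l)),
    mres G.obj hj (g i j) = rres hj (dehom hx j (X l ^ a)) • mres G.obj hl (g i l)
  span : ∀ j, Submodule.span Γ(Proj 𝒜, Proj.basicOpen 𝒜 (x j)) (Set.range fun i => g i j) = ⊤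

variable {hx} {G : CohCat (Proj 𝒜)} [Fintype ι]

/-- The vectors of polynomials that are mapped into the subsheaf `K` on every chart. -/
def Gens.pull (γ : Gens hx G ι) (K : Subobject G) :
    Submodule (MvPolynomial σ ℂ) (ι → MvPolynomial σ ℂ) where
  carrier := {f | ∀ j, ∃ s, K.arrow.hom.app _ s = ∑ i, dehom hx j (f i) • γ.g i j}
  zero_mem' j := ⟨0, by simp⟩
  add_mem' h h' j := by
    obtain ⟨s, e⟩ := h j
    obtain ⟨t, e'⟩ := h' j
    exact ⟨s + t, by simp [e, e', add_smul, Finset.sum_add_distrib]⟩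
  smul_mem' p f h j := by
    obtain ⟨s, e⟩ := h j
    exact ⟨dehom hx j p • s, by simp [e, mul_smul, Finset.smul_sum]⟩

variable [Fintype σ] [DecidableEq σ]

/-- The image of the points of the Quot scheme in the Grassmannian of subspaces of the degree `d`
part of the free module, a subspace being given by its orthogonal projection. -/
def Gens.quot (γ : Gens hx G ι) (n d : ℕ) : Set (E σ ι d →L[ℂ] E σ ι d) :=
  (fun K => proj (γ.pull K) d) '' QuotSet G n

end Pool.Agent.Lib.MP_d4c0ca_ag.T
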