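import Pool.Agent.Lib.MP_d4c0ca_ag.T.Stmt
import Pool.Agent.Lib.MP_d4c0ca_ag.Noeth
import Pool.Agent.Lib.MP_cd184e_ag.B.EssSurj

/-! Families of submodules on charts and saturated graded submodules. -/

namespace Pool.Agent.Lib.MP_d4c0ca_ag.T

open CategoryTheory AlgebraicGeometry MvPolynomial
open Pool.Agent.Lib.MP_cd184e_ag.B

/-- Compatible families of submodules on the charts of a cover. -/
def CSub {Y : Scheme.{0}} (G : CohCat Y) {σ : Type} (U : σ → Y.Opens) : Type :=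
  {P : ∀ j, Submodule Γ(Y, U j) Γ(G.obj, U j) // ∀ j l, ∀ s ∈ P j,
    mres G.obj (inf_le_left : U j ⊓ U l ≤ U j) s ∈ Submodule.span Γ(Y, U j ⊓ U l)
      (mres G.obj (inf_le_right : U j ⊓ U l ≤ U l) '' (P l : Set Γ(G.obj, U l)))}

noncomputable instance {Y : Scheme.{0}} (G : CohCat Y) {σ : Type} (U : σ → Y.Opens) :
    PartialOrder (CSub G U) := Subtype.partialOrder _

/-- Saturated graded submodules containing `M`. -/
abbrev SatSub {σ ι : Type} (M : Sub σ ι) : Type :=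
  {K : Sub σ ι // M ≤ K ∧ Graded K ∧ ∀ f, (∀ s : σ, (X s : MvPolynomial σ ℂ) • f ∈ K) → f ∈ K}

variable {S σ ι : Type} [CommRing S] [Algebra ℂ S] {𝒜 : ℕ → Submodule ℂ S} [GradedAlgebra 𝒜]
  {x : σ → S} {hx : ∀ l, x l ∈ 𝒜 1} {G : CohCat (Proj 𝒜)} [Fintype ι]

/-- The relations between the generators. -/
def Gens.ker (γ : Gens hx G ι) : Sub σ ι where
  carrier := {f | ∀ j, ∑ i, dehom hx j (f i) • γ.g i j = 0}
  zero_mem' j := by simp
  add_mem' h h' j := by simp [add_smul, Finset.sum_add_distrib, h j, h' j]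
  smul_mem' p f h j := by
    simp only [Pi.smul_apply, smul_eq_mul, map_mul, mul_smul, ← Finset.smul_sum, h j, smul_zero]

end Pool.Agent.Lib.MP_d4c0ca_ag.T
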